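import Pool.Agent.H1.UFC.Rules

set_option autoImplicit false

/-!
# Elements of a universally flexible loop which commute with all elements

The derivations below were found by a ground closure program; every step is a product rule, a
cancellation, or one instance of universal flexibility (`ufr`).
-/

namespace H1UFC

open H16UFL

universe u

theorem cm1 {Q : Type u} [Lp Q] {c a b z : Q} (hc : ∀ y : Q, c * y = y * c) (t : a * b = z)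
    (e : a = c) : b * a = z := by
  subst e
  rw [← hc, t]

theorem cm2 {Q : Type u} [Lp Q] {c a b z : Q} (hc : ∀ y : Q, c * y = y * c) (t : a * b = z)
    (e : b = c) : b * a = z := by
  subst e
  rw [hc, t]

/-- the inverse of an element which commutes with all elements commutes with all elements -/
theorem inv_comm {Q : Type u} [Lp Q] (hU : UF Q) (g G : Q) (tg : g * G = 1)
    (hg : ∀ y : Q, g * y = y * g) (x : Q) : G * x = x * G := by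
  have t9 : g * G = 1 := tg
  obtain ⟨n5, t13⟩ : ∃ c, G * x = c := ⟨_, rfl⟩
  obtain ⟨n6, t16⟩ : ∃ c, x * G = c := ⟨_, rfl⟩
  obtain ⟨n8, t23⟩ : ∃ a, a * x = n6 := ⟨_, Lp.div_mul' _ _⟩
  obtain ⟨n9, t26⟩ : ∃ c, n8 * g = c := ⟨_, rfl⟩
  have t27 : g * n8 = n9 := cm2 hg t26 rfl
  obtain ⟨n2, t3⟩ : ∃ b, x * b = (1 : Q) := ⟨_, Lp.mul_ldiv _ _⟩
  obtain ⟨n10, t30⟩ : ∃ b, x * b = n9 := ⟨_, Lp.mul_ldiv _ _⟩
  obtain ⟨n11, t33⟩ : ∃ c, n2 * g = c := ⟨_, rfl⟩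
  obtain ⟨n7, t19⟩ : ∃ c, g * x = c := ⟨_, rfl⟩
  have t20 : x * g = n7 := cm1 hg t19 rfl
  have t6 : n2 * x = (1 : Q) := inv2 hU t3
  have t37 : g * n10 = n11 := ufr hU t19 t20 t16 t23 t9 t6 t26 t30 t33
  have t38 : n10 * g = n11 := cm1 hg t37 rfl
  have m0 : n2 = n10 := ma t33 t38 rfl rfl
  have m1 : (1 : Q) = n9 := mc t3 t30 rfl (m0)
  have m2 : G = n8 := mb t9 t27 rfl (m1)
  have m3 : n5 = n6 := mc t13 t23 (m2) rfl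
  rw [t13, t16]
  exact (m3)

/-- `(g (x g))⁻¹ = g⁻¹ (x⁻¹ g⁻¹)` if `g` commutes with all elements -/
theorem saip_outer {Q : Type u} [Lp Q] (hU : UF Q) (g G x X w : Q) (tg : g * G = 1)
    (tx : x * X = 1) (tw : (g * (x * g)) * w = 1)
    (hg : ∀ y : Q, g * y = y * g) (hG : ∀ y : Q, G * y = y * G) : w = G * (X * G) := by
  obtain ⟨n5, t13⟩ : ∃ c, x * g = c := ⟨_, rfl⟩
  obtain ⟨n6, t17⟩ : ∃ c, g * n5 = c := ⟨_, rfl⟩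
  obtain ⟨n7, t21⟩ : ∃ b, n6 * b = (1 : Q) := ⟨_, Lp.mul_ldiv _ _⟩
  have t9 : g * G = 1 := tg
  have t3 : x * X = 1 := tx
  obtain ⟨n8, t25⟩ : ∃ c, X * G = c := ⟨_, rfl⟩
  obtain ⟨n9, t29⟩ : ∃ c, G * n8 = c := ⟨_, rfl⟩
  obtain ⟨n34, t127⟩ : ∃ c, n7 * g = c := ⟨_, rfl⟩
  have t128 : g * n7 = n34 := cm2 hg t127 rfl
  obtain ⟨n28, t104⟩ : ∃ c, n9 * g = c := ⟨_, rfl⟩
  have t105 : g * n9 = n28 := cm2 hg t104 rfl
  have t129 : (1 : Q) * n34 = n34 := Lp.one_mul' _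
  obtain ⟨n30, t112⟩ : ∃ b, n5 * b = x := ⟨_, Lp.mul_ldiv _ _⟩
  obtain ⟨n31, t115⟩ : ∃ c, g * n30 = c := ⟨_, rfl⟩
  obtain ⟨n32, t119⟩ : ∃ b, n5 * b = n31 := ⟨_, Lp.mul_ldiv _ _⟩
  have t19 : (1 : Q) * n6 = n6 := Lp.one_mul' _
  obtain ⟨n12, t41⟩ : ∃ a, a * n5 = x := ⟨_, Lp.div_mul' _ _⟩
  obtain ⟨n13, t44⟩ : ∃ c, n12 * n6 = c := ⟨_, rfl⟩
  have t1 : (1 : Q) * x = x := Lp.one_mul' _
  have t14 : g * x = n5 := cm2 hg t13 rfl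
  have t15 : (1 : Q) * n5 = n5 := Lp.one_mul' _
  have t45 : (1 : Q) * n13 = n13 := Lp.one_mul' _
  have t47 : g * n13 = n6 := ufr hU t17 t19 t1 t41 t14 t15 t44 t45 t19
  have t48 : n13 * g = n6 := cm1 hg t47 rfl
  have t18 : n5 * g = n6 := cm1 hg t17 rfl
  have m0 : n5 = n13 := ma t18 t48 rfl rfl
  have t46 : n13 * (1 : Q) = n13 := Lp.mul_one' _
  have t0 : (1 : Q) * (1 : Q) = (1 : Q) := Lp.one_mul' _
  have t24 : n7 * n6 = (1 : Q) := inv2 hU t21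
  have t116 : n30 * g = n31 := cm1 hg t115 rfl
  have t42 : (1 : Q) * n12 = n12 := Lp.one_mul' _
  obtain ⟨n10, t33⟩ : ∃ c, n5 * x = c := ⟨_, rfl⟩
  have t2 : x * (1 : Q) = x := Lp.mul_one' _
  have t7 : (1 : Q) * g = g := Lp.one_mul' _
  have t8 : g * (1 : Q) = g := Lp.mul_one' _
  have t16 : n5 * (1 : Q) = n5 := Lp.mul_one' _
  have t36 : x * n5 = n10 := ufr hU t2 t1 t7 t8 t13 t16 t14 t15 t33
  have t43 : n12 * (1 : Q) = n12 := Lp.mul_one' _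
  have t126 : (1 : Q) * n30 = n12 := ufr hU (rt t45 rfl (m0.symm) rfl) (rt t46 (m0.symm) rfl rfl) t33 t36 t1 t41 t2 t112 t43
  have m7 : n12 = n30 := mb t42 t126 rfl rfl
  have t131 : (1 : Q) * n32 = n34 := ufr hU t19 (rt t48 (m0.symm) rfl rfl) (rt t46 (m0.symm) rfl rfl) t44 t0 t24 (rt t116 (m7.symm) rfl rfl) t119 t127
  have m8 : n34 = n32 := mb t129 t131 rfl rfl
  obtain ⟨n33, t122⟩ : ∃ c, X * n30 = c := ⟨_, rfl⟩
  have t123 : (1 : Q) * n33 = n33 := Lp.one_mul' _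
  have t6 : X * x = (1 : Q) := inv2 hU t3
  have t125 : (1 : Q) * n32 = n33 := ufr hU t1 t112 (rt t46 (m0.symm) rfl rfl) (rt t14 rfl rfl (m0)) t0 t6 t115 t119 t122
  have m6 : n33 = n32 := mb t123 t125 rfl rfl
  obtain ⟨n16, t58⟩ : ∃ a, a * g = x := ⟨_, Lp.div_mul' _ _⟩
  obtain ⟨n36, t136⟩ : ∃ c, X * n16 = c := ⟨_, rfl⟩
  obtain ⟨n37, t139⟩ : ∃ a, a * x = n36 := ⟨_, Lp.div_mul' _ _⟩
  obtain ⟨n26, t95⟩ : ∃ c, n12 * x = c := ⟨_, rfl⟩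
  have t59 : g * n16 = x := cm2 hg t58 rfl
  have t98 : (1 : Q) * n16 = n26 := ufr hU (rt t45 rfl (m0.symm) rfl) (rt t14 rfl rfl (m0)) t14 (rt t45 rfl (m0.symm) (m0.symm)) t1 t41 t1 t59 t95
  have t141 : n37 * (1 : Q) = n37 := Lp.mul_one' _
  have t142 : X * n30 = n37 := ufr hU t6 t0 t98 t95 t136 t139 t43 t126 t141
  have m9 : n33 = n37 := mc t122 t142 rfl rfl
  obtain ⟨n38, t143⟩ : ∃ c, n37 * X = c := ⟨_, rfl⟩
  obtain ⟨n35, t132⟩ : ∃ c, n28 * X = c := ⟨_, rfl⟩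
  obtain ⟨n17, t62⟩ : ∃ c, n16 * X = c := ⟨_, rfl⟩
  obtain ⟨n18, t65⟩ : ∃ b, x * b = n17 := ⟨_, Lp.mul_ldiv _ _⟩
  obtain ⟨n11, t37⟩ : ∃ c, n8 * X = c := ⟨_, rfl⟩
  have t5 : X * (1 : Q) = X := Lp.mul_one' _
  have t4 : (1 : Q) * X = X := Lp.one_mul' _
  have t10 : (1 : Q) * G = G := Lp.one_mul' _
  have t11 : G * (1 : Q) = G := Lp.mul_one' _
  have t28 : n8 * (1 : Q) = n8 := Lp.mul_one' _
  have t26 : G * X = n8 := cm2 hG t25 rfl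
  have t27 : (1 : Q) * n8 = n8 := Lp.one_mul' _
  have t40 : X * n8 = n11 := ufr hU t5 t4 t10 t11 t25 t28 t26 t27 t37
  obtain ⟨n15, t54⟩ : ∃ c, n9 * n8 = c := ⟨_, rfl⟩
  have t30 : n8 * G = n9 := cm1 hG t29 rfl
  have t32 : n9 * (1 : Q) = n9 := Lp.mul_one' _
  have t31 : (1 : Q) * n9 = n9 := Lp.one_mul' _
  have t57 : n8 * n9 = n15 := ufr hU t28 t27 t10 t11 t30 t32 t29 t31 t54
  obtain ⟨n20, t73⟩ : ∃ c, X * n9 = c := ⟨_, rfl⟩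
  obtain ⟨n29, t108⟩ : ∃ c, n28 * n8 = c := ⟨_, rfl⟩
  obtain ⟨n21, t76⟩ : ∃ a, a * X = n20 := ⟨_, Lp.div_mul' _ _⟩
  have t78 : n21 * (1 : Q) = n21 := Lp.mul_one' _
  obtain ⟨n23, t82⟩ : ∃ b, X * b = n21 := ⟨_, Lp.mul_ldiv _ _⟩
  obtain ⟨n24, t86⟩ : ∃ b, X * b = n9 := ⟨_, Lp.mul_ldiv _ _⟩
  obtain ⟨n22, t79⟩ : ∃ a, a * X = n9 := ⟨_, Lp.div_mul' _ _⟩
  have t80 : (1 : Q) * n22 = n22 := Lp.one_mul' _
  have t81 : n22 * (1 : Q) = n22 := Lp.mul_one' _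
  have t85 : (1 : Q) * n23 = n22 := ufr hU t4 t5 t73 t76 t31 t79 t78 t82 t81
  have m1 : n22 = n23 := mb t80 t85 rfl rfl
  obtain ⟨n25, t89⟩ : ∃ c, n22 * G = c := ⟨_, rfl⟩
  have t93 : G * n24 = n25 := ufr hU t26 t25 t40 t37 t29 t79 t30 t86 t89
  have t94 : n24 * G = n25 := cm1 hG t93 rfl
  have m2 : n22 = n24 := ma t89 t94 rfl rfl
  have m3 : n21 = n9 := mc t82 t86 rfl ((m1.symm).trans (m2))
  have t12 : G * g = (1 : Q) := inv2 hU t9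
  have t107 : n28 * (1 : Q) = n28 := Lp.mul_one' _
  have t111 : n9 * X = n29 := ufr hU (rt t78 (m3) rfl rfl) (rt t29 rfl rfl (m3.symm)) t12 t0 t104 t107 t27 t26 t108
  have m5 : n20 = n29 := mc t76 t111 (m3) rfl
  obtain ⟨n14, t49⟩ : ∃ a, a * g = G := ⟨_, Lp.div_mul' _ _⟩
  have t52 : n14 * (1 : Q) = n14 := Lp.mul_one' _
  have t53 : G * G = n14 := ufr hU t12 t0 t0 t12 t11 t49 t11 t10 t52
  obtain ⟨n19, t68⟩ : ∃ c, n14 * X = c := ⟨_, rfl⟩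
  have t71 : G * n18 = n19 := ufr hU t12 t3 t2 t58 t11 t49 t62 t65 t68
  have t103 : n8 * n18 = n20 := ufr hU t28 t26 t53 t52 t30 (rt t78 rfl rfl (m3)) t68 t71 t76
  have t135 : X * n18 = n35 := ufr hU t40 t37 t57 t54 t73 (rt t108 rfl rfl (m5.symm)) t111 (rt t103 rfl rfl (m5)) t132
  obtain ⟨n27, t99⟩ : ∃ c, n16 * x = c := ⟨_, rfl⟩
  have t102 : x * n16 = n27 := ufr hU t13 t14 t8 t7 t2 t58 t1 t59 t99
  have t146 : X * n18 = n38 := ufr hU t6 t3 t102 t99 t136 t139 t62 t65 t143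
  have m10 : n35 = n38 := mc t135 t146 rfl rfl
  have m11 : n37 = n28 := ma t143 t132 rfl (m10.symm)
  have m12 : n7 = n9 := mb t128 t105 rfl (m8.trans ((m6.symm).trans (m9.trans (m11))))
  rw [t13, t17] at tw
  rw [t25, t29]
  exact (mb tw t21 rfl rfl).trans m12

/-- `(g (x g))⁻¹ = g⁻¹ (x⁻¹ g⁻¹)` if `x` commutes with all elements -/
theorem saip_inner {Q : Type u} [Lp Q] (hU : UF Q) (g G x X w : Q) (tg : g * G = 1)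
    (tx : x * X = 1) (tw : (g * (x * g)) * w = 1)
    (hx : ∀ y : Q, x * y = y * x) (hX : ∀ y : Q, X * y = y * X) : w = G * (X * G) := by
  obtain ⟨n5, t13⟩ : ∃ c, x * g = c := ⟨_, rfl⟩
  obtain ⟨n6, t17⟩ : ∃ c, g * n5 = c := ⟨_, rfl⟩
  obtain ⟨n7, t20⟩ : ∃ b, n6 * b = (1 : Q) := ⟨_, Lp.mul_ldiv _ _⟩
  have t9 : g * G = 1 := tg
  have t3 : x * X = 1 := tx
  obtain ⟨n8, t24⟩ : ∃ c, X * G = c := ⟨_, rfl⟩
  obtain ⟨n9, t28⟩ : ∃ c, G * n8 = c := ⟨_, rfl⟩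
  obtain ⟨n37, t131⟩ : ∃ c, n7 * g = c := ⟨_, rfl⟩
  obtain ⟨n27, t95⟩ : ∃ c, n9 * g = c := ⟨_, rfl⟩
  have t132 : (1 : Q) * n37 = n37 := Lp.one_mul' _
  obtain ⟨n20, t69⟩ : ∃ c, g * n6 = c := ⟨_, rfl⟩
  obtain ⟨n21, t72⟩ : ∃ a, a * g = n20 := ⟨_, Lp.div_mul' _ _⟩
  obtain ⟨n22, t75⟩ : ∃ b, g * b = n21 := ⟨_, Lp.mul_ldiv _ _⟩
  obtain ⟨n34, t122⟩ : ∃ a, a * n21 = n22 := ⟨_, Lp.div_mul' _ _⟩
  obtain ⟨n35, t125⟩ : ∃ c, n34 * g = c := ⟨_, rfl⟩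
  obtain ⟨n36, t128⟩ : ∃ b, n5 * b = n35 := ⟨_, Lp.mul_ldiv _ _⟩
  have t73 : (1 : Q) * n21 = n21 := Lp.one_mul' _
  obtain ⟨n18, t62⟩ : ∃ a, a * g = n6 := ⟨_, Lp.div_mul' _ _⟩
  have t14 : g * x = n5 := cm1 hx t13 rfl
  obtain ⟨n19, t65⟩ : ∃ b, g * b = n18 := ⟨_, Lp.mul_ldiv _ _⟩
  have t1 : (1 : Q) * x = x := Lp.one_mul' _
  have t7 : (1 : Q) * g = g := Lp.one_mul' _
  have t8 : g * (1 : Q) = g := Lp.mul_one' _
  have t15 : (1 : Q) * n5 = n5 := Lp.one_mul' _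
  have t64 : n18 * (1 : Q) = n18 := Lp.mul_one' _
  have t2 : x * (1 : Q) = x := Lp.mul_one' _
  have t68 : (1 : Q) * n19 = x := ufr hU t7 t8 t17 t62 t15 t13 t64 t65 t2
  have m3 : x = n19 := mb t1 t68 rfl rfl
  have m4 : n5 = n18 := mc t14 t65 rfl (m3)
  have t63 : (1 : Q) * n18 = n18 := Lp.one_mul' _
  have t18 : (1 : Q) * n6 = n6 := Lp.one_mul' _
  have t74 : n21 * (1 : Q) = n21 := Lp.mul_one' _
  have t78 : (1 : Q) * n22 = n18 := ufr hU t7 t8 t69 t72 t18 t62 t74 t75 t64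
  have m5 : n18 = n22 := mb t63 t78 rfl rfl
  have m6 : n6 = n21 := mc t17 t75 rfl (m4.trans (m5))
  have t77 : n22 * (1 : Q) = n22 := Lp.mul_one' _
  have t0 : (1 : Q) * (1 : Q) = (1 : Q) := Lp.one_mul' _
  have t23 : n7 * n6 = (1 : Q) := inv2 hU t20
  have t134 : (1 : Q) * n36 = n37 := ufr hU t73 (rt t62 (m4.symm) rfl (m6)) (rt t77 ((m5.symm).trans (m4.symm)) rfl rfl) t122 t0 (rt t23 rfl (m6) rfl) t125 t128 t131
  have m10 : n37 = n36 := mb t132 t134 rfl rfl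
  obtain ⟨n29, t103⟩ : ∃ b, n5 * b = x := ⟨_, Lp.mul_ldiv _ _⟩
  obtain ⟨n30, t106⟩ : ∃ c, g * n29 = c := ⟨_, rfl⟩
  obtain ⟨n31, t109⟩ : ∃ b, n5 * b = n30 := ⟨_, Lp.mul_ldiv _ _⟩
  obtain ⟨n45, t163⟩ : ∃ c, n21 * x = c := ⟨_, rfl⟩
  have t164 : x * n21 = n45 := cm2 hx t163 rfl
  obtain ⟨n38, t135⟩ : ∃ c, n21 * n29 = c := ⟨_, rfl⟩
  have t137 : n38 * (1 : Q) = n38 := Lp.mul_one' _
  obtain ⟨n39, t138⟩ : ∃ b, n5 * b = n38 := ⟨_, Lp.mul_ldiv _ _⟩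
  have t67 : n19 * (1 : Q) = n19 := Lp.mul_one' _
  have t141 : x * n39 = x := ufr hU (rt t67 (m3.symm) rfl rfl) (rt t103 rfl rfl (m3)) (rt t62 (m4.symm) rfl rfl) (rt t74 rfl rfl (m6.symm)) t13 (rt t77 rfl rfl ((m5.symm).trans (m4.symm))) t135 t138 (rt t103 (m4.trans (m5)) rfl rfl)
  have t142 : n39 * x = x := cm1 hx t141 rfl
  have m11 : (1 : Q) = n39 := ma t68 t142 (m3.symm) rfl
  have m12 : n38 = n5 := ma t137 t138 (m11) rfl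
  have t167 : g * n29 = n35 := ufr hU (rt t69 rfl (m6) rfl) t72 t163 t164 (rt t65 rfl (m3.symm) rfl) (rt t122 rfl rfl (m5.symm)) t13 (rt t135 rfl rfl (m12)) t125
  have m16 : n30 = n35 := mc t106 t167 rfl rfl
  have m17 : n36 = n31 := mb t128 t109 rfl (m16.symm)
  obtain ⟨n32, t112⟩ : ∃ c, X * n29 = c := ⟨_, rfl⟩
  have t114 : (1 : Q) * n32 = n32 := Lp.one_mul' _
  have t6 : X * x = (1 : Q) := inv2 hU t3
  have t116 : (1 : Q) * n31 = n32 := ufr hU (rt t68 rfl (m3.symm) rfl) t103 (rt t77 ((m5.symm).trans (m4.symm)) rfl rfl) (rt t65 rfl (m3.symm) (m5)) t0 t6 t106 t109 t112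
  have m8 : n32 = n31 := mb t114 t116 rfl rfl
  have t113 : n29 * X = n32 := cm1 hX t112 rfl
  have t140 : n39 * (1 : Q) = n39 := Lp.mul_one' _
  obtain ⟨n17, t57⟩ : ∃ b, g * b = x := ⟨_, Lp.mul_ldiv _ _⟩
  obtain ⟨n23, t79⟩ : ∃ a, a * n5 = x := ⟨_, Lp.div_mul' _ _⟩
  obtain ⟨n24, t82⟩ : ∃ c, n23 * n19 = c := ⟨_, rfl⟩
  have t86 : (1 : Q) * n17 = n24 := ufr hU (rt t78 rfl ((m5.symm).trans (m4.symm)) rfl) t65 (rt t65 rfl (m3.symm) rfl) (rt t78 rfl ((m5.symm).trans (m4.symm)) rfl) (rt t68 rfl (m3.symm) rfl) t79 t68 t57 t82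
  obtain ⟨n10, t31⟩ : ∃ a, a * g = x := ⟨_, Lp.div_mul' _ _⟩
  obtain ⟨n12, t37⟩ : ∃ c, n10 * X = c := ⟨_, rfl⟩
  have t38 : X * n10 = n12 := cm2 hX t37 rfl
  have t32 : (1 : Q) * n10 = n10 := Lp.one_mul' _
  have t33 : n10 * (1 : Q) = n10 := Lp.mul_one' _
  have t60 : (1 : Q) * n17 = n10 := ufr hU t7 t8 t14 t13 t1 t31 t2 t57 t33
  have m1 : n10 = n17 := mb t32 t60 rfl rfl
  obtain ⟨n13, t41⟩ : ∃ b, x * b = n12 := ⟨_, Lp.mul_ldiv _ _⟩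
  have t42 : n13 * x = n12 := cm1 hx t41 rfl
  have t81 : n23 * (1 : Q) = n23 := Lp.mul_one' _
  obtain ⟨n33, t117⟩ : ∃ c, n5 * x = c := ⟨_, rfl⟩
  have t118 : x * n5 = n33 := cm2 hx t117 rfl
  have t121 : (1 : Q) * n29 = n23 := ufr hU (rt t78 rfl ((m5.symm).trans (m4.symm)) rfl) (rt t77 ((m5.symm).trans (m4.symm)) rfl (m5.symm)) t117 t118 (rt t68 rfl (m3.symm) rfl) t79 (rt t67 (m3.symm) rfl rfl) (rt t103 rfl rfl (m3)) t81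
  have t97 : n27 * (1 : Q) = n27 := Lp.mul_one' _
  obtain ⟨n44, t157⟩ : ∃ c, n27 * X = c := ⟨_, rfl⟩
  obtain ⟨n43, t153⟩ : ∃ c, X * n8 = c := ⟨_, rfl⟩
  have t154 : n8 * X = n43 := cm1 hX t153 rfl
  obtain ⟨n40, t143⟩ : ∃ c, n8 * n9 = c := ⟨_, rfl⟩
  obtain ⟨n41, t146⟩ : ∃ a, a * n8 = n40 := ⟨_, Lp.div_mul' _ _⟩
  obtain ⟨n28, t98⟩ : ∃ c, n27 * n8 = c := ⟨_, rfl⟩
  have t30 : n9 * (1 : Q) = n9 := Lp.mul_one' _
  have t12 : G * g = (1 : Q) := inv2 hU t9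
  have t26 : (1 : Q) * n8 = n8 := Lp.one_mul' _
  have t25 : G * X = n8 := cm1 hX t24 rfl
  have t101 : n9 * X = n28 := ufr hU t30 t28 t12 t0 t95 t97 t26 t25 t98
  have t102 : X * n9 = n28 := cm2 hX t101 rfl
  obtain ⟨n25, t87⟩ : ∃ c, n8 * G = c := ⟨_, rfl⟩
  obtain ⟨n26, t90⟩ : ∃ c, n25 * X = c := ⟨_, rfl⟩
  obtain ⟨n42, t149⟩ : ∃ b, n8 * b = n41 := ⟨_, Lp.mul_ldiv _ _⟩
  have t10 : (1 : Q) * G = G := Lp.one_mul' _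
  have t27 : n8 * (1 : Q) = n8 := Lp.mul_one' _
  have t29 : (1 : Q) * n9 = n9 := Lp.one_mul' _
  have t148 : n41 * (1 : Q) = n41 := Lp.mul_one' _
  have t11 : G * (1 : Q) = G := Lp.mul_one' _
  have t152 : (1 : Q) * n42 = G := ufr hU t26 t27 t143 t146 t29 t28 t148 t149 t11
  have m13 : G = n42 := mb t10 t152 rfl rfl
  have m14 : n25 = n41 := mc t87 t149 rfl (m13)
  obtain ⟨n16, t53⟩ : ∃ c, G * G = c := ⟨_, rfl⟩
  obtain ⟨n11, t34⟩ : ∃ a, a * g = G := ⟨_, Lp.div_mul' _ _⟩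
  have t36 : n11 * (1 : Q) = n11 := Lp.mul_one' _
  have t35 : (1 : Q) * n11 = n11 := Lp.one_mul' _
  obtain ⟨n15, t50⟩ : ∃ b, g * b = G := ⟨_, Lp.mul_ldiv _ _⟩
  have t61 : (1 : Q) * n15 = n11 := ufr hU t7 t8 t9 t12 t10 t34 t11 t50 t36
  have m2 : n11 = n15 := mb t35 t61 rfl rfl
  have t54 : (1 : Q) * n16 = n16 := Lp.one_mul' _
  have t56 : (1 : Q) * n15 = n16 := ufr hU t0 t9 t9 t0 t10 t11 t10 t50 t53
  have m0 : n16 = n15 := mb t54 t56 rfl rfl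
  have t89 : n25 * (1 : Q) = n25 := Lp.mul_one' _
  obtain ⟨n14, t45⟩ : ∃ c, n11 * X = c := ⟨_, rfl⟩
  have t49 : G * n13 = n14 := ufr hU t12 t3 t2 t31 t11 t34 t37 t41 t45
  have t94 : n8 * n13 = n26 := ufr hU t27 t25 t53 (rt t36 rfl rfl (m2.trans (m0.symm))) t87 t89 t45 t49 t90
  have t161 : X * n13 = n44 := ufr hU t153 t154 t143 t146 t102 t98 (rt t90 (m14) rfl rfl) t94 t157
  have t162 : n13 * X = n44 := cm1 hX t161 rfl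
  have m15 : n27 = n13 := ma t157 t162 rfl rfl
  have t168 : X * n29 = n27 := ufr hU t6 (rt t140 (m11.symm) rfl (m11.symm)) t86 (rt t82 rfl (m3.symm) rfl) (rt t38 rfl (m1) rfl) t42 t81 t121 (rt t97 (m15) rfl rfl)
  have t169 : n29 * X = n27 := cm1 hX t168 rfl
  have m18 : n32 = n27 := mc t113 t169 rfl rfl
  have m19 : n7 = n9 := ma t131 t95 rfl (m10.trans (m17.trans ((m8.symm).trans (m18))))
  rw [t13, t17] at tw
  rw [t24, t28]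
  exact (mb tw t20 rfl rfl).trans m19

/-- if `c` commutes with all elements of a universally flexible loop, then
`(c y c)⁻¹ = c⁻¹ y⁻¹ c⁻¹` and `(y c y)⁻¹ = y⁻¹ c⁻¹ y⁻¹` for all `y` -/
theorem saip_commutant {Q : Type u} [Lp Q] (hU : UF Q) (c : Q) (hc : ∀ y : Q, c * y = y * c)
    (y : Q) : iv (c * (y * c)) = iv c * (iv y * iv c) ∧ iv (y * (c * y)) = iv y * (iv c * iv y) := by
  have h1 : ∀ a : Q, a * iv a = 1 := fun a => Lp.mul_ldiv a 1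
  have hc' : ∀ z : Q, iv c * z = z * iv c := inv_comm hU c (iv c) (h1 c) hc
  exact ⟨saip_outer hU c (iv c) y (iv y) _ (h1 c) (h1 y) (h1 _) hc hc',
    saip_inner hU y (iv y) c (iv c) _ (h1 y) (h1 c) (h1 _) hc hc'⟩

end H1UFC
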