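import Pool.Agent.H1.UFC.Rules

set_option autoImplicit false

/-!
# Universally flexible loops with nuclear squares
-/

namespace H1UFC

open H16UFL

universe u

/-- squares are in the left nucleus, as a closure rule -/
theorem nl {Q : Type u} [Lp Q] (hL : ∀ s a b : Q, ((s * s) * a) * b = (s * s) * (a * b))
    {s q a b c r d : Q} (h1 : s * s = q) (h2 : q * a = c) (h3 : c * b = r) (h4 : a * b = d) :
    q * d = r := by
  rw [← h4, ← h3, ← h2, ← h1, hL]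

/-- squares are in the middle nucleus, as a closure rule -/
theorem nm {Q : Type u} [Lp Q] (hM : ∀ s a b : Q, (a * (s * s)) * b = a * ((s * s) * b))
    {s q a b c r d : Q} (h1 : s * s = q) (h2 : a * q = c) (h3 : c * b = r) (h4 : q * b = d) :
    a * d = r := by
  rw [← h4, ← h3, ← h2, ← h1, hM]

theorem aaip_sq {Q : Type u} [Lp Q] (hU : UF Q)
    (hL : ∀ s a b : Q, ((s * s) * a) * b = (s * s) * (a * b))
    (hM : ∀ s a b : Q, (a * (s * s)) * b = a * ((s * s) * b))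
    (x X g G w : Q) (tx : x * X = 1) (tg : g * G = 1) (tw : (x * g) * w = 1) : w = G * X := by
  obtain ⟨n5, t13⟩ : ∃ c, x * g = c := ⟨_, rfl⟩
  obtain ⟨n6, t16⟩ : ∃ b, n5 * b = (1 : Q) := ⟨_, Lp.mul_ldiv _ _⟩
  have t9 : g * G = 1 := tg
  have t3 : x * X = 1 := tx
  obtain ⟨n7, t20⟩ : ∃ c, G * X = c := ⟨_, rfl⟩
  obtain ⟨n51, t175⟩ : ∃ c, x * n7 = c := ⟨_, rfl⟩
  obtain ⟨n52, t178⟩ : ∃ a, a * X = n51 := ⟨_, Lp.div_mul' _ _⟩
  obtain ⟨n33, t111⟩ : ∃ c, G * G = c := ⟨_, rfl⟩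
  obtain ⟨n42, t143⟩ : ∃ c, n33 * g = c := ⟨_, rfl⟩
  obtain ⟨n44, t150⟩ : ∃ c, n42 * G = c := ⟨_, rfl⟩
  obtain ⟨n49, t168⟩ : ∃ c, G * n44 = c := ⟨_, rfl⟩
  obtain ⟨n50, t171⟩ : ∃ c, n49 * g = c := ⟨_, rfl⟩
  obtain ⟨n265, t917⟩ : ∃ a, a * n52 = n50 := ⟨_, Lp.div_mul' _ _⟩
  obtain ⟨n291, t1011⟩ : ∃ c, n6 * n52 = c := ⟨_, rfl⟩
  have t152 : n44 * (1 : Q) = n44 := Lp.mul_one' _
  obtain ⟨n23, t76⟩ : ∃ c, g * g = c := ⟨_, rfl⟩
  obtain ⟨n30, t100⟩ : ∃ c, n23 * G = c := ⟨_, rfl⟩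
  obtain ⟨n32, t107⟩ : ∃ c, n30 * g = c := ⟨_, rfl⟩
  obtain ⟨n38, t129⟩ : ∃ c, G * n32 = c := ⟨_, rfl⟩
  obtain ⟨n39, t132⟩ : ∃ c, n38 * G = c := ⟨_, rfl⟩
  have t12 : G * g = (1 : Q) := inv2 hU t9
  have t109 : n32 * (1 : Q) = n32 := Lp.mul_one' _
  have t110 : n23 * (1 : Q) = n32 := nl hL t76 t100 t107 t12
  have m10 : n32 = n23 := ma t109 t110 rfl rfl
  have m11 : g = n30 := ma t76 t107 rfl (m10.symm)
  have t135 : G * n30 = n39 := nm hM (rt t107 (m11.symm) rfl rfl) t129 t132 (rt t100 (m10.symm) rfl rfl)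
  have m14 : (1 : Q) = n39 := mc t12 t135 rfl (m11)
  have m15 : g = n38 := ma t9 t132 rfl (m14)
  have t153 : n33 * n39 = n44 := nl hL t111 t143 t150 (rt t132 (m15.symm) rfl rfl)
  have m16 : n44 = n33 := ma t152 t153 (m14) rfl
  have m17 : G = n42 := ma t111 t150 rfl (m16.symm)
  have t174 : G * n42 = n50 := nm hM (rt t150 (m17.symm) rfl rfl) t168 t171 (rt t143 (m16.symm) rfl rfl)
  have m22 : n44 = n50 := mc t150 t174 (m17.symm) (m17)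
  obtain ⟨n45, t154⟩ : ∃ c, n44 * G = c := ⟨_, rfl⟩
  obtain ⟨n46, t157⟩ : ∃ c, n45 * g = c := ⟨_, rfl⟩
  have t159 : n46 * (1 : Q) = n46 := Lp.mul_one' _
  obtain ⟨n43, t146⟩ : ∃ c, n42 * g = c := ⟨_, rfl⟩
  have t160 : n44 * n43 = n46 := nl hL (rt t150 (m17.symm) rfl rfl) t154 t157 (rt t146 (m17.symm) rfl rfl)
  have m18 : n39 = n43 := mc t135 t146 (m17) (m11.symm)
  have m19 : n46 = n44 := ma t159 t160 (m14.trans (m18)) rfl
  obtain ⟨n296, t1028⟩ : ∃ a, a * g = n291 := ⟨_, Lp.div_mul' _ _⟩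
  obtain ⟨n36, t121⟩ : ∃ c, n6 * g = c := ⟨_, rfl⟩
  obtain ⟨n95, t322⟩ : ∃ b, G * b = n36 := ⟨_, Lp.mul_ldiv _ _⟩
  obtain ⟨n283, t980⟩ : ∃ c, n45 * n95 = c := ⟨_, rfl⟩
  obtain ⟨n297, t1031⟩ : ∃ c, n296 * n95 = c := ⟨_, rfl⟩
  obtain ⟨n47, t161⟩ : ∃ c, g * n44 = c := ⟨_, rfl⟩
  obtain ⟨n79, t270⟩ : ∃ b, g * b = n36 := ⟨_, Lp.mul_ldiv _ _⟩
  obtain ⟨n82, t279⟩ : ∃ c, n47 * n79 = c := ⟨_, rfl⟩
  obtain ⟨n55, t189⟩ : ∃ c, G * x = c := ⟨_, rfl⟩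
  obtain ⟨n161, t561⟩ : ∃ c, n55 * n50 = c := ⟨_, rfl⟩
  obtain ⟨n280, t969⟩ : ∃ c, n161 * n95 = c := ⟨_, rfl⟩
  obtain ⟨n281, t972⟩ : ∃ b, n55 * b = n280 := ⟨_, Lp.mul_ldiv _ _⟩
  obtain ⟨n57, t196⟩ : ∃ c, G * n5 = c := ⟨_, rfl⟩
  obtain ⟨n58, t199⟩ : ∃ a, a * g = n57 := ⟨_, Lp.div_mul' _ _⟩
  obtain ⟨n96, t325⟩ : ∃ c, n58 * n95 = c := ⟨_, rfl⟩
  obtain ⟨n97, t328⟩ : ∃ b, G * b = n96 := ⟨_, Lp.mul_ldiv _ _⟩
  have t19 : n6 * n5 = (1 : Q) := inv2 hU t16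
  obtain ⟨n48, t164⟩ : ∃ c, n47 * g = c := ⟨_, rfl⟩
  have t167 : g * n42 = n48 := nm hM (rt t150 (m17.symm) rfl rfl) t161 t164 (rt t143 (m16.symm) rfl rfl)
  have m20 : n39 = n48 := mc t132 t167 (m15.symm) (m17)
  have m21 : n42 = n47 := ma t146 t164 rfl ((m18.symm).trans (m20))
  have t331 : n6 * n97 = n36 := ufr hU t121 t322 t196 t199 t19 (rt t164 rfl rfl ((m20.symm).trans (m14.symm))) t325 t328 (rt t322 (m17.trans (m21)) rfl rfl)
  have m31 : g = n97 := mb t121 t331 rfl rfl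
  obtain ⟨n8, t23⟩ : ∃ c, x * x = c := ⟨_, rfl⟩
  obtain ⟨n11, t33⟩ : ∃ c, n8 * X = c := ⟨_, rfl⟩
  have t166 : n48 * (1 : Q) = n48 := Lp.mul_one' _
  have t14 : (1 : Q) * n5 = n5 := Lp.one_mul' _
  have t35 : n11 * (1 : Q) = n11 := Lp.mul_one' _
  obtain ⟨n12, t36⟩ : ∃ c, n11 * x = c := ⟨_, rfl⟩
  have t38 : n12 * (1 : Q) = n12 := Lp.mul_one' _
  have t6 : X * x = (1 : Q) := inv2 hU t3
  have t39 : n8 * (1 : Q) = n12 := nl hL t23 t33 t36 t6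
  have m1 : n12 = n8 := ma t38 t39 rfl rfl
  have m2 : x = n11 := ma t23 t36 rfl (m1.symm)
  have t34 : (1 : Q) * n11 = n11 := Lp.one_mul' _
  have t201 : n58 * (1 : Q) = n58 := Lp.mul_one' _
  have t202 : G * n11 = n58 := ufr hU (rt t164 ((m21.symm).trans (m17.symm)) rfl rfl) (rt t166 ((m20.symm).trans (m14.symm)) rfl rfl) t14 t13 t196 t199 (rt t35 (m2.symm) rfl rfl) t34 t201
  have m25 : n55 = n58 := mc t189 t202 rfl (m2)
  obtain ⟨n56, t192⟩ : ∃ c, n55 * n47 = c := ⟨_, rfl⟩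
  obtain ⟨n162, t564⟩ : ∃ c, n161 * g = c := ⟨_, rfl⟩
  have t567 : n55 * n42 = n162 := nm hM (rt t174 rfl (m17.symm) rfl) t561 t564 (rt t143 ((m16.symm).trans (m22)) rfl rfl)
  have m65 : n56 = n162 := mc t192 t567 rfl (m21.symm)
  have t983 : G * n281 = n283 := ufr hU (rt t328 rfl (m31.symm) rfl) (rt t325 (m25.symm) rfl rfl) (rt t192 rfl ((m21.symm).trans (m17.symm)) rfl) (rt t564 rfl rfl (m65.symm)) (rt t174 rfl (m17.symm) rfl) (rt t157 rfl rfl (m19.trans (m22))) t969 t972 t980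
  have t271 : (1 : Q) * n79 = n79 := Lp.one_mul' _
  obtain ⟨n53, t182⟩ : ∃ c, g * x = c := ⟨_, rfl⟩
  obtain ⟨n26, t86⟩ : ∃ c, n23 * g = c := ⟨_, rfl⟩
  obtain ⟨n73, t250⟩ : ∃ c, n26 * n44 = c := ⟨_, rfl⟩
  obtain ⟨n75, t257⟩ : ∃ a, a * x = n73 := ⟨_, Lp.div_mul' _ _⟩
  obtain ⟨n19, t62⟩ : ∃ c, x * n12 = c := ⟨_, rfl⟩
  obtain ⟨n20, t65⟩ : ∃ c, n19 * X = c := ⟨_, rfl⟩
  obtain ⟨n131, t450⟩ : ∃ c, n75 * n20 = c := ⟨_, rfl⟩
  obtain ⟨n62, t213⟩ : ∃ b, x * b = n38 := ⟨_, Lp.mul_ldiv _ _⟩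
  obtain ⟨n133, t457⟩ : ∃ c, n131 * n62 = c := ⟨_, rfl⟩
  obtain ⟨n270, t933⟩ : ∃ b, n53 * b = n133 := ⟨_, Lp.mul_ldiv _ _⟩
  obtain ⟨n273, t942⟩ : ∃ c, n33 * n270 = c := ⟨_, rfl⟩
  obtain ⟨n91, t309⟩ : ∃ a, a * x = n47 := ⟨_, Lp.div_mul' _ _⟩
  obtain ⟨n135, t464⟩ : ∃ c, n91 * n20 = c := ⟨_, rfl⟩
  obtain ⟨n92, t312⟩ : ∃ c, n91 * g = c := ⟨_, rfl⟩
  obtain ⟨n93, t315⟩ : ∃ b, G * b = n92 := ⟨_, Lp.mul_ldiv _ _⟩
  obtain ⟨n219, t761⟩ : ∃ a, a * n135 = n93 := ⟨_, Lp.div_mul' _ _⟩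
  obtain ⟨n216, t751⟩ : ∃ c, n135 * n135 = c := ⟨_, rfl⟩
  obtain ⟨n221, t767⟩ : ∃ c, n219 * n216 = c := ⟨_, rfl⟩
  have t769 : n221 * (1 : Q) = n221 := Lp.mul_one' _
  obtain ⟨n87, t296⟩ : ∃ a, a * X = n47 := ⟨_, Lp.div_mul' _ _⟩
  obtain ⟨n119, t408⟩ : ∃ c, n87 * n62 = c := ⟨_, rfl⟩
  obtain ⟨n220, t764⟩ : ∃ a, a * n135 = n119 := ⟨_, Lp.div_mul' _ _⟩
  obtain ⟨n222, t770⟩ : ∃ c, n220 * n216 = c := ⟨_, rfl⟩
  have t772 : n222 * (1 : Q) = n222 := Lp.mul_one' _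
  obtain ⟨n217, t754⟩ : ∃ a, a * n135 = n96 := ⟨_, Lp.div_mul' _ _⟩
  obtain ⟨n218, t757⟩ : ∃ c, n217 * n216 = c := ⟨_, rfl⟩
  have t752 : (1 : Q) * n216 = n216 := Lp.one_mul' _
  have t327 : n96 * (1 : Q) = n96 := Lp.mul_one' _
  have m32 : n48 = n96 := mc t164 t328 ((m21.symm).trans (m17.symm)) (m31)
  obtain ⟨n146, t506⟩ : ∃ c, n50 * n131 = c := ⟨_, rfl⟩
  have t508 : n146 * (1 : Q) = n146 := Lp.mul_one' _
  have t114 : n32 * n33 = (1 : Q) := nl hL (rt t107 (m11.symm) rfl rfl) (rt t100 (m10.symm) rfl rfl) (rt t9 (m11) rfl rfl) t111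
  have t451 : (1 : Q) * n131 = n131 := Lp.one_mul' _
  have t509 : n32 * n146 = n131 := nl hL (rt t107 (m11.symm) rfl rfl) (rt t114 rfl ((m16.symm).trans (m22)) rfl) t451 t506
  obtain ⟨n147, t510⟩ : ∃ c, n32 * n91 = c := ⟨_, rfl⟩
  obtain ⟨n106, t362⟩ : ∃ a, a * G = X := ⟨_, Lp.div_mul' _ _⟩
  obtain ⟨n109, t371⟩ : ∃ c, n20 * n106 = c := ⟨_, rfl⟩
  obtain ⟨n130, t446⟩ : ∃ c, n109 * G = c := ⟨_, rfl⟩
  obtain ⟨n132, t453⟩ : ∃ c, n131 * X = c := ⟨_, rfl⟩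
  have t68 : x * n11 = n20 := nm hM (rt t36 (m2.symm) rfl rfl) t62 t65 (rt t33 (m1.symm) rfl rfl)
  have t449 : n20 * X = n130 := nl hL (rt t68 rfl (m2.symm) rfl) t371 t446 t362
  have t456 : n75 * n130 = n132 := nm hM (rt t68 rfl (m2.symm) rfl) t450 t453 t449
  obtain ⟨n148, t513⟩ : ∃ c, n147 * x = c := ⟨_, rfl⟩
  obtain ⟨n13, t40⟩ : ∃ c, X * X = c := ⟨_, rfl⟩
  obtain ⟨n21, t69⟩ : ∃ c, n13 * x = c := ⟨_, rfl⟩
  obtain ⟨n68, t233⟩ : ∃ a, a * g = n21 := ⟨_, Lp.div_mul' _ _⟩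
  obtain ⟨n124, t426⟩ : ∃ c, n20 * n68 = c := ⟨_, rfl⟩
  obtain ⟨n125, t429⟩ : ∃ c, n124 * g = c := ⟨_, rfl⟩
  have t432 : n20 * n21 = n125 := nl hL (rt t68 rfl (m2.symm) rfl) t426 t429 t233
  obtain ⟨n22, t72⟩ : ∃ c, n21 * X = c := ⟨_, rfl⟩
  have t74 : n22 * (1 : Q) = n22 := Lp.mul_one' _
  have t75 : n13 * (1 : Q) = n22 := nl hL t40 t69 t72 t3
  have m6 : n22 = n13 := ma t74 t75 rfl rfl
  have m7 : X = n21 := ma t40 t72 rfl (m6.symm)
  have m46 : n125 = n130 := mc t432 t449 rfl (m7.symm)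
  have m4 : n12 = n20 := mc t36 t68 (m2.symm) (m2)
  have m43 : n11 = n125 := mc t33 t432 ((m1.symm).trans (m4)) (m7)
  have m49 : n73 = n132 := mc t257 t456 rfl (m2.trans (m43.trans (m46)))
  have t252 : n73 * (1 : Q) = n73 := Lp.mul_one' _
  obtain ⟨n74, t253⟩ : ∃ b, g * b = n73 := ⟨_, Lp.mul_ldiv _ _⟩
  have t162 : (1 : Q) * n47 = n47 := Lp.one_mul' _
  obtain ⟨n29, t96⟩ : ∃ c, n26 * G = c := ⟨_, rfl⟩
  have t98 : n29 * (1 : Q) = n29 := Lp.mul_one' _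
  have t99 : n23 * (1 : Q) = n29 := nl hL t76 t86 t96 t9
  have m9 : n29 = n23 := ma t98 t99 rfl rfl
  have t130 : (1 : Q) * n38 = n38 := Lp.one_mul' _
  have t256 : (1 : Q) * n74 = (1 : Q) := ufr hU (rt t162 rfl ((m21.symm).trans (m17.symm)) rfl) t161 (rt t107 (m11.symm) rfl rfl) (rt t96 rfl rfl (m9.trans (m10.symm))) (rt t130 rfl (m15.symm) rfl) (rt t100 rfl rfl ((m11.symm).trans (m15))) t250 t253 (rt t114 (m10) (m16.symm) rfl)
  have m29 : (1 : Q) = n74 := mb t166 t256 ((m20.symm).trans (m14.symm)) ((m20.symm).trans (m14.symm))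
  have m30 : n73 = g := ma t252 t253 (m29) rfl
  obtain ⟨n24, t79⟩ : ∃ c, n23 * x = c := ⟨_, rfl⟩
  obtain ⟨n64, t220⟩ : ∃ b, x * b = n47 := ⟨_, Lp.mul_ldiv _ _⟩
  obtain ⟨n143, t493⟩ : ∃ c, n24 * n64 = c := ⟨_, rfl⟩
  have t496 : n32 * n47 = n143 := nl hL (rt t107 (m11.symm) rfl rfl) (rt t79 (m10.symm) rfl rfl) t493 t220
  have m52 : n30 = n143 := mc t100 t496 (m10.symm) (m17.trans (m21))
  obtain ⟨n136, t467⟩ : ∃ c, n135 * X = c := ⟨_, rfl⟩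
  have t470 : n91 * n130 = n136 := nm hM (rt t68 rfl (m2.symm) rfl) t464 t467 t449
  have t516 : n32 * n136 = n148 := nl hL (rt t107 (m11.symm) rfl rfl) t510 t513 (rt t470 rfl ((m46.symm).trans ((m43.symm).trans (m2.symm))) rfl)
  have m50 : n47 = n136 := mc t309 t470 rfl (m2.trans (m43.trans (m46)))
  have m57 : n143 = n148 := mc t496 t516 rfl (m50)
  have m58 : n75 = n147 := ma t456 t513 ((m46.symm).trans ((m43.symm).trans (m2.symm))) ((m49.symm).trans (m30.trans (m11.trans (m52.trans (m57)))))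
  have t521 : n32 * n135 = n131 := nl hL (rt t107 (m11.symm) rfl rfl) t510 (rt t450 (m58) rfl rfl) t464
  have m60 : n146 = n135 := mb t509 t521 rfl rfl
  have t507 : (1 : Q) * n146 = n146 := Lp.one_mul' _
  have t758 : (1 : Q) * n218 = n218 := Lp.one_mul' _
  have t760 : n135 * n218 = n216 := ufr hU t751 t752 (rt t327 ((m32.symm).trans ((m20.symm).trans (m14.symm))) rfl rfl) t754 (rt t508 (m60) rfl rfl) (rt t507 rfl (m60) rfl) t757 t758 t752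
  have m68 : n135 = n218 := mb t751 t760 rfl rfl
  have t316 : (1 : Q) * n93 = n93 := Lp.one_mul' _
  obtain ⟨n94, t318⟩ : ∃ c, n13 * g = c := ⟨_, rfl⟩
  have t163 : n47 * (1 : Q) = n47 := Lp.mul_one' _
  have t71 : n21 * (1 : Q) = n21 := Lp.mul_one' _
  have t321 : X * n93 = n94 := ufr hU t6 (rt t164 ((m21.symm).trans (m17.symm)) rfl ((m20.symm).trans (m14.symm))) (rt t163 ((m21.symm).trans (m17.symm)) rfl rfl) t309 (rt t71 (m7.symm) rfl rfl) t69 t312 t315 t318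
  obtain ⟨n99, t336⟩ : ∃ c, X * n62 = c := ⟨_, rfl⟩
  have t339 : n20 * n99 = n38 := nl hL (rt t68 rfl (m2.symm) rfl) (rt t33 ((m1.symm).trans (m4)) rfl rfl) (rt t213 (m2) rfl rfl) t336
  have t43 : n12 * n13 = (1 : Q) := nl hL (rt t36 (m2.symm) rfl rfl) (rt t33 (m1.symm) rfl rfl) (rt t3 (m2) rfl rfl) t40
  have t329 : (1 : Q) * n97 = n97 := Lp.one_mul' _
  have t375 : n20 * n94 = n97 := nl hL (rt t68 rfl (m2.symm) rfl) (rt t43 (m4) (m6.symm) rfl) (rt t329 rfl (m31.symm) rfl) (rt t318 (m6.symm) rfl rfl)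
  have m37 : n99 = n94 := mb t339 t375 rfl ((m15.symm).trans (m31))
  have m38 : n93 = n62 := mb t321 t336 rfl (m37.symm)
  have m51 : n87 = n135 := ma t296 t467 rfl (m50)
  have t768 : (1 : Q) * n221 = n221 := Lp.one_mul' _
  have t773 : n135 * n221 = n222 := ufr hU (rt t760 rfl (m68.symm) rfl) t752 (rt t316 rfl (m38) rfl) t761 (rt t408 (m51) rfl rfl) t764 t767 t768 t770
  obtain ⟨n116, t398⟩ : ∃ c, n20 * n87 = c := ⟨_, rfl⟩
  obtain ⟨n118, t405⟩ : ∃ c, n116 * n62 = c := ⟨_, rfl⟩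
  have t407 : n118 * (1 : Q) = n118 := Lp.mul_one' _
  have t411 : n20 * n119 = n118 := nl hL (rt t68 rfl (m2.symm) rfl) t398 t405 t408
  obtain ⟨n195, t680⟩ : ∃ a, a * n62 = n20 := ⟨_, Lp.div_mul' _ _⟩
  obtain ⟨n117, t401⟩ : ∃ c, n116 * g = c := ⟨_, rfl⟩
  obtain ⟨n197, t686⟩ : ∃ c, n195 * n148 = c := ⟨_, rfl⟩
  obtain ⟨n88, t299⟩ : ∃ c, n87 * g = c := ⟨_, rfl⟩
  obtain ⟨n17, t55⟩ : ∃ c, n12 * G = c := ⟨_, rfl⟩
  obtain ⟨n101, t344⟩ : ∃ b, X * b = g := ⟨_, Lp.mul_ldiv _ _⟩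
  obtain ⟨n105, t358⟩ : ∃ c, n17 * n101 = c := ⟨_, rfl⟩
  obtain ⟨n89, t302⟩ : ∃ b, G * b = n88 := ⟨_, Lp.mul_ldiv _ _⟩
  obtain ⟨n90, t305⟩ : ∃ c, n8 * g = c := ⟨_, rfl⟩
  have t308 : x * n89 = n90 := ufr hU t3 (rt t164 ((m21.symm).trans (m17.symm)) rfl ((m20.symm).trans (m14.symm))) (rt t163 ((m21.symm).trans (m17.symm)) rfl rfl) t296 (rt t35 (m2.symm) rfl rfl) t33 t299 t302 t305
  obtain ⟨n102, t347⟩ : ∃ c, n11 * n101 = c := ⟨_, rfl⟩
  have t350 : n20 * g = n102 := nl hL (rt t68 rfl (m2.symm) rfl) (rt t33 ((m1.symm).trans (m4)) rfl rfl) t347 t344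
  have m34 : n90 = n102 := mc t305 t350 ((m1.symm).trans (m4)) rfl
  have m35 : n89 = n101 := mb t308 t347 (m2) (m34)
  have t361 : n20 * n88 = n105 := nl hL (rt t68 rfl (m2.symm) rfl) (rt t55 (m4) rfl rfl) t358 (rt t302 rfl (m35) rfl)
  have t404 : n20 * n88 = n117 := nl hL (rt t68 rfl (m2.symm) rfl) t398 t401 t299
  have m41 : n105 = n117 := mc t361 t404 rfl rfl
  obtain ⟨n238, t826⟩ : ∃ b, x * b = n105 := ⟨_, Lp.mul_ldiv _ _⟩
  obtain ⟨n194, t677⟩ : ∃ a, a * n62 = n130 := ⟨_, Lp.div_mul' _ _⟩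
  obtain ⟨n196, t683⟩ : ∃ c, n194 * n148 = c := ⟨_, rfl⟩
  have t514 : (1 : Q) * n148 = n148 := Lp.one_mul' _
  have t447 : (1 : Q) * n130 = n130 := Lp.one_mul' _
  have t684 : (1 : Q) * n196 = n196 := Lp.one_mul' _
  have t689 : x * n196 = n197 := ufr hU t213 (rt t514 rfl rfl ((m57.symm).trans ((m52.symm).trans ((m11.symm).trans (m15))))) (rt t447 rfl ((m46.symm).trans ((m43.symm).trans (m2.symm))) rfl) t677 (rt t68 rfl (m2.symm) rfl) t680 t683 t684 t686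
  obtain ⟨n110, t377⟩ : ∃ a, a * g = x := ⟨_, Lp.div_mul' _ _⟩
  obtain ⟨n123, t422⟩ : ∃ c, n110 * n101 = c := ⟨_, rfl⟩
  obtain ⟨n120, t412⟩ : ∃ c, n20 * n110 = c := ⟨_, rfl⟩
  obtain ⟨n122, t419⟩ : ∃ c, n120 * n101 = c := ⟨_, rfl⟩
  have t425 : n20 * n123 = n122 := nl hL (rt t68 rfl (m2.symm) rfl) t412 t419 t422
  obtain ⟨n18, t58⟩ : ∃ c, n17 * g = c := ⟨_, rfl⟩
  have t60 : n18 * (1 : Q) = n18 := Lp.mul_one' _
  have t61 : n12 * (1 : Q) = n18 := nl hL (rt t36 (m2.symm) rfl rfl) t55 t58 t12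
  have m3 : n18 = n12 := ma t60 t61 rfl rfl
  obtain ⟨n121, t415⟩ : ∃ c, n120 * g = c := ⟨_, rfl⟩
  have t418 : n20 * x = n121 := nl hL (rt t68 rfl (m2.symm) rfl) t412 t415 t377
  have t829 : n20 * n238 = n122 := ufr hU t350 (rt t308 rfl rfl (m34)) (rt t68 rfl (m2.symm) rfl) (rt t58 rfl rfl (m3.trans (m4))) t418 t415 (rt t358 rfl (m35.symm) rfl) t826 (rt t419 rfl (m35.symm) rfl)
  have m72 : n123 = n238 := mb t425 t829 rfl rfl
  obtain ⟨n257, t889⟩ : ∃ a, a * g = n123 := ⟨_, Lp.div_mul' _ _⟩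
  obtain ⟨n142, t489⟩ : ∃ c, n124 * x = c := ⟨_, rfl⟩
  obtain ⟨n236, t818⟩ : ∃ c, n142 * n62 = c := ⟨_, rfl⟩
  have t820 : n236 * (1 : Q) = n236 := Lp.mul_one' _
  obtain ⟨n237, t821⟩ : ∃ b, x * b = n236 := ⟨_, Lp.mul_ldiv _ _⟩
  have t515 : n148 * (1 : Q) = n148 := Lp.mul_one' _
  obtain ⟨n103, t351⟩ : ∃ b, g * b = x := ⟨_, Lp.mul_ldiv _ _⟩
  obtain ⟨n141, t485⟩ : ∃ c, x * n103 = c := ⟨_, rfl⟩
  have t491 : n142 * (1 : Q) = n142 := Lp.mul_one' _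
  obtain ⟨n69, t236⟩ : ∃ c, n68 * x = c := ⟨_, rfl⟩
  obtain ⟨n111, t380⟩ : ∃ c, n22 * n110 = c := ⟨_, rfl⟩
  have m44 : n110 = n124 := ma t377 t429 rfl (m2.trans (m43))
  have t378 : (1 : Q) * n110 = n110 := Lp.one_mul' _
  have t383 : n20 * n111 = n110 := nl hL (rt t68 rfl (m2.symm) rfl) (rt t43 (m4) (m6.symm) rfl) t378 t380
  have m45 : n111 = n68 := mb t383 t426 rfl (m44)
  have t492 : n22 * n142 = n69 := nl hL (rt t72 (m7.symm) rfl rfl) (rt t380 rfl (m44) rfl) (rt t236 (m45.symm) rfl rfl) t489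
  obtain ⟨n140, t482⟩ : ∃ c, n21 * n103 = c := ⟨_, rfl⟩
  have t488 : n22 * n141 = n140 := nl hL (rt t72 (m7.symm) rfl rfl) (rt t69 (m6.symm) rfl rfl) t482 t485
  obtain ⟨n70, t239⟩ : ∃ b, X * b = n69 := ⟨_, Lp.mul_ldiv _ _⟩
  obtain ⟨n40, t136⟩ : ∃ c, n33 * x = c := ⟨_, rfl⟩
  have t242 : G * n70 = n40 := ufr hU (rt t164 ((m21.symm).trans (m17.symm)) rfl rfl) (rt t6 rfl rfl (m14.trans (m20))) (rt t71 (m7.symm) rfl rfl) t233 (rt t163 ((m21.symm).trans (m17.symm)) rfl rfl) (rt t143 rfl rfl (m21)) t236 t239 t136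
  obtain ⟨n145, t501⟩ : ∃ c, G * n103 = c := ⟨_, rfl⟩
  have t504 : n32 * n145 = x := nl hL (rt t107 (m11.symm) rfl rfl) (rt t496 rfl ((m21.symm).trans (m17.symm)) rfl) (rt t351 (m11.trans (m52)) rfl rfl) t501
  have t505 : n32 * n40 = n130 := nl hL (rt t107 (m11.symm) rfl rfl) (rt t114 rfl ((m16.symm).trans (m22)) rfl) (rt t447 rfl ((m46.symm).trans ((m43.symm).trans (m2.symm))) rfl) (rt t136 ((m16.symm).trans (m22)) rfl rfl)
  have m53 : n145 = n40 := mb t504 t505 rfl (m2.trans (m43.trans (m46)))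
  have m54 : n70 = n103 := mb t242 t501 rfl (m53.symm)
  have m55 : n140 = n69 := mc t482 t239 (m7.symm) (m54.symm)
  have m56 : n142 = n141 := mb t492 t488 rfl (m55.symm)
  have t448 : n130 * (1 : Q) = n130 := Lp.mul_one' _
  have t824 : g * n237 = n38 := ufr hU (rt t515 ((m57.symm).trans ((m52.symm).trans (m11.symm))) rfl rfl) (rt t213 rfl rfl ((m15.symm).trans (m11.trans (m52.trans (m57))))) t485 (rt t491 rfl rfl (m56)) t351 (rt t448 rfl rfl ((m46.symm).trans ((m43.symm).trans (m2.symm)))) t818 t821 (rt t213 (m2.trans (m43.trans (m46))) rfl rfl)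
  have m69 : (1 : Q) = n237 := mb t515 t824 ((m57.symm).trans ((m52.symm).trans (m11.symm))) ((m57.symm).trans ((m52.symm).trans ((m11.symm).trans (m15))))
  have m70 : n236 = x := ma t820 t821 (m69) rfl
  have m71 : n194 = n142 := ma t677 t818 rfl ((m46.symm).trans ((m43.symm).trans ((m2.symm).trans (m70.symm))))
  have t67 : n20 * (1 : Q) = n20 := Lp.mul_one' _
  have t891 : n257 * (1 : Q) = n257 := Lp.mul_one' _
  have t892 : n124 * n11 = n257 := ufr hU t429 (rt t821 rfl rfl (m70.trans (m2.trans (m43)))) (rt t308 rfl (m35) rfl) (rt t350 rfl rfl (m34.symm)) (rt t422 (m44) rfl rfl) t889 (rt t67 rfl (m69) rfl) t68 (rt t891 rfl (m69) rfl)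
  have m80 : n142 = n257 := mc t489 t892 rfl (m2)
  have m81 : n196 = n123 := mc t683 t889 (m71.trans (m80)) ((m57.symm).trans ((m52.symm).trans (m11.symm)))
  have m82 : n105 = n197 := mc t826 t689 rfl ((m72.symm).trans (m81.symm))
  have m83 : n116 = n195 := ma t401 t686 (m11.trans (m52.trans (m57))) ((m41.symm).trans (m82))
  have m84 : n118 = n20 := mc t405 t680 (m83) rfl
  have m85 : (1 : Q) = n119 := mb t407 t411 (m84) rfl
  have m116 : n217 = n220 := ma t754 t764 rfl ((m32.symm).trans ((m20.symm).trans ((m14.symm).trans (m85))))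
  have m117 : n222 = n218 := mc t770 t757 (m116.symm) rfl
  have m118 : (1 : Q) = n221 := mb t772 t773 (m117.trans (m68.symm)) rfl
  have t563 : n161 * (1 : Q) = n161 := Lp.mul_one' _
  have t172 : (1 : Q) * n50 = n50 := Lp.one_mul' _
  have t173 : n50 * (1 : Q) = n50 := Lp.mul_one' _
  obtain ⟨n276, t952⟩ : ∃ c, G * n270 = c := ⟨_, rfl⟩
  have t953 : (1 : Q) * n276 = n276 := Lp.one_mul' _
  obtain ⟨n54, t185⟩ : ∃ c, n53 * n38 = c := ⟨_, rfl⟩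
  obtain ⟨n262, t907⟩ : ∃ a, a * n32 = n54 := ⟨_, Lp.div_mul' _ _⟩
  obtain ⟨n274, t946⟩ : ∃ c, n262 * n270 = c := ⟨_, rfl⟩
  obtain ⟨n275, t949⟩ : ∃ b, n53 * b = n274 := ⟨_, Lp.mul_ldiv _ _⟩
  have t458 : (1 : Q) * n133 = n133 := Lp.one_mul' _
  obtain ⟨n245, t850⟩ : ∃ a, a * n64 = (1 : Q) := ⟨_, Lp.div_mul' _ _⟩
  obtain ⟨n213, t741⟩ : ∃ c, n131 * n64 = c := ⟨_, rfl⟩
  obtain ⟨n244, t847⟩ : ∃ b, x * b = n213 := ⟨_, Lp.mul_ldiv _ _⟩
  obtain ⟨n246, t853⟩ : ∃ c, n245 * n244 = c := ⟨_, rfl⟩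
  obtain ⟨n247, t856⟩ : ∃ b, x * b = n246 := ⟨_, Lp.mul_ldiv _ _⟩
  obtain ⟨n248, t859⟩ : ∃ c, n24 * n244 = c := ⟨_, rfl⟩
  have t862 : n131 * n247 = n248 := ufr hU t741 t847 t3 t850 t453 (rt t493 rfl rfl ((m52.symm).trans ((m11.symm).trans ((m30.symm).trans (m49))))) t853 t856 t859
  obtain ⟨n249, t863⟩ : ∃ a, a * X = n119 := ⟨_, Lp.div_mul' _ _⟩
  obtain ⟨n251, t870⟩ : ∃ b, x * b = n119 := ⟨_, Lp.mul_ldiv _ _⟩
  have m86 : X = n251 := mb t3 t870 rfl (m85)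
  have m93 : n249 = x := ma t863 t870 (m86) rfl
  obtain ⟨n250, t866⟩ : ∃ c, n249 * n64 = c := ⟨_, rfl⟩
  have t869 : n135 * n244 = n250 := ufr hU t467 (rt t220 rfl rfl (m50)) t213 (rt t453 rfl rfl ((m49.symm).trans (m30.trans (m15)))) (rt t408 (m51) rfl rfl) t863 t741 t847 t866
  have m94 : n47 = n250 := mc t220 t866 (m93.symm) rfl
  have m95 : X = n244 := mb t467 t869 rfl ((m50.symm).trans (m94))
  have m97 : n119 = n213 := mc t863 t847 (m93) (m95)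
  have m100 : n245 = n131 := ma t850 t741 rfl (m85.trans (m97))
  have m101 : n132 = n246 := mc t453 t853 (m100.symm) (m95)
  have m102 : n62 = n247 := mb t213 t856 rfl ((m15.symm).trans ((m30.symm).trans (m49.trans (m101))))
  have m103 : n133 = n248 := mc t457 t862 rfl (m102)
  obtain ⟨n25, t82⟩ : ∃ c, n24 * X = c := ⟨_, rfl⟩
  have m96 : n25 = n248 := mc t82 t859 rfl (m95)
  have t84 : n25 * (1 : Q) = n25 := Lp.mul_one' _
  have t85 : n23 * (1 : Q) = n25 := nl hL t76 t79 t82 t3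
  have m8 : n25 = n23 := ma t84 t85 rfl rfl
  have t854 : (1 : Q) * n246 = n246 := Lp.one_mul' _
  have t955 : (1 : Q) * n275 = n276 := ufr hU (rt t458 rfl (m103.trans ((m96.symm).trans (m8.trans (m10.symm)))) rfl) t933 (rt t185 rfl (m15.symm) rfl) t907 (rt t854 rfl ((m101.symm).trans ((m49.symm).trans (m30))) rfl) (rt t129 rfl rfl ((m15.symm).trans ((m30.symm).trans (m49.trans (m101))))) t946 t949 t952
  have m128 : n276 = n275 := mb t953 t955 rfl rfl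
  obtain ⟨n34, t115⟩ : ∃ c, n32 * n6 = c := ⟨_, rfl⟩
  obtain ⟨n35, t118⟩ : ∃ c, n34 * g = c := ⟨_, rfl⟩
  have t124 : n32 * n36 = n35 := nl hL (rt t107 (m11.symm) rfl rfl) t115 t118 t121
  have t459 : n133 * (1 : Q) = n133 := Lp.mul_one' _
  obtain ⟨n71, t243⟩ : ∃ c, n53 * n42 = c := ⟨_, rfl⟩
  have t909 : n262 * (1 : Q) = n262 := Lp.mul_one' _
  obtain ⟨n263, t910⟩ : ∃ c, n262 * g = c := ⟨_, rfl⟩
  obtain ⟨n199, t693⟩ : ∃ c, n71 * n148 = c := ⟨_, rfl⟩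
  obtain ⟨n72, t246⟩ : ∃ b, g * b = n71 := ⟨_, Lp.mul_ldiv _ _⟩
  obtain ⟨n198, t690⟩ : ∃ c, n72 * n148 = c := ⟨_, rfl⟩
  have t184 : n53 * (1 : Q) = n53 := Lp.mul_one' _
  have t21 : (1 : Q) * n7 = n7 := Lp.one_mul' _
  have t180 : n52 * (1 : Q) = n52 := Lp.mul_one' _
  have t181 : x * n47 = n52 := ufr hU t3 (rt t166 ((m20.symm).trans (m14.symm)) rfl ((m20.symm).trans (m14.symm))) t21 t20 t175 t178 (rt t163 ((m21.symm).trans (m17.symm)) rfl rfl) t162 t180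
  have t249 : (1 : Q) * n72 = n52 := ufr hU (rt t166 ((m20.symm).trans (m14.symm)) rfl rfl) t167 t182 t184 (rt t34 rfl (m2.symm) rfl) t35 t243 t246 (rt t181 (m2) (m21.symm) rfl)
  have t179 : (1 : Q) * n52 = n52 := Lp.one_mul' _
  have m28 : n52 = n72 := mb t179 t249 rfl rfl
  have t248 : n72 * (1 : Q) = n72 := Lp.mul_one' _
  have t245 : n71 * (1 : Q) = n71 := Lp.mul_one' _
  have t691 : (1 : Q) * n198 = n198 := Lp.one_mul' _
  have t696 : g * n198 = n199 := ufr hU (rt t515 ((m57.symm).trans ((m52.symm).trans (m11.symm))) rfl rfl) t514 (rt t249 rfl (m28.symm) rfl) (rt t248 rfl rfl (m28.symm)) (rt t246 rfl (m28.symm) rfl) t245 t690 t691 t693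
  obtain ⟨n264, t913⟩ : ∃ b, g * b = n263 := ⟨_, Lp.mul_ldiv _ _⟩
  have t131 : n38 * (1 : Q) = n38 := Lp.mul_one' _
  have t188 : g * n5 = n54 := ufr hU (rt t131 (m15.symm) rfl rfl) t130 (rt t34 rfl (m2.symm) rfl) t35 t182 t184 (rt t13 (m2) (m15) rfl) t14 t185
  obtain ⟨n15, t48⟩ : ∃ c, n11 * G = c := ⟨_, rfl⟩
  obtain ⟨n114, t391⟩ : ∃ c, n15 * n32 = c := ⟨_, rfl⟩
  have t392 : (1 : Q) * n114 = n114 := Lp.one_mul' _
  obtain ⟨n14, t44⟩ : ∃ c, X * g = c := ⟨_, rfl⟩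
  have t47 : n12 * n14 = n5 := nl hL (rt t36 (m2.symm) rfl rfl) (rt t33 (m1.symm) rfl rfl) (rt t13 (m2) rfl rfl) t44
  obtain ⟨n16, t51⟩ : ∃ c, X * G = c := ⟨_, rfl⟩
  obtain ⟨n115, t394⟩ : ∃ c, n16 * n32 = c := ⟨_, rfl⟩
  have t54 : n12 * n16 = n15 := nl hL (rt t36 (m2.symm) rfl rfl) (rt t33 (m1.symm) rfl rfl) t48 t51
  have t397 : n20 * n115 = n114 := nl hL (rt t68 rfl (m2.symm) rfl) (rt t54 (m4) rfl rfl) t391 t394
  obtain ⟨n113, t387⟩ : ∃ c, n14 * n50 = c := ⟨_, rfl⟩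
  obtain ⟨n157, t546⟩ : ∃ c, n113 * n32 = c := ⟨_, rfl⟩
  have t548 : n157 * (1 : Q) = n157 := Lp.mul_one' _
  have t149 : n33 * n32 = n43 := nl hL t111 t143 t146 (rt t107 (m11.symm) rfl rfl)
  have t549 : n14 * n43 = n157 := nm hM (rt t174 rfl (m17.symm) rfl) t387 t546 (rt t149 ((m16.symm).trans (m22)) rfl rfl)
  have m62 : n157 = n14 := ma t548 t549 (m14.trans (m18)) rfl
  obtain ⟨n112, t384⟩ : ∃ c, n5 * n50 = c := ⟨_, rfl⟩
  have t390 : n20 * n113 = n112 := nl hL (rt t68 rfl (m2.symm) rfl) (rt t47 (m4) rfl rfl) t384 t387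
  have m24 : n15 = n52 := mc t48 t181 (m2.symm) (m17.trans (m21))
  obtain ⟨n239, t830⟩ : ∃ a, a * n50 = n52 := ⟨_, Lp.div_mul' _ _⟩
  obtain ⟨n240, t833⟩ : ∃ c, n239 * X = c := ⟨_, rfl⟩
  obtain ⟨n59, t203⟩ : ∃ c, n5 * X = c := ⟨_, rfl⟩
  obtain ⟨n60, t206⟩ : ∃ b, x * b = n59 := ⟨_, Lp.mul_ldiv _ _⟩
  obtain ⟨n241, t836⟩ : ∃ b, x * b = n240 := ⟨_, Lp.mul_ldiv _ _⟩
  obtain ⟨n28, t92⟩ : ∃ c, g * X = c := ⟨_, rfl⟩
  have t93 : (1 : Q) * n28 = n28 := Lp.one_mul' _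
  have t15 : n5 * (1 : Q) = n5 := Lp.mul_one' _
  have t209 : (1 : Q) * n60 = n28 := ufr hU (rt t166 ((m20.symm).trans (m14.symm)) rfl rfl) (rt t3 rfl rfl (m14.trans (m20))) t13 t15 (rt t130 rfl (m15.symm) rfl) t131 t203 t206 (rt t92 (m15) rfl rfl)
  have m26 : n28 = n60 := mb t93 t209 rfl rfl
  obtain ⟨n27, t89⟩ : ∃ c, n26 * X = c := ⟨_, rfl⟩
  have t95 : n23 * n28 = n27 := nl hL t76 t86 t89 t92
  have t839 : n32 * n241 = n27 := ufr hU (rt t114 rfl ((m16.symm).trans (m22)) rfl) t3 (rt t181 rfl ((m21.symm).trans (m17.symm)) rfl) t830 (rt t516 rfl ((m50.symm).trans ((m21.symm).trans (m17.symm))) rfl) (rt t250 rfl (m22) (m30.trans (m11.trans (m52.trans (m57))))) t833 t836 t89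
  have m73 : n28 = n241 := mb t95 t839 (m10.symm) rfl
  have m74 : n59 = n240 := mc t206 t836 rfl ((m26.symm).trans (m73))
  have m75 : n239 = n5 := ma t833 t203 rfl (m74.symm)
  have m76 : n112 = n52 := mc t384 t830 (m75.symm) rfl
  have m77 : n16 = n113 := mb t54 t390 (m4) (m24.trans (m76.symm))
  have m78 : n157 = n115 := mc t546 t394 (m77.symm) rfl
  have m79 : n5 = n114 := mc t47 t397 (m4) ((m62.symm).trans (m78))
  have t916 : (1 : Q) * n264 = n198 := ufr hU (rt t458 rfl (m103.trans ((m96.symm).trans (m8.trans (m10.symm)))) rfl) (rt t107 (m11.symm) rfl (m10.trans ((m8.symm).trans (m96.trans (m103.symm))))) t188 t907 (rt t392 rfl (m79.symm) rfl) t391 t910 t913 (rt t690 ((m28.symm).trans (m24.symm)) ((m57.symm).trans ((m52.symm).trans (m11.symm))) rfl)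
  have m124 : n198 = n264 := mb t691 t916 rfl rfl
  have m125 : n199 = n263 := mc t696 t913 rfl (m124)
  have m126 : n262 = n71 := ma t910 t693 (m11.trans (m52.trans (m57))) (m125.symm)
  have t855 : n246 * (1 : Q) = n246 := Lp.mul_one' _
  obtain ⟨n37, t125⟩ : ∃ c, n34 * n5 = c := ⟨_, rfl⟩
  have t127 : n37 * (1 : Q) = n37 := Lp.mul_one' _
  have t128 : n32 * (1 : Q) = n37 := nl hL (rt t107 (m11.symm) rfl rfl) t115 t125 t19
  have m13 : n37 = n32 := ma t127 t128 rfl rfl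
  have t957 : g * n270 = n35 := ufr hU t188 t185 (rt t185 rfl (m15.symm) rfl) t188 (rt t107 (m11.symm) rfl rfl) (rt t125 rfl rfl (m13)) (rt t107 (m11.symm) (m15) rfl) (rt t933 rfl rfl (m103.trans ((m96.symm).trans (m8.trans (m10.symm))))) (rt t118 rfl (m15) rfl)
  have t958 : n32 * n275 = n35 := ufr hU (rt t459 (m103.trans ((m96.symm).trans (m8.trans (m10.symm)))) rfl rfl) t933 (rt t243 rfl (m17.symm) rfl) (rt t909 rfl rfl (m126)) (rt t516 rfl ((m50.symm).trans ((m21.symm).trans (m17.symm))) rfl) (rt t855 rfl rfl ((m101.symm).trans ((m49.symm).trans (m30.trans (m11.trans (m52.trans (m57))))))) t946 t949 (rt t957 ((m30.symm).trans (m49.trans (m101))) rfl rfl)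
  have m129 : n36 = n275 := mb t124 t958 rfl rfl
  have m130 : n270 = n95 := mb t952 t322 rfl (m128.trans (m129.symm))
  have t975 : (1 : Q) * n281 = n273 := ufr hU (rt t769 (m118.symm) rfl rfl) (rt t325 (m25.symm) rfl ((m32.symm).trans ((m20.symm).trans ((m14.symm).trans (m118))))) t561 t563 t172 t173 t969 t972 (rt t942 ((m16.symm).trans (m22)) (m130) rfl)
  obtain ⟨n158, t550⟩ : ∃ c, n53 * n50 = c := ⟨_, rfl⟩
  obtain ⟨n271, t936⟩ : ∃ c, n158 * n270 = c := ⟨_, rfl⟩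
  obtain ⟨n272, t939⟩ : ∃ b, n53 * b = n271 := ⟨_, Lp.mul_ldiv _ _⟩
  obtain ⟨n159, t553⟩ : ∃ c, n158 * g = c := ⟨_, rfl⟩
  have t556 : n53 * n42 = n159 := nm hM (rt t174 rfl (m17.symm) rfl) t550 t553 (rt t143 ((m16.symm).trans (m22)) rfl rfl)
  have m63 : n71 = n159 := mc t243 t556 rfl rfl
  have t956 : g * n272 = n276 := ufr hU (rt t107 (m11.symm) rfl rfl) (rt t933 rfl rfl (m103.trans ((m96.symm).trans (m8.trans (m10.symm))))) (rt t243 rfl (m17.symm) rfl) (rt t553 rfl rfl (m63.symm)) (rt t167 rfl (m17.symm) rfl) (rt t328 rfl (m31.symm) (m32.symm)) t936 t939 t952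
  have m131 : n272 = n79 := mb t956 t270 rfl (m128.trans (m129.symm))
  have t943 : (1 : Q) * n273 = n273 := Lp.one_mul' _
  obtain ⟨n160, t557⟩ : ∃ c, n158 * n32 = c := ⟨_, rfl⟩
  have t560 : n53 * n43 = n160 := nm hM (rt t174 rfl (m17.symm) rfl) t550 t557 (rt t149 ((m16.symm).trans (m22)) rfl rfl)
  have t945 : (1 : Q) * n272 = n273 := ufr hU (rt t458 rfl (m103.trans ((m96.symm).trans (m8.trans (m10.symm)))) rfl) t933 (rt t560 rfl ((m18.symm).trans (m14.symm)) rfl) t557 (rt t769 (m118.symm) rfl rfl) (rt t149 rfl rfl ((m18.symm).trans ((m14.symm).trans (m118)))) t936 t939 t942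
  have m127 : n273 = n272 := mb t943 t945 rfl rfl
  have m133 : n79 = n281 := mb t271 t975 rfl ((m131.symm).trans (m127.symm))
  have m135 : n82 = n283 := mc t279 t983 ((m21.symm).trans (m17.symm)) (m133)
  obtain ⟨n80, t273⟩ : ∃ c, n53 * n79 = c := ⟨_, rfl⟩
  obtain ⟨n81, t276⟩ : ∃ b, g * b = n80 := ⟨_, Lp.mul_ldiv _ _⟩
  have t282 : n6 * n81 = n82 := ufr hU t121 t270 t188 (rt t185 rfl (m15.symm) rfl) t19 (rt t164 rfl rfl ((m20.symm).trans (m14.symm))) t273 t276 t279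
  have t191 : n55 * (1 : Q) = n55 := Lp.mul_one' _
  have t195 : G * n52 = n56 := ufr hU (rt t163 ((m21.symm).trans (m17.symm)) rfl rfl) t162 (rt t34 rfl (m2.symm) rfl) t35 t189 t191 (rt t181 (m2) rfl rfl) t179 t192
  obtain ⟨n282, t976⟩ : ∃ a, a * n55 = n221 := ⟨_, Lp.div_mul' _ _⟩
  have t977 : (1 : Q) * n282 = n282 := Lp.one_mul' _
  have t190 : (1 : Q) * n55 = n55 := Lp.one_mul' _
  have t978 : n282 * (1 : Q) = n282 := Lp.mul_one' _
  have t979 : (1 : Q) * n95 = n282 := ufr hU t190 t191 t191 t190 (rt t769 (m118.symm) rfl rfl) t976 (rt t769 (m118.symm) rfl rfl) (rt t325 (m25.symm) rfl ((m32.symm).trans ((m20.symm).trans ((m14.symm).trans (m118))))) t978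
  have m134 : n282 = n95 := mb t977 t979 rfl rfl
  have m132 : n271 = n80 := mc t939 t273 rfl (m131)
  have t1027 : G * n81 = n280 := ufr hU (rt t322 rfl (m134.symm) rfl) t270 (rt t107 (m11.symm) rfl rfl) (rt t933 rfl (m130.trans (m134.symm)) (m103.trans ((m96.symm).trans (m8.trans (m10.symm))))) (rt t328 rfl (m31.symm) rfl) (rt t325 rfl (m134.symm) rfl) (rt t939 rfl (m131) rfl) (rt t276 rfl rfl (m132.symm)) (rt t972 (m25) (m133.symm) rfl)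
  have t1034 : n6 * n81 = n297 := ufr hU (rt t331 rfl (m31.symm) rfl) t322 t195 (rt t564 rfl rfl (m65.symm)) t1011 t1028 t969 t1027 t1031
  have m176 : n82 = n297 := mc t282 t1034 rfl rfl
  have m177 : n45 = n296 := ma t980 t1031 rfl ((m135.symm).trans (m176))
  have m178 : n46 = n291 := mc t157 t1028 (m177) rfl
  have m179 : n265 = n6 := ma t917 t1011 rfl ((m22.symm).trans ((m19.symm).trans (m178)))
  obtain ⟨n206, t717⟩ : ∃ c, n70 * n136 = c := ⟨_, rfl⟩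
  obtain ⟨n267, t923⟩ : ∃ c, n265 * n206 = c := ⟨_, rfl⟩
  obtain ⟨n182, t634⟩ : ∃ c, n103 * n103 = c := ⟨_, rfl⟩
  obtain ⟨n186, t649⟩ : ∃ c, n182 * n106 = c := ⟨_, rfl⟩
  obtain ⟨n187, t652⟩ : ∃ c, n186 * G = c := ⟨_, rfl⟩
  obtain ⟨n289, t1003⟩ : ∃ c, n7 * n187 = c := ⟨_, rfl⟩
  obtain ⟨n166, t579⟩ : ∃ c, n106 * n106 = c := ⟨_, rfl⟩
  obtain ⟨n176, t614⟩ : ∃ c, n166 * n103 = c := ⟨_, rfl⟩
  obtain ⟨n181, t631⟩ : ∃ c, n176 * n103 = c := ⟨_, rfl⟩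
  obtain ⟨n188, t656⟩ : ∃ c, n106 * n182 = c := ⟨_, rfl⟩
  obtain ⟨n189, t659⟩ : ∃ c, n188 * n106 = c := ⟨_, rfl⟩
  have t662 : n106 * n186 = n189 := nm hM t634 t656 t659 t649
  obtain ⟨n228, t790⟩ : ∃ a, a * n103 = n106 := ⟨_, Lp.div_mul' _ _⟩
  obtain ⟨n227, t787⟩ : ∃ a, a * n103 = n96 := ⟨_, Lp.div_mul' _ _⟩
  obtain ⟨n165, t575⟩ : ∃ c, n106 * n103 = c := ⟨_, rfl⟩
  obtain ⟨n229, t793⟩ : ∃ c, n227 * n165 = c := ⟨_, rfl⟩
  obtain ⟨n230, t796⟩ : ∃ c, n228 * n165 = c := ⟨_, rfl⟩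
  have t576 : (1 : Q) * n165 = n165 := Lp.one_mul' _
  have t364 : n106 * (1 : Q) = n106 := Lp.mul_one' _
  have t794 : (1 : Q) * n229 = n229 := Lp.one_mul' _
  have t799 : n106 * n229 = n230 := ufr hU t575 t576 (rt t327 ((m32.symm).trans ((m20.symm).trans (m14.symm))) rfl rfl) t787 t364 t790 t793 t794 t796
  obtain ⟨n107, t365⟩ : ∃ c, n20 * n20 = c := ⟨_, rfl⟩
  have t367 : n107 * (1 : Q) = n107 := Lp.mul_one' _
  obtain ⟨n126, t433⟩ : ∃ a, a * G = x := ⟨_, Lp.div_mul' _ _⟩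
  obtain ⟨n127, t436⟩ : ∃ c, n20 * n126 = c := ⟨_, rfl⟩
  obtain ⟨n128, t439⟩ : ∃ c, n127 * n103 = c := ⟨_, rfl⟩
  obtain ⟨n108, t368⟩ : ∃ c, n107 * n106 = c := ⟨_, rfl⟩
  have t374 : n20 * n109 = n108 := nl hL (rt t68 rfl (m2.symm) rfl) t365 t368 t371
  have m47 : n126 = n109 := ma t433 t446 rfl (m2.trans (m43.trans (m46)))
  have m48 : n108 = n127 := mc t374 t436 rfl (m47.symm)
  have t578 : n107 * n165 = n128 := nl hL t365 t368 (rt t439 (m48.symm) rfl rfl) t575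
  obtain ⟨n129, t442⟩ : ∃ c, n126 * n103 = c := ⟨_, rfl⟩
  have t445 : n20 * n129 = n128 := nl hL (rt t68 rfl (m2.symm) rfl) t436 t439 t442
  obtain ⟨n201, t701⟩ : ∃ a, a * n103 = n20 := ⟨_, Lp.div_mul' _ _⟩
  obtain ⟨n204, t710⟩ : ∃ c, n201 * n130 = c := ⟨_, rfl⟩
  obtain ⟨n152, t528⟩ : ∃ c, n126 * x = c := ⟨_, rfl⟩
  obtain ⟨n202, t704⟩ : ∃ c, g * n20 = c := ⟨_, rfl⟩
  obtain ⟨n203, t707⟩ : ∃ a, a * n103 = n202 := ⟨_, Lp.div_mul' _ _⟩
  obtain ⟨n205, t713⟩ : ∃ c, n203 * n130 = c := ⟨_, rfl⟩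
  have t66 : (1 : Q) * n20 = n20 := Lp.one_mul' _
  have t711 : (1 : Q) * n204 = n204 := Lp.one_mul' _
  have t716 : g * n204 = n205 := ufr hU t351 (rt t447 rfl rfl ((m46.symm).trans ((m43.symm).trans (m2.symm)))) t66 t701 t704 t707 t710 t711 t713
  obtain ⟨n150, t522⟩ : ∃ c, n32 * n126 = c := ⟨_, rfl⟩
  obtain ⟨n153, t532⟩ : ∃ c, n150 * G = c := ⟨_, rfl⟩
  obtain ⟨n284, t984⟩ : ∃ b, n147 * b = n153 := ⟨_, Lp.mul_ldiv _ _⟩
  obtain ⟨n134, t460⟩ : ∃ c, n20 * n62 = c := ⟨_, rfl⟩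
  have t463 : n75 * n134 = n133 := nm hM (rt t68 rfl (m2.symm) rfl) t450 t457 t460
  obtain ⟨n252, t873⟩ : ∃ c, n135 * n101 = c := ⟨_, rfl⟩
  obtain ⟨n137, t471⟩ : ∃ c, n135 * n20 = c := ⟨_, rfl⟩
  obtain ⟨n139, t478⟩ : ∃ c, n137 * n62 = c := ⟨_, rfl⟩
  have t481 : n135 * n134 = n139 := nm hM (rt t68 rfl (m2.symm) rfl) t471 t478 t460
  obtain ⟨n253, t876⟩ : ∃ a, a * n62 = n252 := ⟨_, Lp.div_mul' _ _⟩
  obtain ⟨n256, t885⟩ : ∃ c, n253 * n251 = c := ⟨_, rfl⟩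
  obtain ⟨n138, t474⟩ : ∃ c, n137 * X = c := ⟨_, rfl⟩
  have t477 : n135 * n130 = n138 := nm hM (rt t68 rfl (m2.symm) rfl) t471 t474 t449
  obtain ⟨n9, t26⟩ : ∃ c, n8 * x = c := ⟨_, rfl⟩
  obtain ⟨n254, t879⟩ : ∃ c, n9 * n251 = c := ⟨_, rfl⟩
  obtain ⟨n255, t882⟩ : ∃ b, x * b = n254 := ⟨_, Lp.mul_ldiv _ _⟩
  obtain ⟨n98, t332⟩ : ∃ c, n9 * n62 = c := ⟨_, rfl⟩
  have t335 : n20 * n38 = n98 := nl hL (rt t68 rfl (m2.symm) rfl) (rt t26 ((m1.symm).trans (m4)) rfl rfl) t332 t213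
  have m33 : n90 = n98 := mc t305 t335 ((m1.symm).trans (m4)) (m15)
  have t888 : n135 * n255 = n256 := ufr hU (rt t408 (m51) rfl rfl) t870 (rt t308 rfl (m35) rfl) (rt t332 rfl rfl (m33.symm)) t873 t876 t879 t882 t885
  obtain ⟨n10, t29⟩ : ∃ c, n9 * X = c := ⟨_, rfl⟩
  have t31 : n10 * (1 : Q) = n10 := Lp.mul_one' _
  have t32 : n8 * (1 : Q) = n10 := nl hL t23 t26 t29 t3
  have m0 : n10 = n8 := ma t31 t32 rfl rfl
  have m87 : n10 = n254 := mc t29 t879 rfl (m86)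
  have m88 : n11 = n255 := mb t68 t882 rfl ((m4.symm).trans (m1.trans ((m0.symm).trans (m87))))
  have m89 : n138 = n256 := mc t477 t888 rfl ((m46.symm).trans ((m43.symm).trans (m88)))
  have m90 : n253 = n137 := ma t885 t474 (m86.symm) (m89.symm)
  have m91 : n139 = n252 := mc t478 t876 (m90.symm) rfl
  have m92 : n101 = n134 := mb t873 t481 rfl (m91.symm)
  obtain ⟨n104, t354⟩ : ∃ c, n102 * n103 = c := ⟨_, rfl⟩
  have t357 : n20 * x = n104 := nl hL (rt t68 rfl (m2.symm) rfl) t350 t354 t351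
  have m36 : n9 = n104 := mc t26 t357 ((m1.symm).trans (m4)) rfl
  have m5 : n9 = n19 := ma t29 t65 rfl (m0.trans ((m1.symm).trans (m4)))
  have t349 : n102 * (1 : Q) = n102 := Lp.mul_one' _
  have t709 : n203 * (1 : Q) = n203 := Lp.mul_one' _
  have t825 : g * n89 = n203 := ufr hU t351 (rt t821 rfl rfl (m70)) (rt t62 rfl (m4) rfl) (rt t354 rfl rfl ((m36.symm).trans (m5))) t704 t707 (rt t349 rfl (m69) rfl) (rt t308 rfl rfl (m34)) (rt t709 rfl (m69) rfl)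
  have t535 : n32 * x = n153 := nl hL (rt t107 (m11.symm) rfl rfl) t522 t532 t433
  have t987 : g * n284 = n205 := ufr hU (rt t855 ((m101.symm).trans ((m49.symm).trans (m30))) rfl rfl) (rt t513 rfl rfl ((m57.symm).trans ((m52.symm).trans ((m11.symm).trans ((m30.symm).trans (m49.trans (m101))))))) (rt t463 (m58) (m92.symm) rfl) t459 (rt t825 rfl (m35) rfl) t709 (rt t535 (m10.trans ((m8.symm).trans (m96.trans (m103.symm)))) rfl rfl) t984 (rt t713 rfl ((m46.symm).trans ((m43.symm).trans (m2.symm))) rfl)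
  have m136 : n204 = n284 := mb t716 t987 rfl rfl
  obtain ⟨n151, t525⟩ : ∃ c, n150 * x = c := ⟨_, rfl⟩
  have t531 : n32 * n152 = n151 := nl hL (rt t107 (m11.symm) rfl rfl) t522 t525 t528
  have t988 : n32 * n284 = n151 := ufr hU (rt t516 rfl ((m50.symm).trans ((m21.symm).trans (m17.symm))) rfl) t513 t513 (rt t516 rfl ((m50.symm).trans ((m21.symm).trans (m17.symm))) rfl) t535 t532 t535 t984 t525
  have m137 : n152 = n284 := mb t531 t988 rfl rfl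
  have m138 : n201 = n126 := ma t710 t528 ((m46.symm).trans ((m43.symm).trans (m2.symm))) (m136.trans (m137.symm))
  have m139 : n129 = n20 := mc t442 t701 (m138.symm) rfl
  have m140 : n107 = n128 := mc t365 t445 rfl (m139.symm)
  have m141 : (1 : Q) = n165 := mb t367 t578 rfl (m140)
  have m150 : n227 = n106 := ma t787 t575 rfl ((m32.symm).trans ((m20.symm).trans ((m14.symm).trans (m141))))
  have t795 : n229 * (1 : Q) = n229 := Lp.mul_one' _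
  have m147 : n229 = n227 := ma t795 t793 (m141) rfl
  have m151 : n166 = n230 := mc t579 t799 rfl ((m150.symm).trans (m147.symm))
  have t798 : n230 * (1 : Q) = n230 := Lp.mul_one' _
  have m146 : n230 = n228 := ma t798 t796 (m141) rfl
  have m159 : n176 = n106 := mc t614 t790 (m151.trans (m146)) rfl
  have m160 : n96 = n181 := mc t787 t631 (m150.trans (m159.symm)) rfl
  obtain ⟨n177, t617⟩ : ∃ c, n176 * n106 = c := ⟨_, rfl⟩
  have t619 : n177 * (1 : Q) = n177 := Lp.mul_one' _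
  obtain ⟨n178, t620⟩ : ∃ c, n103 * n106 = c := ⟨_, rfl⟩
  have t623 : n166 * n178 = n177 := nl hL t579 t614 t617 t620
  have m170 : n230 = n177 := mc t799 t617 (m159.symm) (m147.trans (m150))
  have m171 : (1 : Q) = n178 := mb t619 t623 ((m170.symm).trans (m151.symm)) rfl
  obtain ⟨n190, t663⟩ : ∃ c, n188 * n62 = c := ⟨_, rfl⟩
  obtain ⟨n180, t627⟩ : ∃ c, n103 * n62 = c := ⟨_, rfl⟩
  obtain ⟨n174, t606⟩ : ∃ c, n106 * n135 = c := ⟨_, rfl⟩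
  obtain ⟨n191, t666⟩ : ∃ c, n182 * n62 = c := ⟨_, rfl⟩
  have t669 : n106 * n191 = n190 := nm hM t634 t656 t663 t666
  obtain ⟨n224, t777⟩ : ∃ a, a * n62 = n218 := ⟨_, Lp.div_mul' _ _⟩
  obtain ⟨n226, t783⟩ : ∃ c, n224 * n119 = c := ⟨_, rfl⟩
  have t785 : n226 * (1 : Q) = n226 := Lp.mul_one' _
  have m114 : n226 = n224 := ma t785 t783 (m85) rfl
  obtain ⟨n223, t774⟩ : ∃ a, a * n62 = n96 := ⟨_, Lp.div_mul' _ _⟩
  obtain ⟨n225, t780⟩ : ∃ c, n223 * n119 = c := ⟨_, rfl⟩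
  have t409 : (1 : Q) * n119 = n119 := Lp.one_mul' _
  have t759 : n218 * (1 : Q) = n218 := Lp.mul_one' _
  have t781 : (1 : Q) * n225 = n225 := Lp.one_mul' _
  have t786 : n135 * n225 = n226 := ufr hU (rt t408 (m51) rfl rfl) t409 (rt t327 ((m32.symm).trans ((m20.symm).trans (m14.symm))) rfl rfl) t774 (rt t759 (m68.symm) rfl rfl) t777 t780 t781 t783
  have m119 : n223 = n87 := ma t774 t408 rfl ((m32.symm).trans ((m20.symm).trans ((m14.symm).trans (m85))))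
  have t782 : n225 * (1 : Q) = n225 := Lp.mul_one' _
  have m115 : n225 = n223 := ma t782 t780 (m85) rfl
  have m120 : n216 = n226 := mc t760 t786 rfl ((m68.symm).trans ((m51.symm).trans ((m119.symm).trans (m115.symm))))
  have t637 : n166 * n182 = n181 := nl hL t579 t614 t631 t634
  obtain ⟨n169, t589⟩ : ∃ c, n166 * n135 = c := ⟨_, rfl⟩
  obtain ⟨n156, t542⟩ : ∃ c, n62 * X = c := ⟨_, rfl⟩
  obtain ⟨n170, t592⟩ : ∃ c, n169 * X = c := ⟨_, rfl⟩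
  obtain ⟨n154, t536⟩ : ∃ c, n32 * n62 = c := ⟨_, rfl⟩
  obtain ⟨n155, t539⟩ : ∃ c, n154 * X = c := ⟨_, rfl⟩
  have t545 : n32 * n156 = n155 := nl hL (rt t107 (m11.symm) rfl rfl) t536 t539 t542
  obtain ⟨n242, t840⟩ : ∃ b, x * b = n28 := ⟨_, Lp.mul_ldiv _ _⟩
  obtain ⟨n208, t724⟩ : ∃ c, n32 * n64 = c := ⟨_, rfl⟩
  obtain ⟨n209, t727⟩ : ∃ a, a * n50 = n208 := ⟨_, Lp.div_mul' _ _⟩
  obtain ⟨n243, t843⟩ : ∃ c, n209 * X = c := ⟨_, rfl⟩
  have t846 : n32 * n242 = n243 := ufr hU (rt t114 rfl ((m16.symm).trans (m22)) rfl) t3 t220 (rt t161 rfl (m22) rfl) t724 t727 t92 t840 t843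
  obtain ⟨n76, t260⟩ : ∃ c, n75 * n42 = c := ⟨_, rfl⟩
  obtain ⟨n77, t263⟩ : ∃ b, g * b = n76 := ⟨_, Lp.mul_ldiv _ _⟩
  obtain ⟨n207, t721⟩ : ∃ a, a * n50 = n77 := ⟨_, Lp.div_mul' _ _⟩
  have t264 : (1 : Q) * n77 = n77 := Lp.one_mul' _
  obtain ⟨n78, t266⟩ : ∃ c, n13 * n42 = c := ⟨_, rfl⟩
  have t269 : X * n77 = n78 := ufr hU t6 (rt t167 rfl rfl ((m20.symm).trans (m14.symm))) (rt t253 rfl (m29.symm) rfl) t257 (rt t71 (m7.symm) rfl rfl) t69 t260 t263 t266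
  obtain ⟨n100, t340⟩ : ∃ c, X * n64 = c := ⟨_, rfl⟩
  have t343 : n20 * n100 = n47 := nl hL (rt t68 rfl (m2.symm) rfl) (rt t33 ((m1.symm).trans (m4)) rfl rfl) (rt t220 (m2) rfl rfl) t340
  have t376 : n20 * n78 = n47 := nl hL (rt t68 rfl (m2.symm) rfl) (rt t43 (m4) (m6.symm) rfl) (rt t162 rfl ((m21.symm).trans (m17.symm)) rfl) (rt t266 (m6.symm) (m17.symm) rfl)
  have m39 : n100 = n78 := mb t343 t376 rfl rfl
  have m40 : n77 = n64 := mb t269 t340 rfl (m39.symm)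
  have t723 : n207 * (1 : Q) = n207 := Lp.mul_one' _
  have t722 : (1 : Q) * n207 = n207 := Lp.one_mul' _
  have t729 : n209 * (1 : Q) = n209 := Lp.mul_one' _
  have t730 : n32 * n207 = n209 := ufr hU (rt t114 rfl ((m16.symm).trans (m22)) rfl) (rt t327 ((m32.symm).trans ((m20.symm).trans (m14.symm))) rfl ((m32.symm).trans ((m20.symm).trans (m14.symm)))) (rt t264 rfl (m40) rfl) t721 t724 t727 t723 t722 t729
  obtain ⟨n163, t568⟩ : ∃ c, n62 * n50 = c := ⟨_, rfl⟩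
  obtain ⟨n214, t744⟩ : ∃ c, n77 * n131 = c := ⟨_, rfl⟩
  obtain ⟨n164, t571⟩ : ∃ c, n163 * n131 = c := ⟨_, rfl⟩
  obtain ⟨n215, t747⟩ : ∃ c, n213 * n131 = c := ⟨_, rfl⟩
  have t749 : n215 * (1 : Q) = n215 := Lp.mul_one' _
  have t452 : n131 * (1 : Q) = n131 := Lp.mul_one' _
  have t265 : n77 * (1 : Q) = n77 := Lp.mul_one' _
  have t743 : n213 * (1 : Q) = n213 := Lp.mul_one' _
  have t745 : (1 : Q) * n214 = n214 := Lp.one_mul' _
  have t750 : n131 * n214 = n215 := ufr hU t452 t451 (rt t264 rfl (m40) rfl) t265 t741 t743 t744 t745 t747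
  have t748 : (1 : Q) * n215 = n215 := Lp.one_mul' _
  have m98 : n215 = n131 := mb t748 t747 (m85.trans (m97)) rfl
  have m99 : (1 : Q) = n214 := mb t749 t750 (m98) rfl
  obtain ⟨n233, t807⟩ : ∃ c, n164 * n93 = c := ⟨_, rfl⟩
  have t808 : (1 : Q) * n233 = n233 := Lp.one_mul' _
  have t317 : n93 * (1 : Q) = n93 := Lp.mul_one' _
  have t574 : n62 * n146 = n164 := nm hM (rt t174 rfl (m17.symm) rfl) t568 t571 t506
  have t573 : n164 * (1 : Q) = n164 := Lp.mul_one' _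
  have t810 : n62 * n119 = n233 := ufr hU (rt t317 (m38) rfl rfl) t316 (rt t758 rfl (m68.symm) rfl) t759 (rt t574 rfl (m60) rfl) t573 (rt t408 (m51.trans (m68)) (m38.symm) rfl) t409 t807
  have t858 : n247 * (1 : Q) = n247 := Lp.mul_one' _
  have m104 : n233 = n247 := mc t810 t858 (m102) (m85.symm)
  have m105 : n164 = (1 : Q) := ma t807 t808 (m38.trans (m102.trans (m104.symm))) rfl
  have m109 : n77 = n163 := ma t744 t571 rfl ((m99.symm).trans (m105.symm))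
  have m110 : n207 = n62 := ma t721 t568 rfl (m109)
  have m111 : n154 = n209 := mc t536 t730 rfl (m110.symm)
  have m112 : n243 = n155 := mc t843 t539 (m111.symm) rfl
  have m113 : n156 = n242 := mb t545 t846 rfl (m112.symm)
  obtain ⟨n258, t893⟩ : ∃ b, x * b = n165 := ⟨_, Lp.mul_ldiv _ _⟩
  obtain ⟨n259, t896⟩ : ∃ c, g * n258 = c := ⟨_, rfl⟩
  obtain ⟨n260, t899⟩ : ∃ b, x * b = n259 := ⟨_, Lp.mul_ldiv _ _⟩
  have m142 : n244 = n258 := mb t847 t893 rfl ((m97.symm).trans ((m85.symm).trans (m141)))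
  have m143 : n28 = n259 := mc t92 t896 rfl (m95.trans (m142))
  have m144 : n242 = n260 := mb t840 t899 rfl (m143)
  obtain ⟨n167, t582⟩ : ∃ c, n166 * G = c := ⟨_, rfl⟩
  obtain ⟨n183, t638⟩ : ∃ c, n106 * n166 = c := ⟨_, rfl⟩
  obtain ⟨n184, t641⟩ : ∃ c, n183 * G = c := ⟨_, rfl⟩
  have t644 : n106 * n167 = n184 := nm hM t579 t638 t641 t582
  obtain ⟨n261, t902⟩ : ∃ c, n228 * n258 = c := ⟨_, rfl⟩
  have t865 : n249 * (1 : Q) = n249 := Lp.mul_one' _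
  have t905 : n106 * n260 = n261 := ufr hU t575 t893 (rt t865 (m93) rfl rfl) (rt t351 rfl rfl (m93.symm)) t364 t790 t896 t899 t902
  obtain ⟨n171, t596⟩ : ∃ c, n166 * n106 = c := ⟨_, rfl⟩
  obtain ⟨n172, t599⟩ : ∃ c, n171 * G = c := ⟨_, rfl⟩
  obtain ⟨n231, t800⟩ : ∃ a, a * n103 = n166 := ⟨_, Lp.div_mul' _ _⟩
  obtain ⟨n175, t610⟩ : ∃ c, n171 * n103 = c := ⟨_, rfl⟩
  have t612 : n175 * (1 : Q) = n175 := Lp.mul_one' _
  have t613 : n166 * n165 = n175 := nl hL t579 t596 t610 t575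
  have m148 : n175 = n166 := ma t612 t613 (m141) rfl
  have m149 : n231 = n171 := ma t800 t610 rfl (m148.symm)
  obtain ⟨n232, t803⟩ : ∃ c, n231 * n165 = c := ⟨_, rfl⟩
  have t805 : n232 * (1 : Q) = n232 := Lp.mul_one' _
  have m145 : n232 = n231 := ma t805 t803 (m141) rfl
  have t363 : (1 : Q) * n106 = n106 := Lp.one_mul' _
  have t797 : (1 : Q) * n230 = n230 := Lp.one_mul' _
  have t806 : n106 * n230 = n232 := ufr hU t575 t576 t363 t790 t579 t800 t796 t797 t803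
  have m152 : n183 = n232 := mc t638 t806 rfl (m151)
  have m154 : n172 = n184 := mc t599 t641 ((m149.symm).trans ((m145.symm).trans (m152.symm))) rfl
  have t602 : n166 * X = n172 := nl hL t579 t596 t599 t362
  have m155 : n261 = n172 := mc t902 t602 ((m146.symm).trans (m151.symm)) ((m142.symm).trans (m95.symm))
  have m156 : n167 = n260 := mb t644 t905 rfl ((m154.symm).trans (m155.symm))
  have t595 : n166 * n136 = n170 := nl hL t579 t589 t592 t467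
  have m67 : n167 = n170 := mc t582 t595 rfl (m17.trans (m21.trans (m50)))
  have m157 : n62 = n169 := ma t542 t592 rfl (m113.trans (m144.trans ((m156.symm).trans (m67))))
  have m158 : n219 = n166 := ma t761 t589 rfl (m38.trans (m157))
  have m161 : n216 = n182 := mb t767 t637 (m158) ((m118.symm).trans (m14.trans (m20.trans (m32.trans (m160)))))
  have m164 : n218 = n191 := mc t777 t666 ((m114.symm).trans ((m120.symm).trans (m161))) rfl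
  have m165 : n174 = n190 := mc t606 t669 rfl (m68.trans (m164))
  obtain ⟨n173, t603⟩ : ∃ c, n171 * n135 = c := ⟨_, rfl⟩
  have t609 : n166 * n174 = n173 := nl hL t579 t596 t603 t606
  obtain ⟨n179, t624⟩ : ∃ c, n176 * n62 = c := ⟨_, rfl⟩
  have t630 : n166 * n180 = n179 := nl hL t579 t614 t624 t627
  obtain ⟨n185, t645⟩ : ∃ c, n183 * n135 = c := ⟨_, rfl⟩
  have m153 : n173 = n185 := mc t603 t645 ((m149.symm).trans ((m145.symm).trans (m152.symm))) rfl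
  have t648 : n106 * n169 = n185 := nm hM t579 t638 t645 t589
  have m166 : n185 = n179 := mc t648 t624 (m159.symm) (m157.symm)
  have m167 : n174 = n180 := mb t609 t630 rfl (m153.trans (m166))
  have m168 : n188 = n103 := ma t663 t627 rfl ((m165.symm).trans (m167))
  have m169 : n178 = n189 := mc t620 t659 (m168.symm) rfl
  have m172 : n103 = n186 := mb t631 t662 (m159) ((m160.symm).trans ((m32.symm).trans ((m20.symm).trans ((m14.symm).trans (m171.trans (m169))))))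
  have m173 : n206 = n187 := mc t717 t652 (m54.trans (m172)) ((m50.symm).trans ((m21.symm).trans (m17.symm)))
  obtain ⟨n287, t997⟩ : ∃ c, n167 * n187 = c := ⟨_, rfl⟩
  obtain ⟨n288, t1000⟩ : ∃ b, n247 * b = n287 := ⟨_, Lp.mul_ldiv _ _⟩
  obtain ⟨n192, t670⟩ : ∃ c, n62 * n182 = c := ⟨_, rfl⟩
  obtain ⟨n193, t673⟩ : ∃ c, n192 * X = c := ⟨_, rfl⟩
  have t675 : n193 * (1 : Q) = n193 := Lp.mul_one' _
  have m108 : n220 = n62 := ma t764 t574 (m60.symm) ((m85.symm).trans (m105.symm))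
  have m162 : n222 = n192 := mc t770 t670 (m108) (m161)
  have m163 : n250 = n193 := mc t869 t673 (m68.trans ((m117.symm).trans (m162))) (m95.symm)
  have t655 : n182 * X = n187 := nl hL t634 t649 t652 t362
  have t676 : n62 * n187 = n193 := nm hM t634 t670 t673 t655
  have t584 : n167 * (1 : Q) = n167 := Lp.mul_one' _
  have t22 : n7 * (1 : Q) = n7 := Lp.mul_one' _
  have t1006 : G * n288 = n289 := ufr hU (rt t675 ((m163.symm).trans ((m94.symm).trans ((m21.symm).trans (m17.symm)))) rfl rfl) (rt t676 (m102) rfl rfl) (rt t592 ((m157.symm).trans (m102)) rfl rfl) (rt t584 rfl rfl (m67)) t20 t22 t997 t1000 t1003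
  obtain ⟨n268, t926⟩ : ∃ b, G * b = n267 := ⟨_, Lp.mul_ldiv _ _⟩
  obtain ⟨n210, t731⟩ : ∃ c, n50 * n62 = c := ⟨_, rfl⟩
  obtain ⟨n211, t734⟩ : ∃ a, a * g = n210 := ⟨_, Lp.div_mul' _ _⟩
  obtain ⟨n290, t1007⟩ : ∃ c, n211 * n187 = c := ⟨_, rfl⟩
  obtain ⟨n234, t811⟩ : ∃ c, n217 * n164 = c := ⟨_, rfl⟩
  obtain ⟨n235, t814⟩ : ∃ c, n219 * n164 = c := ⟨_, rfl⟩
  have t572 : (1 : Q) * n164 = n164 := Lp.one_mul' _
  have t812 : (1 : Q) * n234 = n234 := Lp.one_mul' _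
  have t817 : n62 * n234 = n235 := ufr hU (rt t574 rfl (m60) rfl) t572 (rt t327 ((m32.symm).trans ((m20.symm).trans (m14.symm))) rfl rfl) t754 (rt t317 (m38) rfl rfl) t761 t811 t812 t814
  have t813 : n234 * (1 : Q) = n234 := Lp.mul_one' _
  have m107 : n234 = n217 := ma t813 t811 (m105.symm) rfl
  obtain ⟨n168, t585⟩ : ∃ c, n167 * g = c := ⟨_, rfl⟩
  have t587 : n168 * (1 : Q) = n168 := Lp.mul_one' _
  have t588 : n166 * n96 = n168 := nl hL t579 t582 t585 (rt t328 rfl (m31.symm) rfl)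
  have m66 : n168 = n166 := ma t587 t588 (m14.trans (m20.trans (m32))) rfl
  have t816 : n235 * (1 : Q) = n235 := Lp.mul_one' _
  have m106 : n235 = n219 := ma t816 t814 (m105.symm) rfl
  have t1010 : n50 * n288 = n290 := ufr hU (rt t143 ((m16.symm).trans (m22)) rfl rfl) (rt t676 (m102) rfl ((m163.symm).trans ((m94.symm).trans (m21.symm)))) (rt t817 (m102) (m107.trans (m116.trans (m108.trans (m102)))) rfl) (rt t585 rfl rfl (m66.trans ((m158.symm).trans (m106.symm)))) (rt t731 rfl (m102) rfl) t734 t997 t1000 t1007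
  obtain ⟨n266, t920⟩ : ∃ a, a * n52 = n45 := ⟨_, Lp.div_mul' _ _⟩
  obtain ⟨n269, t929⟩ : ∃ c, n266 * n206 = c := ⟨_, rfl⟩
  obtain ⟨n41, t139⟩ : ∃ c, n40 * G = c := ⟨_, rfl⟩
  have t142 : n33 * n15 = n41 := nl hL t111 t136 t139 (rt t48 (m2.symm) rfl rfl)
  have t469 : n136 * (1 : Q) = n136 := Lp.mul_one' _
  have t468 : (1 : Q) * n136 = n136 := Lp.one_mul' _
  have t240 : (1 : Q) * n70 = n70 := Lp.one_mul' _
  have t241 : n70 * (1 : Q) = n70 := Lp.mul_one' _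
  have t503 : n145 * (1 : Q) = n145 := Lp.mul_one' _
  have t718 : (1 : Q) * n206 = n206 := Lp.one_mul' _
  have t720 : G * n206 = n41 := ufr hU (rt t469 ((m50.symm).trans ((m21.symm).trans (m17.symm))) rfl rfl) t468 (rt t240 rfl (m54) rfl) t241 (rt t242 rfl (m54) rfl) (rt t503 rfl rfl (m53)) t717 t718 (rt t139 (m53.symm) (m17.trans (m21.trans (m50))) rfl)
  have t932 : n50 * n268 = n269 := ufr hU (rt t142 ((m16.symm).trans (m22)) (m24) rfl) t720 (rt t174 rfl (m17.symm) rfl) t917 (rt t154 (m22) rfl rfl) t920 t923 t926 t929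
  obtain ⟨n212, t737⟩ : ∃ c, n211 * n136 = c := ⟨_, rfl⟩
  obtain ⟨n298, t1035⟩ : ∃ c, n266 * n42 = c := ⟨_, rfl⟩
  obtain ⟨n67, t229⟩ : ∃ c, n50 * n64 = c := ⟨_, rfl⟩
  obtain ⟨n61, t210⟩ : ∃ a, a * n5 = n38 := ⟨_, Lp.div_mul' _ _⟩
  obtain ⟨n84, t286⟩ : ∃ c, n61 * n42 = c := ⟨_, rfl⟩
  obtain ⟨n63, t216⟩ : ∃ c, n61 * g = c := ⟨_, rfl⟩
  have t217 : (1 : Q) * n63 = n63 := Lp.one_mul' _
  have t219 : (1 : Q) * n62 = n63 := ufr hU t14 t13 t13 t14 (rt t130 rfl (m15.symm) rfl) t210 (rt t130 rfl (m15.symm) rfl) t213 t216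
  have m27 : n63 = n62 := mb t217 t219 rfl rfl
  have t287 : (1 : Q) * n84 = n84 := Lp.one_mul' _
  have t740 : n50 * n84 = n212 := ufr hU (rt t143 ((m16.symm).trans (m22)) rfl rfl) (rt t468 rfl rfl ((m50.symm).trans (m21.symm))) (rt t316 rfl (m38) rfl) (rt t216 rfl rfl (m27.trans (m38.symm))) t731 t734 (rt t286 rfl (m21.trans (m50)) rfl) t287 t737
  obtain ⟨n200, t697⟩ : ∃ a, a * G = n77 := ⟨_, Lp.div_mul' _ _⟩
  have t211 : (1 : Q) * n61 = n61 := Lp.one_mul' _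
  obtain ⟨n144, t497⟩ : ∃ c, n143 * n62 = c := ⟨_, rfl⟩
  obtain ⟨n149, t517⟩ : ∃ c, n147 * g = c := ⟨_, rfl⟩
  have t500 : n32 * n92 = n144 := nl hL (rt t107 (m11.symm) rfl rfl) (rt t496 rfl ((m21.symm).trans (m17.symm)) rfl) t497 (rt t315 rfl (m38) rfl)
  have t520 : n32 * n92 = n149 := nl hL (rt t107 (m11.symm) rfl rfl) t510 t517 t312
  have m59 : n144 = n149 := mc t500 t520 rfl rfl
  have t512 : n147 * (1 : Q) = n147 := Lp.mul_one' _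
  have t699 : n200 * (1 : Q) = n200 := Lp.mul_one' _
  have t698 : (1 : Q) * n200 = n200 := Lp.one_mul' _
  have t700 : g * n200 = n147 := ufr hU (rt t167 rfl (m17.symm) rfl) (rt t327 ((m32.symm).trans ((m20.symm).trans (m14.symm))) rfl (m32.symm)) (rt t264 rfl (m40) rfl) t697 (rt t263 rfl (m40) rfl) (rt t260 rfl (m17.symm) rfl) t699 t698 (rt t512 (m58.symm) rfl rfl)
  have t212 : n61 * (1 : Q) = n61 := Lp.mul_one' _
  have t906 : (1 : Q) * n200 = n61 := ufr hU (rt t854 rfl ((m101.symm).trans ((m49.symm).trans (m30))) rfl) (rt t855 ((m101.symm).trans ((m49.symm).trans (m30))) rfl rfl) (rt t497 ((m52.symm).trans (m11.symm)) (m102) rfl) (rt t517 rfl rfl (m59.symm)) (rt t812 rfl (m107.trans (m116.trans (m108.trans (m102)))) rfl) (rt t216 rfl rfl (m27.trans ((m108.symm).trans ((m116.symm).trans (m107.symm))))) t512 t700 t212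
  have m121 : n61 = n200 := mb t211 t906 rfl rfl
  have m122 : n84 = n77 := mc t286 t697 (m121) (m17.symm)
  have m123 : n67 = n212 := mc t229 t740 rfl ((m40.symm).trans (m122.symm))
  obtain ⟨n65, t223⟩ : ∃ c, n52 * n64 = c := ⟨_, rfl⟩
  obtain ⟨n66, t226⟩ : ∃ b, x * b = n65 := ⟨_, Lp.mul_ldiv _ _⟩
  have t232 : G * n66 = n67 := ufr hU (rt t163 ((m21.symm).trans (m17.symm)) rfl rfl) t220 (rt t181 rfl ((m21.symm).trans (m17.symm)) rfl) t180 (rt t174 rfl (m17.symm) rfl) t173 t223 t226 t229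
  obtain ⟨n299, t1038⟩ : ∃ b, G * b = n298 := ⟨_, Lp.mul_ldiv _ _⟩
  obtain ⟨n277, t959⟩ : ∃ c, n245 * n7 = c := ⟨_, rfl⟩
  obtain ⟨n278, t962⟩ : ∃ a, a * X = n277 := ⟨_, Lp.div_mul' _ _⟩
  obtain ⟨n285, t989⟩ : ∃ c, n278 * n64 = c := ⟨_, rfl⟩
  obtain ⟨n286, t992⟩ : ∃ b, n245 * b = n285 := ⟨_, Lp.mul_ldiv _ _⟩
  have t995 : x * n286 = n65 := ufr hU (rt t893 rfl ((m142.symm).trans (m95.symm)) rfl) (rt t850 rfl rfl (m141)) t959 t962 t175 t178 t989 t992 t223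
  have m174 : n66 = n286 := mb t226 t995 rfl rfl
  obtain ⟨n85, t289⟩ : ∃ b, g * b = n84 := ⟨_, Lp.mul_ldiv _ _⟩
  obtain ⟨n279, t965⟩ : ∃ c, n278 * n136 = c := ⟨_, rfl⟩
  obtain ⟨n31, t103⟩ : ∃ c, n30 * X = c := ⟨_, rfl⟩
  have t106 : n23 * n7 = n31 := nl hL t76 t100 t103 t20
  have m12 : n28 = n31 := mc t92 t103 (m11) rfl
  have t968 : n245 * n33 = n279 := ufr hU (rt t853 rfl (m95.symm) rfl) (rt t516 rfl rfl ((m57.symm).trans ((m52.symm).trans ((m11.symm).trans ((m30.symm).trans (m49.trans (m101))))))) (rt t106 (m10.symm) rfl rfl) (rt t92 rfl rfl (m12)) t959 t962 (rt t167 rfl (m21.trans (m50)) rfl) (rt t114 rfl rfl (m14.trans (m20))) t965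
  have t674 : (1 : Q) * n193 = n193 := Lp.one_mul' _
  have t996 : g * n286 = n84 := ufr hU (rt t167 rfl (m17.symm) rfl) (rt t850 rfl rfl (m14.trans (m20))) (rt t968 rfl ((m16.symm).trans (m22)) rfl) (rt t965 rfl ((m50.symm).trans ((m21.symm).trans (m17.symm))) rfl) (rt t161 rfl (m22) rfl) (rt t674 rfl ((m163.symm).trans ((m94.symm).trans ((m21.symm).trans (m17.symm)))) ((m163.symm).trans (m94.symm))) t989 t992 (rt t287 rfl (m122.trans (m40)) rfl)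
  have m175 : n85 = n286 := mb t289 t996 rfl rfl
  obtain ⟨n83, t283⟩ : ∃ a, a * n5 = n6 := ⟨_, Lp.div_mul' _ _⟩
  obtain ⟨n86, t292⟩ : ∃ c, n83 * n42 = c := ⟨_, rfl⟩
  have t18 : n6 * (1 : Q) = n6 := Lp.mul_one' _
  have t295 : n6 * n85 = n86 := ufr hU t19 (rt t167 rfl rfl ((m20.symm).trans (m14.symm))) (rt t253 rfl (m29.symm) rfl) (rt t210 rfl rfl ((m15.symm).trans (m30.symm))) t18 t283 t286 t289 t292
  obtain ⟨n292, t1014⟩ : ∃ c, n6 * n50 = c := ⟨_, rfl⟩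
  obtain ⟨n293, t1017⟩ : ∃ a, a * n52 = n292 := ⟨_, Lp.div_mul' _ _⟩
  obtain ⟨n300, t1041⟩ : ∃ c, n293 * n42 = c := ⟨_, rfl⟩
  have m23 : n45 = n49 := ma t157 t171 rfl (m19.trans (m22))
  have t1044 : n6 * n299 = n300 := ufr hU (rt t917 (m179) rfl rfl) t174 (rt t168 rfl (m22) rfl) (rt t920 rfl rfl (m23)) t1014 t1017 t1035 t1038 t1041
  obtain ⟨n303, t1052⟩ : ∃ c, n83 * n33 = c := ⟨_, rfl⟩
  obtain ⟨n295, t1023⟩ : ∃ c, n293 * n291 = c := ⟨_, rfl⟩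
  obtain ⟨n294, t1020⟩ : ∃ c, n265 * n291 = c := ⟨_, rfl⟩
  have t1012 : (1 : Q) * n291 = n291 := Lp.one_mul' _
  have t1021 : (1 : Q) * n294 = n294 := Lp.one_mul' _
  have t1026 : n6 * n294 = n295 := ufr hU t1011 t1012 t172 t917 t1014 t1017 t1020 t1021 t1023
  obtain ⟨n301, t1045⟩ : ∃ c, n34 * n33 = c := ⟨_, rfl⟩
  obtain ⟨n302, t1048⟩ : ∃ b, n32 * b = n301 := ⟨_, Lp.mul_ldiv _ _⟩
  have t919 : n265 * (1 : Q) = n265 := Lp.mul_one' _
  have t1055 : n6 * n302 = n303 := ufr hU t19 t114 (rt t459 (m103.trans ((m96.symm).trans (m8.trans (m10.symm)))) rfl rfl) (rt t125 rfl rfl (m13.trans (m10.trans ((m8.symm).trans (m96.trans (m103.symm)))))) (rt t919 (m179) rfl rfl) (rt t283 rfl rfl (m179.symm)) t1045 t1048 t1052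
  have m180 : n292 = n294 := mc t1014 t1020 (m179.symm) ((m22.symm).trans ((m19.symm).trans (m178)))
  have t1015 : (1 : Q) * n292 = n292 := Lp.one_mul' _
  have t622 : n178 * (1 : Q) = n178 := Lp.mul_one' _
  have t117 : n34 * (1 : Q) = n34 := Lp.mul_one' _
  have t918 : (1 : Q) * n265 = n265 := Lp.one_mul' _
  have t1051 : (1 : Q) * n302 = n292 := ufr hU (rt t622 (m171.symm) rfl rfl) (rt t114 rfl rfl (m171)) t115 t117 (rt t918 rfl (m179) rfl) t919 t1045 t1048 (rt t1014 (m179.symm) ((m22.symm).trans (m16)) rfl)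
  have m181 : n292 = n302 := mb t1015 t1051 rfl rfl
  have m182 : n295 = n303 := mc t1026 t1055 rfl ((m180.symm).trans (m181))
  have m183 : n83 = n293 := ma t1052 t1023 ((m16.symm).trans ((m19.symm).trans (m178))) (m182.symm)
  have m184 : n300 = n86 := mc t1041 t292 (m183.symm) rfl
  have m185 : n85 = n299 := mb t295 t1044 rfl (m184.symm)
  have m186 : n67 = n298 := mc t232 t1038 rfl (m174.trans ((m175.symm).trans (m185)))
  have m187 : n211 = n266 := ma t737 t1035 ((m50.symm).trans (m21.symm)) ((m123.symm).trans (m186))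
  have m188 : n269 = n290 := mc t929 t1007 (m187.symm) (m173)
  have m189 : n288 = n268 := mb t1010 t932 rfl (m188.symm)
  have m190 : n289 = n267 := mc t1006 t926 rfl (m189)
  have m191 : n265 = n7 := ma t923 t1003 (m173) (m190.symm)
  rw [t13] at tw
  rw [t20]
  exact (mb tw t16 rfl rfl).trans ((m179.symm).trans (m191))

/-- a universally flexible loop whose squares lie in the left and in the middle nucleus has the
antiautomorphic and the semi-automorphic inverse property -/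
theorem nuclear_squares {Q : Type u} [Lp Q] (hU : UF Q)
    (hL : ∀ s a b : Q, ((s * s) * a) * b = (s * s) * (a * b))
    (hM : ∀ s a b : Q, (a * (s * s)) * b = a * ((s * s) * b)) : AAIP Q ∧ SAIP Q := by
  have h1 : ∀ a : Q, a * iv a = 1 := fun a => Lp.mul_ldiv a 1
  have hA : ∀ x y : Q, iv (x * y) = iv y * iv x := fun x y =>
    aaip_sq hU hL hM x (iv x) y (iv y) _ (h1 x) (h1 y) (h1 _)
  refine ⟨hA, fun x y => ?_⟩
  rw [hA x (y * x), hA y x]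
  have hf : ∀ a b : Q, (a * b) * a = a * (b * a) := by
    intro a b
    have h := hU 1 1 a b
    unfold circ at h
    have e1 : ∀ t : Q, t / 1 = t := fun t => by
      have := Lp.mul_div' 1 t
      rwa [Lp.mul_one'] at this
    have e2 : ∀ t : Q, ldiv 1 t = t := fun t => by
      have := Lp.ldiv_mul 1 t
      rwa [Lp.one_mul'] at this
    simp only [e1, e2] at h
    exact h.symm
  exact hf (iv x) (iv y)

end H1UFC
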