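import Pool.Agent.H1.UFC.Rules

set_option autoImplicit false

/-!
# Universally flexible loops whose squares lie in the left nucleus
-/

namespace H1UFC

open H16UFL

universe u

/-- squares are in the left nucleus, as a closure rule -/
theorem nll {Q : Type u} [Lp Q] (hL : ∀ s a b : Q, ((s * s) * a) * b = (s * s) * (a * b))
    {s q a b c r d : Q} (h1 : s * s = q) (h2 : q * a = c) (h3 : c * b = r) (h4 : a * b = d) :
    q * d = r := by
  rw [← h4, ← h3, ← h2, ← h1, hL]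

theorem aaip_lsq {Q : Type u} [Lp Q] (hU : UF Q)
    (hL : ∀ s a b : Q, ((s * s) * a) * b = (s * s) * (a * b))
    (x X g G w : Q) (tx : x * X = 1) (tg : g * G = 1) (tw : (x * g) * w = 1) : w = G * X := by
  obtain ⟨n5, t13⟩ : ∃ c, x * g = c := ⟨_, rfl⟩
  obtain ⟨n6, t16⟩ : ∃ b, n5 * b = (1 : Q) := ⟨_, Lp.mul_ldiv _ _⟩
  have t9 : g * G = 1 := tg
  have t3 : x * X = 1 := tx
  obtain ⟨n7, t20⟩ : ∃ c, G * X = c := ⟨_, rfl⟩
  obtain ⟨n215, t710⟩ : ∃ c, g * X = c := ⟨_, rfl⟩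
  obtain ⟨n313, t1043⟩ : ∃ c, n5 * X = c := ⟨_, rfl⟩
  obtain ⟨n314, t1046⟩ : ∃ a, a * n215 = n313 := ⟨_, Lp.div_mul' _ _⟩
  obtain ⟨n311, t1037⟩ : ∃ c, x * n215 = c := ⟨_, rfl⟩
  obtain ⟨n312, t1040⟩ : ∃ b, n5 * b = n311 := ⟨_, Lp.mul_ldiv _ _⟩
  obtain ⟨n316, t1052⟩ : ∃ c, n314 * n312 = c := ⟨_, rfl⟩
  obtain ⟨n317, t1055⟩ : ∃ b, n5 * b = n316 := ⟨_, Lp.mul_ldiv _ _⟩
  obtain ⟨n336, t1122⟩ : ∃ b, x * b = n313 := ⟨_, Lp.mul_ldiv _ _⟩
  have t711 : (1 : Q) * n215 = n215 := Lp.one_mul' _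
  obtain ⟨n9, t26⟩ : ∃ b, X * b = G := ⟨_, Lp.mul_ldiv _ _⟩
  obtain ⟨n13, t38⟩ : ∃ c, n9 * x = c := ⟨_, rfl⟩
  obtain ⟨n25, t77⟩ : ∃ c, G * x = c := ⟨_, rfl⟩
  obtain ⟨n165, t540⟩ : ∃ a, a * n13 = n25 := ⟨_, Lp.div_mul' _ _⟩
  obtain ⟨n163, t534⟩ : ∃ c, X * n13 = c := ⟨_, rfl⟩
  obtain ⟨n164, t537⟩ : ∃ b, G * b = n163 := ⟨_, Lp.mul_ldiv _ _⟩
  obtain ⟨n167, t546⟩ : ∃ c, n165 * n164 = c := ⟨_, rfl⟩
  have t548 : n167 * (1 : Q) = n167 := Lp.mul_one' _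
  obtain ⟨n58, t184⟩ : ∃ b, G * b = x := ⟨_, Lp.mul_ldiv _ _⟩
  obtain ⟨n14, t42⟩ : ∃ a, a * G = X := ⟨_, Lp.div_mul' _ _⟩
  obtain ⟨n61, t193⟩ : ∃ c, n14 * x = c := ⟨_, rfl⟩
  obtain ⟨n62, t196⟩ : ∃ a, a * n58 = n61 := ⟨_, Lp.div_mul' _ _⟩
  obtain ⟨n59, t187⟩ : ∃ c, X * n58 = c := ⟨_, rfl⟩
  obtain ⟨n60, t190⟩ : ∃ b, n14 * b = n59 := ⟨_, Lp.mul_ldiv _ _⟩
  obtain ⟨n64, t202⟩ : ∃ c, n62 * n60 = c := ⟨_, rfl⟩
  obtain ⟨n122, t394⟩ : ∃ a, a * x = n59 := ⟨_, Lp.div_mul' _ _⟩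
  obtain ⟨n125, t403⟩ : ∃ c, n122 * G = c := ⟨_, rfl⟩
  have t405 : n125 * (1 : Q) = n125 := Lp.mul_one' _
  obtain ⟨n120, t388⟩ : ∃ c, g * n58 = c := ⟨_, rfl⟩
  obtain ⟨n121, t391⟩ : ∃ a, a * x = n120 := ⟨_, Lp.div_mul' _ _⟩
  obtain ⟨n123, t397⟩ : ∃ c, n121 * G = c := ⟨_, rfl⟩
  obtain ⟨n124, t400⟩ : ∃ b, g * b = n123 := ⟨_, Lp.mul_ldiv _ _⟩
  have t6 : X * x = (1 : Q) := inv2 hU t3
  have t406 : X * n124 = n125 := ufr hU t6 t9 t388 t391 t187 t394 t397 t400 t403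
  have t399 : n123 * (1 : Q) = n123 := Lp.mul_one' _
  obtain ⟨n36, t112⟩ : ∃ c, g * g = c := ⟨_, rfl⟩
  obtain ⟨n37, t115⟩ : ∃ c, n36 * G = c := ⟨_, rfl⟩
  obtain ⟨n141, t457⟩ : ∃ c, n37 * n58 = c := ⟨_, rfl⟩
  have t460 : n36 * x = n141 := nll hL t112 t115 t457 t184
  have t117 : n37 * (1 : Q) = n37 := Lp.mul_one' _
  obtain ⟨n194, t637⟩ : ∃ b, g * b = n37 := ⟨_, Lp.mul_ldiv _ _⟩
  obtain ⟨n95, t303⟩ : ∃ b, x * b = g := ⟨_, Lp.mul_ldiv _ _⟩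
  obtain ⟨n191, t627⟩ : ∃ c, g * n95 = c := ⟨_, rfl⟩
  obtain ⟨n104, t334⟩ : ∃ b, g * b = x := ⟨_, Lp.mul_ldiv _ _⟩
  obtain ⟨n192, t630⟩ : ∃ c, n191 * n104 = c := ⟨_, rfl⟩
  obtain ⟨n193, t633⟩ : ∃ b, g * b = n192 := ⟨_, Lp.mul_ldiv _ _⟩
  have t635 : n193 * (1 : Q) = n193 := Lp.mul_one' _
  have t2 : x * (1 : Q) = x := Lp.mul_one' _
  have t629 : n191 * (1 : Q) = n191 := Lp.mul_one' _
  have t8 : g * (1 : Q) = g := Lp.mul_one' _
  have t636 : x * n193 = x := ufr hU t2 t334 t627 t629 t303 t8 t630 t633 t334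
  have m25 : (1 : Q) = n193 := mb t2 t636 rfl rfl
  obtain ⟨n182, t596⟩ : ∃ c, n36 * n25 = c := ⟨_, rfl⟩
  obtain ⟨n98, t314⟩ : ∃ a, a * n25 = (1 : Q) := ⟨_, Lp.div_mul' _ _⟩
  obtain ⟨n183, t599⟩ : ∃ c, n182 * n98 = c := ⟨_, rfl⟩
  obtain ⟨n138, t446⟩ : ∃ b, n25 * b = (1 : Q) := ⟨_, Lp.mul_ldiv _ _⟩
  have t315 : (1 : Q) * n98 = n98 := Lp.one_mul' _
  obtain ⟨n22, t68⟩ : ∃ c, X * G = c := ⟨_, rfl⟩
  obtain ⟨n23, t71⟩ : ∃ c, n22 * x = c := ⟨_, rfl⟩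
  obtain ⟨n24, t74⟩ : ∃ b, X * b = n23 := ⟨_, Lp.mul_ldiv _ _⟩
  have t0 : (1 : Q) * (1 : Q) = (1 : Q) := Lp.one_mul' _
  have t70 : n22 * (1 : Q) = n22 := Lp.mul_one' _
  have t10 : (1 : Q) * G = G := Lp.one_mul' _
  have t11 : G * (1 : Q) = G := Lp.mul_one' _
  have t80 : (1 : Q) * n24 = n25 := ufr hU t0 t6 t68 t70 t10 t11 t71 t74 t77
  have t78 : (1 : Q) * n25 = n25 := Lp.one_mul' _
  have m1 : n25 = n24 := mb t78 t80 rfl rfl
  have t79 : n25 * (1 : Q) = n25 := Lp.mul_one' _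
  obtain ⟨n18, t55⟩ : ∃ c, G * G = c := ⟨_, rfl⟩
  obtain ⟨n19, t58⟩ : ∃ c, n18 * g = c := ⟨_, rfl⟩
  obtain ⟨n112, t360⟩ : ∃ b, G * b = n19 := ⟨_, Lp.mul_ldiv _ _⟩
  have t12 : G * g = (1 : Q) := inv2 hU t9
  have t57 : n18 * (1 : Q) = n18 := Lp.mul_one' _
  have t363 : (1 : Q) * n112 = (1 : Q) := ufr hU t0 t12 t55 t57 t10 t11 t58 t360 t12
  have m12 : (1 : Q) = n112 := mb t0 t363 rfl rfl
  have t316 : n98 * (1 : Q) = n98 := Lp.mul_one' _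
  have t449 : (1 : Q) * n138 = n98 := ufr hU (rt t80 rfl (m1.symm) rfl) t79 t79 (rt t80 rfl (m1.symm) rfl) (rt t363 rfl (m12.symm) rfl) t314 (rt t363 rfl (m12.symm) rfl) t446 t316
  have m16 : n98 = n138 := mb t315 t449 rfl rfl
  have t602 : n36 * (1 : Q) = n183 := nll hL t112 t596 t599 (rt t446 rfl (m16.symm) rfl)
  have t601 : n183 * (1 : Q) = n183 := Lp.mul_one' _
  have m24 : n183 = n36 := ma t601 t602 rfl rfl
  have t631 : (1 : Q) * n192 = n192 := Lp.one_mul' _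
  have t632 : n192 * (1 : Q) = n192 := Lp.mul_one' _
  have m26 : n192 = g := ma t632 t633 (m25) rfl
  have t640 : (1 : Q) * n194 = (1 : Q) := ufr hU (rt t635 (m25.symm) rfl rfl) (rt t9 rfl rfl (m25)) t112 (rt t602 rfl rfl (m24)) (rt t631 rfl (m26) rfl) (rt t633 rfl (m25.symm) rfl) t115 t637 t9
  have m28 : (1 : Q) = n194 := mb t635 t640 (m25.symm) (m25.symm)
  have m29 : n37 = g := ma t117 t637 (m28) rfl
  have m31 : n120 = n141 := mc t388 t457 (m29.symm) rfl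
  have m32 : n36 = n121 := ma t460 t391 rfl (m31.symm)
  have m33 : n37 = n123 := mc t115 t397 (m32) rfl
  have m34 : (1 : Q) = n124 := mb t399 t400 ((m33.symm).trans (m29)) rfl
  have m35 : n125 = X := ma t405 t406 (m34) rfl
  have m36 : n14 = n122 := ma t42 t403 rfl (m35.symm)
  have m39 : n61 = n59 := mc t193 t394 (m36) rfl
  have m40 : X = n62 := ma t187 t196 rfl (m39.symm)
  obtain ⟨n322, t1074⟩ : ∃ b, X * b = n25 := ⟨_, Lp.mul_ldiv _ _⟩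
  have t39 : (1 : Q) * n13 = n13 := Lp.one_mul' _
  obtain ⟨n17, t52⟩ : ∃ c, x * x = c := ⟨_, rfl⟩
  obtain ⟨n220, t727⟩ : ∃ a, a * n104 = X := ⟨_, Lp.div_mul' _ _⟩
  obtain ⟨n221, t730⟩ : ∃ c, n17 * n220 = c := ⟨_, rfl⟩
  obtain ⟨n222, t733⟩ : ∃ c, n221 * n104 = c := ⟨_, rfl⟩
  obtain ⟨n307, t1020⟩ : ∃ b, x * b = n222 := ⟨_, Lp.mul_ldiv _ _⟩
  obtain ⟨n101, t324⟩ : ∃ b, g * b = G := ⟨_, Lp.mul_ldiv _ _⟩
  obtain ⟨n153, t497⟩ : ∃ c, n36 * n101 = c := ⟨_, rfl⟩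
  have t499 : n153 * (1 : Q) = n153 := Lp.mul_one' _
  obtain ⟨n184, t603⟩ : ∃ a, a * n101 = (1 : Q) := ⟨_, Lp.div_mul' _ _⟩
  obtain ⟨n26, t81⟩ : ∃ b, G * b = X := ⟨_, Lp.mul_ldiv _ _⟩
  obtain ⟨n116, t374⟩ : ∃ c, n37 * n26 = c := ⟨_, rfl⟩
  have t377 : n36 * X = n116 := nll hL t112 t115 t374 t81
  obtain ⟨n27, t84⟩ : ∃ c, g * n26 = c := ⟨_, rfl⟩
  obtain ⟨n28, t87⟩ : ∃ a, a * X = n27 := ⟨_, Lp.div_mul' _ _⟩
  have m44 : n27 = n116 := mc t84 t374 (m29.symm) rfl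
  have m45 : n36 = n28 := ma t377 t87 rfl (m44.symm)
  obtain ⟨n266, t880⟩ : ∃ a, a * n104 = G := ⟨_, Lp.div_mul' _ _⟩
  obtain ⟨n267, t883⟩ : ∃ c, n28 * n266 = c := ⟨_, rfl⟩
  obtain ⟨n268, t886⟩ : ∃ c, n267 * n104 = c := ⟨_, rfl⟩
  obtain ⟨n119, t384⟩ : ∃ b, g * b = n28 := ⟨_, Lp.mul_ldiv _ _⟩
  have m46 : g = n119 := mb t112 t384 rfl (m45)
  have t889 : n28 * G = n268 := nll hL (rt t384 rfl (m46.symm) rfl) t883 t886 t880
  obtain ⟨n103, t330⟩ : ∃ c, n101 * G = c := ⟨_, rfl⟩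
  obtain ⟨n185, t606⟩ : ∃ a, a * n101 = n103 := ⟨_, Lp.div_mul' _ _⟩
  obtain ⟨n186, t609⟩ : ∃ c, n184 * n103 = c := ⟨_, rfl⟩
  obtain ⟨n187, t612⟩ : ∃ a, a * n101 = n186 := ⟨_, Lp.div_mul' _ _⟩
  obtain ⟨n102, t327⟩ : ∃ b, g * b = n18 := ⟨_, Lp.mul_ldiv _ _⟩
  have t325 : (1 : Q) * n101 = n101 := Lp.one_mul' _
  have t326 : n101 * (1 : Q) = n101 := Lp.mul_one' _
  have t333 : (1 : Q) * n102 = n103 := ufr hU t0 t9 t324 t11 t325 t326 t55 t327 t330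
  have t331 : (1 : Q) * n103 = n103 := Lp.one_mul' _
  have m11 : n103 = n102 := mb t331 t333 rfl rfl
  have t608 : n185 * (1 : Q) = n185 := Lp.mul_one' _
  have t607 : (1 : Q) * n185 = n185 := Lp.one_mul' _
  have t614 : n187 * (1 : Q) = n187 := Lp.mul_one' _
  have t615 : n184 * n185 = n187 := ufr hU t603 t363 (rt t333 rfl (m11.symm) rfl) t606 t609 t612 (rt t608 rfl (m12) rfl) t607 (rt t614 rfl (m12) rfl)
  obtain ⟨n158, t515⟩ : ∃ c, n18 * G = c := ⟨_, rfl⟩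
  have t7 : (1 : Q) * g = g := Lp.one_mul' _
  have t59 : (1 : Q) * n19 = n19 := Lp.one_mul' _
  have t60 : n19 * (1 : Q) = n19 := Lp.mul_one' _
  have m13 : n19 = G := ma t60 t360 (m12) rfl
  have t518 : G * n101 = n158 := ufr hU t12 t9 t8 t7 (rt t360 rfl (m12.symm) rfl) t58 (rt t59 rfl (m13) rfl) (rt t324 rfl rfl (m13.symm)) t515
  have t56 : (1 : Q) * n18 = n18 := Lp.one_mul' _
  obtain ⟨n31, t96⟩ : ∃ c, n28 * G = c := ⟨_, rfl⟩
  obtain ⟨n32, t99⟩ : ∃ b, g * b = n31 := ⟨_, Lp.mul_ldiv _ _⟩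
  have t101 : n32 * (1 : Q) = n32 := Lp.mul_one' _
  have t98 : n31 * (1 : Q) = n31 := Lp.mul_one' _
  have m48 : n123 = n31 := mc t397 t96 ((m32.symm).trans (m45)) rfl
  have m49 : (1 : Q) = n32 := mb t98 t99 ((m48.symm).trans ((m33.symm).trans (m29))) rfl
  obtain ⟨n44, t138⟩ : ∃ a, a * X = g := ⟨_, Lp.div_mul' _ _⟩
  obtain ⟨n45, t141⟩ : ∃ c, n18 * n44 = c := ⟨_, rfl⟩
  obtain ⟨n279, t926⟩ : ∃ c, n45 * X = c := ⟨_, rfl⟩
  have t927 : (1 : Q) * n279 = n279 := Lp.one_mul' _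
  obtain ⟨n177, t579⟩ : ∃ a, a * n58 = g := ⟨_, Lp.div_mul' _ _⟩
  obtain ⟨n235, t776⟩ : ∃ c, n18 * n177 = c := ⟨_, rfl⟩
  obtain ⟨n236, t779⟩ : ∃ c, n235 * n58 = c := ⟨_, rfl⟩
  have t782 : n18 * g = n236 := nll hL t55 t776 t779 t579
  have t929 : n18 * g = n279 := nll hL t55 t141 t926 t138
  have m75 : n236 = n279 := mc t782 t929 rfl rfl
  have m63 : n19 = n236 := mc t58 t782 rfl rfl
  have t928 : n279 * (1 : Q) = n279 := Lp.mul_one' _
  have t958 : (1 : Q) * n101 = n18 := ufr hU (rt t101 (m49.symm) rfl rfl) (rt t9 rfl rfl (m49)) t9 (rt t101 rfl rfl (m49.symm)) (rt t927 rfl ((m75.symm).trans ((m63.symm).trans (m13))) rfl) t928 (rt t927 (m49) ((m75.symm).trans ((m63.symm).trans (m13))) rfl) (rt t324 rfl rfl ((m13.symm).trans (m63.trans (m75)))) (rt t55 ((m13.symm).trans (m63.trans (m75))) rfl rfl)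
  have m78 : n18 = n101 := mb t56 t958 rfl rfl
  have m82 : n158 = n103 := mc t515 t330 (m78) rfl
  have m83 : n185 = G := ma t606 t518 rfl (m82.symm)
  obtain ⟨n8, t23⟩ : ∃ a, a * x = g := ⟨_, Lp.div_mul' _ _⟩
  obtain ⟨n48, t151⟩ : ∃ c, n18 * n8 = c := ⟨_, rfl⟩
  obtain ⟨n49, t154⟩ : ∃ c, n48 * x = c := ⟨_, rfl⟩
  obtain ⟨n113, t364⟩ : ∃ c, n36 * n48 = c := ⟨_, rfl⟩
  obtain ⟨n253, t836⟩ : ∃ c, n113 * x = c := ⟨_, rfl⟩
  have t839 : n28 * n49 = n253 := nll hL (rt t384 rfl (m46.symm) rfl) (rt t364 (m45) rfl rfl) t836 t154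
  have t157 : n18 * g = n49 := nll hL t55 t151 t154 t23
  have m2 : n19 = n49 := mc t58 t157 rfl rfl
  have m70 : n253 = n268 := mc t839 t889 rfl ((m2.symm).trans (m13))
  have m67 : n31 = n253 := mc t96 t839 rfl ((m13.symm).trans (m2))
  obtain ⟨n254, t840⟩ : ∃ b, n184 * b = G := ⟨_, Lp.mul_ldiv _ _⟩
  have t780 : (1 : Q) * n236 = n236 := Lp.one_mul' _
  have t843 : g * n254 = n101 := ufr hU t9 t603 t603 t9 t324 (rt t780 rfl ((m63.symm).trans (m13)) ((m63.symm).trans (m13))) t324 t840 t325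
  have m79 : n102 = n254 := mb t327 t843 rfl (m78)
  have m80 : n186 = G := mc t609 t840 rfl (m11.trans (m79))
  have m81 : g = n187 := ma t324 t612 rfl (m80.symm)
  have m84 : n28 = n184 := ma t889 t615 (m83.symm) ((m70.symm).trans ((m67.symm).trans ((m48.symm).trans ((m33.symm).trans (m29.trans (m81))))))
  have m85 : n153 = (1 : Q) := mc t497 t603 (m45.trans (m84)) rfl
  obtain ⟨n107, t343⟩ : ∃ a, a * n104 = (1 : Q) := ⟨_, Lp.div_mul' _ _⟩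
  obtain ⟨n272, t901⟩ : ∃ c, n17 * n107 = c := ⟨_, rfl⟩
  obtain ⟨n273, t904⟩ : ∃ c, n272 * n104 = c := ⟨_, rfl⟩
  have t907 : n17 * (1 : Q) = n273 := nll hL t52 t901 t904 t343
  have t906 : n273 * (1 : Q) = n273 := Lp.mul_one' _
  have m73 : n273 = n17 := ma t906 t907 rfl rfl
  obtain ⟨n154, t500⟩ : ∃ c, n153 * x = c := ⟨_, rfl⟩
  have t501 : (1 : Q) * n154 = n154 := Lp.one_mul' _
  have m86 : n154 = x := mb t501 t500 (m85.symm) rfl
  have t502 : n154 * (1 : Q) = n154 := Lp.mul_one' _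
  have t736 : n17 * X = n222 := nll hL t52 t730 t733 t727
  have t1023 : (1 : Q) * n307 = (1 : Q) := ufr hU (rt t499 (m85) rfl rfl) (rt t3 rfl rfl (m85.symm)) t52 (rt t907 rfl rfl (m73)) (rt t501 rfl (m86) rfl) t502 t736 t1020 (rt t3 (m86.symm) rfl rfl)
  have m93 : (1 : Q) = n307 := mb t499 t1023 (m85) (m85)
  have m37 : n60 = x := mb t190 t394 (m36) rfl
  have m41 : (1 : Q) = n64 := mc t6 t202 (m40) (m37.symm)
  obtain ⟨n224, t741⟩ : ∃ b, g * b = n17 := ⟨_, Lp.mul_ldiv _ _⟩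
  obtain ⟨n228, t753⟩ : ∃ a, a * n17 = n224 := ⟨_, Lp.div_mul' _ _⟩
  have t755 : n228 * (1 : Q) = n228 := Lp.mul_one' _
  obtain ⟨n40, t125⟩ : ∃ b, x * b = G := ⟨_, Lp.mul_ldiv _ _⟩
  obtain ⟨n41, t128⟩ : ∃ a, a * n40 = X := ⟨_, Lp.div_mul' _ _⟩
  obtain ⟨n42, t131⟩ : ∃ c, n17 * n41 = c := ⟨_, rfl⟩
  obtain ⟨n43, t134⟩ : ∃ c, n42 * n40 = c := ⟨_, rfl⟩
  obtain ⟨n162, t530⟩ : ∃ c, n43 * n9 = c := ⟨_, rfl⟩
  obtain ⟨n180, t589⟩ : ∃ c, n162 * n36 = c := ⟨_, rfl⟩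
  obtain ⟨n142, t461⟩ : ∃ c, n17 * G = c := ⟨_, rfl⟩
  obtain ⟨n143, t464⟩ : ∃ b, G * b = n17 := ⟨_, Lp.mul_ldiv _ _⟩
  obtain ⟨n145, t470⟩ : ∃ c, n142 * n143 = c := ⟨_, rfl⟩
  obtain ⟨n146, t473⟩ : ∃ a, a * n17 = n145 := ⟨_, Lp.div_mul' _ _⟩
  obtain ⟨n225, t744⟩ : ∃ b, n180 * b = n146 := ⟨_, Lp.mul_ldiv _ _⟩
  obtain ⟨n231, t762⟩ : ∃ c, n228 * n225 = c := ⟨_, rfl⟩
  obtain ⟨n280, t930⟩ : ∃ c, n180 * G = c := ⟨_, rfl⟩
  have t137 : n17 * X = n43 := nll hL t52 t131 t134 t128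
  have t533 : n17 * G = n162 := nll hL t52 t137 t530 t26
  have m22 : n142 = n162 := mc t461 t533 rfl rfl
  have t578 : n17 * n17 = n145 := nll hL t52 t533 (rt t470 (m22) rfl rfl) t464
  have m23 : n146 = n17 := ma t473 t578 rfl rfl
  have t932 : n280 * (1 : Q) = n280 := Lp.mul_one' _
  obtain ⟨n126, t407⟩ : ∃ b, X * b = g := ⟨_, Lp.mul_ldiv _ _⟩
  obtain ⟨n128, t413⟩ : ∃ c, x * n126 = c := ⟨_, rfl⟩
  obtain ⟨n29, t90⟩ : ∃ c, x * n26 = c := ⟨_, rfl⟩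
  obtain ⟨n30, t93⟩ : ∃ a, a * X = n29 := ⟨_, Lp.div_mul' _ _⟩
  obtain ⟨n33, t102⟩ : ∃ c, n30 * G = c := ⟨_, rfl⟩
  obtain ⟨n255, t844⟩ : ∃ a, a * X = n33 := ⟨_, Lp.div_mul' _ _⟩
  obtain ⟨n70, t222⟩ : ∃ c, n17 * n14 = c := ⟨_, rfl⟩
  obtain ⟨n71, t225⟩ : ∃ c, n70 * G = c := ⟨_, rfl⟩
  have t228 : n17 * X = n71 := nll hL t52 t222 t225 t42
  have t104 : n33 * (1 : Q) = n33 := Lp.mul_one' _
  have t105 : x * n32 = n33 := ufr hU t3 t9 t84 t87 t90 t93 t96 t99 t102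
  have m50 : n33 = x := ma t104 t105 (m49) rfl
  have t735 : n222 * (1 : Q) = n222 := Lp.mul_one' _
  have m94 : n222 = x := ma t735 t1020 (m93) rfl
  have m60 : n43 = n222 := mc t137 t736 rfl rfl
  have m5 : n43 = n71 := mc t137 t228 rfl rfl
  have m103 : n255 = n17 := ma t844 t228 rfl (m50.trans ((m94.symm).trans ((m60.symm).trans (m5))))
  have t1031 : n17 * g = n128 := nll hL t52 (rt t844 (m103) rfl rfl) (rt t413 (m50.symm) rfl rfl) t407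
  obtain ⟨n181, t592⟩ : ∃ c, G * n36 = c := ⟨_, rfl⟩
  have t595 : n17 * n181 = n180 := nll hL t52 t533 t589 t592
  obtain ⟨n258, t853⟩ : ∃ c, n255 * g = c := ⟨_, rfl⟩
  obtain ⟨n214, t706⟩ : ∃ b, G * b = n31 := ⟨_, Lp.mul_ldiv _ _⟩
  have t88 : (1 : Q) * n28 = n28 := Lp.one_mul' _
  have t97 : (1 : Q) * n31 = n31 := Lp.one_mul' _
  have t709 : (1 : Q) * n214 = n28 := ufr hU (rt t101 (m49.symm) rfl rfl) (rt t12 rfl rfl (m49)) t12 (rt t101 rfl rfl (m49.symm)) (rt t97 rfl ((m48.symm).trans ((m33.symm).trans (m29))) rfl) (rt t99 rfl (m49.symm) rfl) (rt t97 (m49) ((m48.symm).trans ((m33.symm).trans (m29))) rfl) t706 (rt t384 rfl (m46.symm) rfl)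
  have m57 : n28 = n214 := mb t88 t709 rfl rfl
  have m58 : n181 = n31 := mc t592 t706 rfl (m45.trans (m57))
  have m104 : n180 = n258 := mc t595 t853 (m103.symm) (m58.trans ((m48.symm).trans ((m33.symm).trans (m29))))
  have m109 : n258 = n128 := mc t853 t1031 (m103) rfl
  have t1032 : n17 * (1 : Q) = n280 := nll hL t52 t1031 (rt t930 (m104.trans (m109)) rfl rfl) t9
  have m114 : n280 = n17 := ma t932 t1032 rfl rfl
  have m115 : n225 = G := mb t744 t930 rfl (m23.trans (m114.symm))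
  obtain ⟨n289, t959⟩ : ∃ c, n180 * n101 = c := ⟨_, rfl⟩
  obtain ⟨n226, t747⟩ : ∃ c, n180 * n224 = c := ⟨_, rfl⟩
  obtain ⟨n227, t750⟩ : ∃ a, a * n17 = n226 := ⟨_, Lp.div_mul' _ _⟩
  obtain ⟨n229, t756⟩ : ∃ c, n227 * n225 = c := ⟨_, rfl⟩
  obtain ⟨n230, t759⟩ : ∃ b, n180 * b = n229 := ⟨_, Lp.mul_ldiv _ _⟩
  have t962 : n17 * n186 = n289 := nll hL t52 (rt t595 rfl (m58.trans ((m48.symm).trans ((m33.symm).trans (m29)))) rfl) t959 (rt t612 (m81.symm) rfl rfl)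
  obtain ⟨n72, t229⟩ : ∃ a, a * G = x := ⟨_, Lp.div_mul' _ _⟩
  obtain ⟨n73, t232⟩ : ∃ b, n14 * b = x := ⟨_, Lp.mul_ldiv _ _⟩
  obtain ⟨n74, t235⟩ : ∃ c, n72 * n73 = c := ⟨_, rfl⟩
  obtain ⟨n75, t238⟩ : ∃ a, a * x = n74 := ⟨_, Lp.div_mul' _ _⟩
  obtain ⟨n77, t244⟩ : ∃ c, n75 * G = c := ⟨_, rfl⟩
  obtain ⟨n223, t737⟩ : ∃ c, n70 * n73 = c := ⟨_, rfl⟩
  have t740 : n17 * x = n223 := nll hL t52 (rt t222 rfl (m36) rfl) t737 (rt t232 (m36) rfl rfl)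
  have m51 : n72 = n30 := ma t229 t102 rfl (m50.symm)
  have m105 : n30 = n70 := ma t102 t225 rfl (m50.trans ((m94.symm).trans ((m60.symm).trans (m5))))
  have m106 : n74 = n223 := mc t235 t737 (m51.trans (m105)) rfl
  have m107 : n17 = n75 := ma t740 t238 rfl (m106.symm)
  have m108 : n289 = n77 := mc t962 t244 (m107) (m80)
  have t1063 : n17 * n17 = n226 := nll hL t52 t1031 (rt t747 (m104.trans (m109)) rfl rfl) t741
  have m117 : n227 = n17 := ma t750 t1063 rfl rfl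
  have m118 : n77 = n229 := mc t244 t756 ((m107.symm).trans (m117.symm)) (m115.symm)
  have m119 : n101 = n230 := mb t959 t759 rfl (m108.trans (m118))
  have t763 : (1 : Q) * n231 = n231 := Lp.one_mul' _
  have t474 : (1 : Q) * n146 = n146 := Lp.one_mul' _
  have t742 : (1 : Q) * n224 = n224 := Lp.one_mul' _
  have t765 : (1 : Q) * n230 = n231 := ufr hU (rt t474 rfl (m23) rfl) t744 t747 t750 t742 t753 t756 t759 t762
  have m61 : n231 = n230 := mb t763 t765 rfl rfl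
  have m120 : G = n228 := ma t55 t762 (m115.symm) (m78.trans (m119.trans (m61.symm)))
  have t27 : (1 : Q) * n9 = n9 := Lp.one_mul' _
  have t28 : n9 * (1 : Q) = n9 := Lp.mul_one' _
  have t1077 : (1 : Q) * n322 = n13 := ufr hU (rt t1023 rfl (m93.symm) rfl) (rt t202 (m40.symm) rfl (m41.symm)) t26 (rt t755 rfl rfl (m120.symm)) t27 t28 (rt t77 (m120) (m37.symm) rfl) t1074 (rt t38 rfl (m37.symm) rfl)
  have m124 : n13 = n322 := mb t39 t1077 rfl rfl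
  have m125 : n165 = X := ma t540 t1074 (m124) rfl
  have m126 : n163 = n25 := mc t534 t1074 rfl (m124)
  have m127 : x = n164 := mb t77 t537 rfl (m126.symm)
  have m128 : n64 = n167 := mc t202 t546 ((m40.symm).trans (m125.symm)) (m37.trans (m127))
  have t15 : n5 * (1 : Q) = n5 := Lp.mul_one' _
  obtain ⟨n168, t549⟩ : ∃ b, G * b = n167 := ⟨_, Lp.mul_ldiv _ _⟩
  have t550 : (1 : Q) * n168 = n168 := Lp.one_mul' _
  have m129 : g = n168 := mb t12 t549 rfl (m41.trans (m128))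
  have t551 : n168 * (1 : Q) = n168 := Lp.mul_one' _
  have t1125 : (1 : Q) * n336 = n215 := ufr hU (rt t548 ((m128.symm).trans (m41.symm)) rfl rfl) (rt t3 rfl rfl (m41.trans (m128))) t13 t15 (rt t550 rfl (m129.symm) rfl) t551 t1043 t1122 (rt t710 (m129) rfl rfl)
  have m132 : n215 = n336 := mb t711 t1125 rfl rfl
  have m133 : n314 = x := ma t1046 t1122 (m132) rfl
  have m134 : n311 = n313 := mc t1037 t1122 rfl (m132)
  have m135 : X = n312 := mb t1043 t1040 rfl (m134.symm)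
  have m136 : (1 : Q) = n316 := mc t3 t1052 (m133.symm) (m135)
  have m137 : n6 = n317 := mb t16 t1055 rfl (m136)
  obtain ⟨n88, t279⟩ : ∃ c, x * G = c := ⟨_, rfl⟩
  obtain ⟨n237, t783⟩ : ∃ c, n88 * X = c := ⟨_, rfl⟩
  obtain ⟨n238, t786⟩ : ∃ b, x * b = n237 := ⟨_, Lp.mul_ldiv _ _⟩
  obtain ⟨n315, t1049⟩ : ∃ a, a * n215 = (1 : Q) := ⟨_, Lp.div_mul' _ _⟩
  obtain ⟨n318, t1058⟩ : ∃ c, n315 * n312 = c := ⟨_, rfl⟩
  have t1061 : x * n317 = n318 := ufr hU t1037 t1040 t1043 t1046 t3 t1049 t1052 t1055 t1058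
  have t1050 : (1 : Q) * n315 = n315 := Lp.one_mul' _
  obtain ⟨n325, t1085⟩ : ∃ b, n215 * b = (1 : Q) := ⟨_, Lp.mul_ldiv _ _⟩
  have t712 : n215 * (1 : Q) = n215 := Lp.mul_one' _
  have t1051 : n315 * (1 : Q) = n315 := Lp.mul_one' _
  have t1092 : (1 : Q) * n325 = n315 := ufr hU t711 t712 t712 t711 (rt t548 ((m128.symm).trans (m41.symm)) rfl rfl) (rt t1049 rfl rfl (m41.trans (m128))) (rt t548 ((m128.symm).trans (m41.symm)) rfl rfl) (rt t1085 rfl rfl (m41.trans (m128))) t1051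
  have m131 : n315 = n325 := mb t1050 t1092 rfl rfl
  obtain ⟨n159, t519⟩ : ∃ a, a * n22 = (1 : Q) := ⟨_, Lp.div_mul' _ _⟩
  obtain ⟨n326, t1088⟩ : ∃ c, n159 * G = c := ⟨_, rfl⟩
  obtain ⟨n216, t713⟩ : ∃ c, n215 * G = c := ⟨_, rfl⟩
  obtain ⟨n217, t716⟩ : ∃ b, g * b = n216 := ⟨_, Lp.mul_ldiv _ _⟩
  have t69 : (1 : Q) * n22 = n22 := Lp.one_mul' _
  have t197 : (1 : Q) * n62 = n62 := Lp.one_mul' _
  have t198 : n62 * (1 : Q) = n62 := Lp.mul_one' _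
  have t719 : (1 : Q) * n217 = n22 := ufr hU (rt t101 (m49.symm) rfl rfl) (rt t9 rfl rfl (m49)) t710 t712 (rt t197 rfl (m40.symm) rfl) t198 t713 t716 (rt t68 (m40) rfl rfl)
  have m59 : n22 = n217 := mb t69 t719 rfl rfl
  have t1091 : g * n325 = n326 := ufr hU (rt t716 rfl (m59.symm) rfl) t713 t713 (rt t716 rfl (m59.symm) rfl) t9 t519 t9 t1085 t1088
  obtain ⟨n85, t270⟩ : ∃ c, g * x = c := ⟨_, rfl⟩
  obtain ⟨n86, t273⟩ : ∃ c, n85 * G = c := ⟨_, rfl⟩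
  obtain ⟨n87, t276⟩ : ∃ b, g * b = n86 := ⟨_, Lp.mul_ldiv _ _⟩
  have t271 : (1 : Q) * n85 = n85 := Lp.one_mul' _
  obtain ⟨n135, t436⟩ : ∃ c, X * g = c := ⟨_, rfl⟩
  obtain ⟨n136, t439⟩ : ∃ c, n135 * x = c := ⟨_, rfl⟩
  obtain ⟨n137, t442⟩ : ∃ b, X * b = n136 := ⟨_, Lp.mul_ldiv _ _⟩
  have t438 : n135 * (1 : Q) = n135 := Lp.mul_one' _
  have t445 : (1 : Q) * n137 = n85 := ufr hU (rt t363 rfl (m12.symm) rfl) t6 t436 t438 t7 t8 t439 t442 t270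
  have m15 : n85 = n137 := mb t271 t445 rfl rfl
  obtain ⟨n99, t317⟩ : ∃ b, n22 * b = (1 : Q) := ⟨_, Lp.mul_ldiv _ _⟩
  obtain ⟨n100, t320⟩ : ∃ c, n98 * x = c := ⟨_, rfl⟩
  have t323 : X * n99 = n100 := ufr hU (rt t74 rfl (m1.symm) rfl) t71 t71 (rt t74 rfl (m1.symm) rfl) t6 t314 t6 t317 t320
  obtain ⟨n92, t293⟩ : ∃ c, X * n8 = c := ⟨_, rfl⟩
  obtain ⟨n378, t1270⟩ : ∃ c, n92 * n164 = c := ⟨_, rfl⟩
  obtain ⟨n379, t1273⟩ : ∃ b, X * b = n378 := ⟨_, Lp.mul_ldiv _ _⟩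
  obtain ⟨n147, t476⟩ : ∃ a, a * n17 = n143 := ⟨_, Lp.div_mul' _ _⟩
  obtain ⟨n144, t467⟩ : ∃ b, n142 * b = n17 := ⟨_, Lp.mul_ldiv _ _⟩
  obtain ⟨n150, t485⟩ : ∃ c, n147 * n144 = c := ⟨_, rfl⟩
  obtain ⟨n232, t766⟩ : ∃ a, a * X = n19 := ⟨_, Lp.div_mul' _ _⟩
  obtain ⟨n234, t772⟩ : ∃ c, n232 * G = c := ⟨_, rfl⟩
  obtain ⟨n360, t1205⟩ : ∃ c, n70 * n234 = c := ⟨_, rfl⟩
  obtain ⟨n367, t1230⟩ : ∃ c, n360 * g = c := ⟨_, rfl⟩
  have m87 : n162 = n289 := mc t533 t962 rfl (m80.symm)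
  obtain ⟨n233, t769⟩ : ∃ b, n122 * b = n19 := ⟨_, Lp.mul_ldiv _ _⟩
  have t773 : (1 : Q) * n234 = n234 := Lp.one_mul' _
  have t775 : (1 : Q) * n233 = n234 := ufr hU (rt t197 rfl (m40.symm) rfl) (rt t403 rfl rfl (m35.trans (m40))) t403 (rt t197 rfl (m40.symm) ((m40.symm).trans (m35.symm))) (rt t59 rfl (m13) rfl) t766 (rt t59 rfl (m13) rfl) t769 t772
  have m62 : n234 = n233 := mb t773 t775 rfl rfl
  have t1208 : n17 * n19 = n360 := nll hL t52 (rt t222 rfl (m36) rfl) t1205 (rt t769 rfl (m62.symm) rfl)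
  have m149 : n229 = n360 := mc t756 t1208 (m117) (m115.trans (m13.symm))
  have t1232 : n367 * (1 : Q) = n367 := Lp.mul_one' _
  have t1233 : n17 * n167 = n367 := nll hL t52 (rt t1208 rfl (m13) rfl) t1230 (rt t549 rfl (m129.symm) rfl)
  have m153 : n367 = n17 := ma t1232 t1233 (m41.trans (m128)) rfl
  have m154 : n144 = g := mb t467 t1230 (m22.trans (m87.trans (m108.trans (m118.trans (m149))))) (m153.symm)
  obtain ⟨n148, t479⟩ : ∃ c, n146 * n144 = c := ⟨_, rfl⟩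
  obtain ⟨n149, t482⟩ : ∃ b, n142 * b = n148 := ⟨_, Lp.mul_ldiv _ _⟩
  have m155 : n128 = n148 := mc t1031 t479 (m23.symm) (m154.symm)
  have m156 : n36 = n149 := mb t589 t482 (m22.symm) (m104.trans (m109.trans (m155)))
  have t486 : (1 : Q) * n150 = n150 := Lp.one_mul' _
  have t53 : (1 : Q) * n17 = n17 := Lp.one_mul' _
  have t465 : (1 : Q) * n143 = n143 := Lp.one_mul' _
  have t488 : (1 : Q) * n149 = n150 := ufr hU t53 t467 t470 t473 t465 t476 t479 t482 t485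
  have m17 : n150 = n149 := mb t486 t488 rfl rfl
  have m157 : g = n147 := ma t384 t485 ((m46.symm).trans (m154.symm)) ((m45.symm).trans (m156.trans (m17.symm)))
  have t477 : (1 : Q) * n147 = n147 := Lp.one_mul' _
  have t1054 : n316 * (1 : Q) = n316 := Lp.mul_one' _
  have m68 : n8 = n113 := ma t23 t836 rfl ((m29.symm).trans (m33.trans (m48.trans (m67))))
  have t295 : n92 * (1 : Q) = n92 := Lp.mul_one' _
  obtain ⟨n350, t1170⟩ : ∃ b, n85 * b = n168 := ⟨_, Lp.mul_ldiv _ _⟩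
  obtain ⟨n352, t1176⟩ : ∃ c, g * n350 = c := ⟨_, rfl⟩
  have t1177 : (1 : Q) * n352 = n352 := Lp.one_mul' _
  obtain ⟨n270, t894⟩ : ∃ a, a * x = n48 := ⟨_, Lp.div_mul' _ _⟩
  obtain ⟨n373, t1250⟩ : ∃ c, n150 * n270 = c := ⟨_, rfl⟩
  obtain ⟨n374, t1253⟩ : ∃ c, n373 * x = c := ⟨_, rfl⟩
  have t598 : n182 * (1 : Q) = n182 := Lp.mul_one' _
  have t666 : n28 * n25 = n85 := nll hL (rt t384 rfl (m46.symm) rfl) t96 (rt t270 ((m29.symm).trans (m33.trans (m48))) rfl rfl) t77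
  have m54 : n182 = n85 := mc t596 t666 (m45) rfl
  have t478 : n147 * (1 : Q) = n147 := Lp.mul_one' _
  have t1255 : n374 * (1 : Q) = n374 := Lp.mul_one' _
  obtain ⟨n34, t106⟩ : ∃ a, a * x = G := ⟨_, Lp.div_mul' _ _⟩
  obtain ⟨n35, t109⟩ : ∃ b, n25 * b = n34 := ⟨_, Lp.mul_ldiv _ _⟩
  obtain ⟨n278, t922⟩ : ∃ c, n182 * n35 = c := ⟨_, rfl⟩
  have t925 : n28 * n34 = n278 := nll hL (rt t384 rfl (m46.symm) rfl) (rt t596 (m45) rfl rfl) t922 t109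
  have t1256 : n150 * n48 = n374 := nll hL (rt t485 (m157.symm) (m154) rfl) t1250 t1253 t894
  have m14 : n34 = n48 := ma t106 t154 rfl ((m13.symm).trans (m2))
  have m160 : n278 = n374 := mc t925 t1256 ((m45.symm).trans (m156.trans (m17.symm))) (m14)
  have m74 : n113 = n278 := mc t364 t925 (m45) (m14.symm)
  have t1257 : g * n350 = n374 := ufr hU t270 (rt t598 (m54) rfl (m54)) (rt t598 (m54) rfl rfl) (rt t270 rfl rfl (m54.symm)) (rt t478 (m157.symm) rfl rfl) (rt t836 rfl rfl ((m67.symm).trans ((m48.symm).trans ((m33.symm).trans (m29.trans (m157)))))) (rt t478 (m157.symm) rfl rfl) (rt t1170 rfl rfl ((m129.symm).trans (m157))) (rt t1255 ((m160.symm).trans (m74.symm)) rfl rfl)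
  have m163 : n352 = n374 := mc t1176 t1257 rfl rfl
  have t1178 : n352 * (1 : Q) = n352 := Lp.mul_one' _
  have t1276 : (1 : Q) * n379 = n253 := ufr hU (rt t1054 (m136.symm) rfl rfl) (rt t546 (m125) rfl ((m128.symm).trans ((m41.symm).trans (m136)))) (rt t293 rfl (m68) rfl) t295 (rt t1177 rfl (m163.trans ((m160.symm).trans (m74.symm))) rfl) t1178 t1270 t1273 (rt t836 (m74.trans (m160.trans (m163.symm))) (m127) rfl)
  have m166 : n147 = n379 := mb t477 t1276 rfl ((m157.symm).trans ((m29.symm).trans (m33.trans (m48.trans (m67)))))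
  have m167 : n135 = n378 := mc t436 t1273 rfl (m157.trans (m166))
  obtain ⟨n351, t1173⟩ : ∃ a, a * g = n98 := ⟨_, Lp.div_mul' _ _⟩
  obtain ⟨n354, t1182⟩ : ∃ c, n351 * n350 = c := ⟨_, rfl⟩
  obtain ⟨n10, t29⟩ : ∃ c, n8 * n8 = c := ⟨_, rfl⟩
  obtain ⟨n50, t158⟩ : ∃ a, a * n8 = (1 : Q) := ⟨_, Lp.div_mul' _ _⟩
  obtain ⟨n51, t161⟩ : ∃ c, n10 * n50 = c := ⟨_, rfl⟩
  obtain ⟨n249, t822⟩ : ∃ b, g * b = n51 := ⟨_, Lp.mul_ldiv _ _⟩
  obtain ⟨n372, t1246⟩ : ∃ c, X * n249 = c := ⟨_, rfl⟩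
  obtain ⟨n52, t164⟩ : ∃ c, n51 * n8 = c := ⟨_, rfl⟩
  have t166 : n52 * (1 : Q) = n52 := Lp.mul_one' _
  have t167 : n10 * (1 : Q) = n52 := nll hL t29 t161 t164 t158
  have m3 : n52 = n10 := ma t166 t167 rfl rfl
  have m4 : n8 = n51 := ma t29 t164 rfl (m3.symm)
  have m162 : n249 = n350 := mb t822 t1257 rfl ((m4.symm).trans (m68.trans (m74.trans (m160))))
  have t1183 : (1 : Q) * n354 = n354 := Lp.one_mul' _
  obtain ⟨n353, t1179⟩ : ∃ b, n85 * b = n352 := ⟨_, Lp.mul_ldiv _ _⟩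
  have t1185 : (1 : Q) * n353 = n354 := ufr hU (rt t550 rfl (m129.symm) rfl) t1170 (rt t599 (m54) rfl rfl) (rt t384 rfl (m46.symm) ((m45.symm).trans (m24.symm))) (rt t449 rfl (m16.symm) rfl) t1173 t1176 t1179 t1182
  have m141 : n354 = n353 := mb t1183 t1185 rfl rfl
  have m164 : n35 = n353 := mb t922 t1179 (m54) (m160.trans (m163.symm))
  obtain ⟨n38, t118⟩ : ∃ c, n37 * n35 = c := ⟨_, rfl⟩
  obtain ⟨n368, t1234⟩ : ∃ c, g * n92 = c := ⟨_, rfl⟩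
  obtain ⟨n369, t1237⟩ : ∃ a, a * n113 = n368 := ⟨_, Lp.div_mul' _ _⟩
  obtain ⟨n370, t1240⟩ : ∃ c, n369 * n249 = c := ⟨_, rfl⟩
  obtain ⟨n371, t1243⟩ : ∃ b, g * b = n370 := ⟨_, Lp.mul_ldiv _ _⟩
  obtain ⟨n39, t121⟩ : ∃ c, G * n35 = c := ⟨_, rfl⟩
  have t124 : n36 * n39 = n38 := nll hL t112 t115 t118 t121
  obtain ⟨n53, t168⟩ : ∃ b, x * b = X := ⟨_, Lp.mul_ldiv _ _⟩
  obtain ⟨n54, t171⟩ : ∃ b, g * b = n53 := ⟨_, Lp.mul_ldiv _ _⟩
  obtain ⟨n262, t867⟩ : ∃ a, a * n53 = n54 := ⟨_, Lp.div_mul' _ _⟩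
  have t869 : n262 * (1 : Q) = n262 := Lp.mul_one' _
  obtain ⟨n105, t337⟩ : ∃ c, G * n104 = c := ⟨_, rfl⟩
  obtain ⟨n347, t1160⟩ : ∃ a, a * x = n105 := ⟨_, Lp.div_mul' _ _⟩
  obtain ⟨n349, t1166⟩ : ∃ b, G * b = n347 := ⟨_, Lp.mul_ldiv _ _⟩
  obtain ⟨n55, t174⟩ : ∃ c, X * X = c := ⟨_, rfl⟩
  obtain ⟨n259, t858⟩ : ∃ b, n220 * b = n55 := ⟨_, Lp.mul_ldiv _ _⟩
  obtain ⟨n265, t876⟩ : ∃ c, n262 * n259 = c := ⟨_, rfl⟩
  obtain ⟨n155, t503⟩ : ∃ c, n101 * x = c := ⟨_, rfl⟩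
  have t506 : n36 * n155 = n154 := nll hL t112 t497 t500 t503
  obtain ⟨n16, t48⟩ : ∃ b, n14 * b = (1 : Q) := ⟨_, Lp.mul_ldiv _ _⟩
  obtain ⟨n91, t289⟩ : ∃ c, G * n16 = c := ⟨_, rfl⟩
  obtain ⟨n15, t45⟩ : ∃ a, a * n14 = (1 : Q) := ⟨_, Lp.div_mul' _ _⟩
  obtain ⟨n188, t616⟩ : ∃ c, n37 * n15 = c := ⟨_, rfl⟩
  have t46 : (1 : Q) * n15 = n15 := Lp.one_mul' _
  have t43 : (1 : Q) * n14 = n14 := Lp.one_mul' _
  have t44 : n14 * (1 : Q) = n14 := Lp.mul_one' _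
  have t47 : n15 * (1 : Q) = n15 := Lp.mul_one' _
  have t51 : (1 : Q) * n16 = n15 := ufr hU t43 t44 t44 t43 t0 t45 t0 t48 t47
  have m0 : n15 = n16 := mb t46 t51 rfl rfl
  have t619 : n36 * n91 = n188 := nll hL t112 t115 t616 (rt t289 rfl (m0.symm) rfl)
  obtain ⟨n321, t1070⟩ : ∃ c, n107 * n73 = c := ⟨_, rfl⟩
  obtain ⟨n339, t1133⟩ : ∃ c, n107 * n314 = c := ⟨_, rfl⟩
  obtain ⟨n269, t890⟩ : ∃ c, n222 * n58 = c := ⟨_, rfl⟩
  have t893 : n17 * n61 = n269 := nll hL t52 t736 t890 (rt t196 (m40.symm) rfl rfl)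
  obtain ⟨n156, t507⟩ : ∃ a, a * n40 = x := ⟨_, Lp.div_mul' _ _⟩
  have t509 : n156 * (1 : Q) = n156 := Lp.mul_one' _
  have t510 : x * n58 = n156 := ufr hU t125 (rt t360 rfl rfl (m13)) (rt t360 rfl (m12.symm) rfl) (rt t125 rfl rfl (m13.symm)) t2 t507 (rt t2 rfl (m12) rfl) t184 (rt t509 rfl (m12) rfl)
  have m96 : n156 = n269 := mc t510 t890 (m94.symm) rfl
  have m97 : n42 = n156 := ma t134 t507 rfl (m60.trans (m94))
  have m98 : n61 = n41 := mb t893 t131 rfl ((m96.symm).trans (m97.symm))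
  obtain ⟨n195, t641⟩ : ∃ c, n31 * n41 = c := ⟨_, rfl⟩
  obtain ⟨n340, t1136⟩ : ∃ c, n267 * n314 = c := ⟨_, rfl⟩
  have m101 : g = n221 := ma t334 t733 rfl (m94.symm)
  have t1047 : (1 : Q) * n314 = n314 := Lp.one_mul' _
  have t1134 : (1 : Q) * n339 = n339 := Lp.one_mul' _
  have t1139 : g * n339 = n340 := ufr hU (rt t733 (m101.symm) rfl rfl) (rt t1047 rfl rfl (m133.trans (m94.symm))) (rt t1054 (m136.symm) rfl rfl) (rt t343 rfl rfl (m136)) (rt t551 (m129.symm) rfl rfl) (rt t886 rfl rfl ((m70.symm).trans ((m67.symm).trans ((m48.symm).trans ((m33.symm).trans (m29.trans (m129))))))) t1133 t1134 t1136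
  obtain ⟨n115, t370⟩ : ∃ c, n48 * n58 = c := ⟨_, rfl⟩
  obtain ⟨n114, t367⟩ : ∃ c, n113 * n58 = c := ⟨_, rfl⟩
  have t373 : n36 * n115 = n114 := nll hL t112 t364 t367 t370
  obtain ⟨n196, t644⟩ : ∃ c, G * n41 = c := ⟨_, rfl⟩
  have t647 : n28 * n196 = n195 := nll hL (rt t384 rfl (m46.symm) rfl) t96 t641 t644
  obtain ⟨n152, t493⟩ : ∃ b, G * b = n115 := ⟨_, Lp.mul_ldiv _ _⟩
  have t188 : (1 : Q) * n59 = n59 := Lp.one_mul' _
  have t1 : (1 : Q) * x = x := Lp.one_mul' _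
  have t496 : (1 : Q) * n152 = n59 := ufr hU t1 t184 (rt t360 rfl (m12.symm) rfl) (rt t154 rfl rfl (m2.symm)) (rt t363 rfl (m12.symm) rfl) t6 t370 t493 t187
  have m18 : n59 = n152 := mb t188 t496 rfl rfl
  have m99 : n115 = n196 := mc t493 t644 rfl ((m18.symm).trans ((m39.symm).trans (m98)))
  have m100 : n114 = n195 := mc t373 t647 (m45) (m99)
  obtain ⟨n298, t989⟩ : ∃ c, n113 * g = c := ⟨_, rfl⟩
  obtain ⟨n299, t992⟩ : ∃ c, n298 * x = c := ⟨_, rfl⟩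
  obtain ⟨n300, t995⟩ : ∃ b, n113 * b = n299 := ⟨_, Lp.mul_ldiv _ _⟩
  have t991 : n298 * (1 : Q) = n298 := Lp.mul_one' _
  have t605 : n184 * (1 : Q) = n184 := Lp.mul_one' _
  have t998 : g * n300 = n120 := ufr hU (rt t614 (m81.symm) rfl rfl) (rt t836 rfl rfl ((m67.symm).trans ((m48.symm).trans ((m33.symm).trans (m29.trans (m81)))))) t989 t991 (rt t384 rfl (m46.symm) rfl) (rt t605 rfl rfl (m84.symm)) t992 t995 (rt t391 ((m32.symm).trans (m45.trans (m84))) rfl rfl)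
  have m88 : n58 = n300 := mb t388 t998 rfl rfl
  have m89 : n114 = n299 := mc t367 t995 rfl (m88)
  obtain ⟨n106, t340⟩ : ∃ a, a * n104 = g := ⟨_, Lp.div_mul' _ _⟩
  have m71 : n106 = n267 := ma t340 t886 rfl ((m29.symm).trans (m33.trans (m48.trans (m67.trans (m70)))))
  have m27 : n106 = n191 := ma t340 t630 rfl (m26.symm)
  obtain ⟨n96, t306⟩ : ∃ c, n37 * n95 = c := ⟨_, rfl⟩
  have m52 : n191 = n96 := mc t627 t306 (m29.symm) rfl
  obtain ⟨n337, t1126⟩ : ∃ c, n231 * n96 = c := ⟨_, rfl⟩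
  obtain ⟨n275, t912⟩ : ∃ c, n48 * g = c := ⟨_, rfl⟩
  have t1269 : n231 * n298 = n275 := nll hL (rt t762 (m120.symm) (m115) rfl) (rt t151 (m78.trans (m119.trans (m61.symm))) (m68) rfl) t912 t989
  obtain ⟨n338, t1129⟩ : ∃ c, n337 * n104 = c := ⟨_, rfl⟩
  have t1132 : n231 * n268 = n338 := nll hL (rt t762 (m120.symm) (m115) rfl) t1126 t1129 (rt t886 ((m71.symm).trans (m27.trans (m52))) rfl rfl)
  have m138 : n279 = n338 := mc t929 t1132 (m78.trans (m119.trans (m61.symm))) ((m29.symm).trans (m33.trans (m48.trans (m67.trans (m70)))))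
  have m139 : n266 = n337 := ma t880 t1129 rfl ((m13.symm).trans (m63.trans (m75.trans (m138))))
  obtain ⟨n97, t309⟩ : ∃ c, G * n95 = c := ⟨_, rfl⟩
  have t312 : n36 * n97 = n96 := nll hL t112 t115 t306 t309
  have m72 : n97 = n266 := mb t312 t883 (m45) ((m52.symm).trans ((m27.symm).trans (m71)))
  obtain ⟨n276, t915⟩ : ∃ b, G * b = n275 := ⟨_, Lp.mul_ldiv _ _⟩
  obtain ⟨n302, t1002⟩ : ∃ c, X * n95 = c := ⟨_, rfl⟩
  obtain ⟨n218, t720⟩ : ∃ a, a * x = n62 := ⟨_, Lp.div_mul' _ _⟩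
  obtain ⟨n277, t918⟩ : ∃ c, n218 * g = c := ⟨_, rfl⟩
  have t781 : n236 * (1 : Q) = n236 := Lp.mul_one' _
  have t921 : X * n276 = n277 := ufr hU (rt t202 (m40.symm) (m37) rfl) (rt t12 rfl rfl (m41)) (rt t781 ((m63.symm).trans (m13)) rfl rfl) (rt t154 rfl rfl ((m2.symm).trans (m63))) (rt t198 (m40.symm) rfl rfl) t720 t912 t915 t918
  obtain ⟨n301, t999⟩ : ∃ c, n222 * n95 = c := ⟨_, rfl⟩
  have t1005 : n17 * n302 = n301 := nll hL t52 t736 t999 t1002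
  obtain ⟨n56, t177⟩ : ∃ c, n55 * g = c := ⟨_, rfl⟩
  obtain ⟨n67, t212⟩ : ∃ a, a * G = n53 := ⟨_, Lp.div_mul' _ _⟩
  obtain ⟨n68, t215⟩ : ∃ c, n17 * n67 = c := ⟨_, rfl⟩
  obtain ⟨n69, t218⟩ : ∃ c, n68 * G = c := ⟨_, rfl⟩
  obtain ⟨n151, t489⟩ : ∃ c, n69 * g = c := ⟨_, rfl⟩
  have t221 : n17 * n53 = n69 := nll hL t52 t215 t218 t212
  have t175 : (1 : Q) * n55 = n55 := Lp.one_mul' _
  have t4 : (1 : Q) * X = X := Lp.one_mul' _
  have t5 : X * (1 : Q) = X := Lp.mul_one' _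
  have t313 : (1 : Q) * n53 = n55 := ufr hU t0 t3 t3 t0 t4 t5 t4 t168 t174
  have m10 : n55 = n53 := mb t175 t313 rfl rfl
  have t492 : n17 * n56 = n151 := nll hL t52 t221 t489 (rt t177 (m10) rfl rfl)
  have m95 : g = n301 := mc t303 t999 (m94.symm) rfl
  have t490 : (1 : Q) * n151 = n151 := Lp.one_mul' _
  obtain ⟨n247, t815⟩ : ∃ c, n180 * n54 = c := ⟨_, rfl⟩
  have t818 : n17 * n53 = n247 := nll hL t52 (rt t595 rfl (m58.trans ((m48.symm).trans ((m33.symm).trans (m29)))) rfl) t815 t171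
  obtain ⟨n139, t450⟩ : ∃ a, a * n53 = (1 : Q) := ⟨_, Lp.div_mul' _ _⟩
  obtain ⟨n202, t667⟩ : ∃ c, n55 * X = c := ⟨_, rfl⟩
  obtain ⟨n274, t908⟩ : ∃ a, a * n53 = n202 := ⟨_, Lp.div_mul' _ _⟩
  obtain ⟨n140, t453⟩ : ∃ b, n139 * b = X := ⟨_, Lp.mul_ldiv _ _⟩
  have t176 : n55 * (1 : Q) = n55 := Lp.mul_one' _
  have t456 : x * n140 = n55 := ufr hU t3 t450 t450 t3 t168 t4 t168 t453 t313
  have t670 : (1 : Q) * n140 = n202 := ufr hU (rt t101 (m49.symm) rfl rfl) (rt t3 rfl rfl (m49)) t168 (rt t198 rfl rfl (m40.symm)) t313 t176 (rt t174 (m40) rfl rfl) t456 t667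
  have t668 : (1 : Q) * n202 = n202 := Lp.one_mul' _
  have m55 : n202 = n140 := mb t668 t670 rfl rfl
  have t910 : n274 * (1 : Q) = n274 := Lp.mul_one' _
  have t909 : (1 : Q) * n274 = n274 := Lp.one_mul' _
  have t911 : n139 * n274 = n33 := ufr hU t450 (rt t101 (m49.symm) rfl (m49.symm)) (rt t670 rfl (m55.symm) rfl) t908 (rt t453 rfl (m55.symm) rfl) t168 t910 t909 (rt t105 rfl (m49.symm) rfl)
  obtain ⟨n219, t723⟩ : ∃ c, n218 * X = c := ⟨_, rfl⟩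
  have t103 : (1 : Q) * n33 = n33 := Lp.one_mul' _
  have t726 : X * n53 = n219 := ufr hU (rt t202 (m40.symm) (m37) rfl) (rt t3 rfl rfl (m41)) (rt t105 rfl (m49.symm) rfl) (rt t103 rfl (m50) rfl) (rt t198 (m40.symm) rfl rfl) t720 (rt t197 rfl (m40.symm) rfl) (rt t168 rfl rfl (m40)) t723
  obtain ⟨n381, t1281⟩ : ∃ b, X * b = n218 := ⟨_, Lp.mul_ldiv _ _⟩
  obtain ⟨n382, t1284⟩ : ∃ c, n381 * n164 = c := ⟨_, rfl⟩
  have t1286 : n382 * (1 : Q) = n382 := Lp.mul_one' _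
  obtain ⟨n111, t356⟩ : ∃ c, n13 * n92 = c := ⟨_, rfl⟩
  have t358 : n111 * (1 : Q) = n111 := Lp.mul_one' _
  obtain ⟨n93, t296⟩ : ∃ a, a * n92 = (1 : Q) := ⟨_, Lp.div_mul' _ _⟩
  obtain ⟨n94, t299⟩ : ∃ b, n92 * b = (1 : Q) := ⟨_, Lp.mul_ldiv _ _⟩
  obtain ⟨n166, t543⟩ : ∃ a, a * n13 = (1 : Q) := ⟨_, Lp.div_mul' _ _⟩
  obtain ⟨n169, t552⟩ : ∃ c, n166 * n164 = c := ⟨_, rfl⟩
  have t555 : X * n168 = n169 := ufr hU t534 t537 t77 t540 t6 t543 t546 t549 t552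
  have m130 : n135 = n169 := mc t436 t555 rfl (m129)
  have m168 : n166 = n92 := ma t552 t1270 rfl ((m130.symm).trans (m167))
  have m169 : n94 = n13 := mb t299 t543 (m168.symm) rfl
  have t297 : (1 : Q) * n93 = n93 := Lp.one_mul' _
  have t294 : (1 : Q) * n92 = n92 := Lp.one_mul' _
  have t298 : n93 * (1 : Q) = n93 := Lp.mul_one' _
  have t302 : (1 : Q) * n94 = n93 := ufr hU t294 t295 t295 t294 t0 t296 t0 t299 t298
  have m9 : n93 = n94 := mb t297 t302 rfl rfl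
  have m170 : n111 = (1 : Q) := mc t356 t296 ((m169.symm).trans (m9.symm)) rfl
  have t722 : n218 * (1 : Q) = n218 := Lp.mul_one' _
  have t1282 : (1 : Q) * n381 = n381 := Lp.one_mul' _
  have t1283 : n381 * (1 : Q) = n381 := Lp.mul_one' _
  have t1042 : n312 * (1 : Q) = n312 := Lp.mul_one' _
  have t1287 : (1 : Q) * (1 : Q) = n382 := ufr hU (rt t358 (m170) rfl rfl) (rt t546 (m125) rfl ((m128.symm).trans ((m41.symm).trans (m170.symm)))) t1281 t722 t1282 t1283 (rt t720 rfl (m127) rfl) (rt t1042 (m135.symm) rfl ((m135.symm).trans (m40))) t1284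
  have m175 : n382 = (1 : Q) := ma t1286 t1287 rfl rfl
  have m176 : n165 = n381 := ma t546 t1284 rfl ((m128.symm).trans ((m41.symm).trans (m175.symm)))
  have m177 : n55 = n218 := mc t174 t1281 rfl ((m125.symm).trans (m176))
  have m180 : n202 = n219 := mc t667 t723 (m177) rfl
  have m181 : n274 = X := ma t908 t726 rfl (m180)
  have m182 : n255 = n139 := ma t844 t911 (m181.symm) rfl
  have m183 : n247 = (1 : Q) := mc t818 t450 ((m103.symm).trans (m182)) rfl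
  have m66 : n69 = n247 := mc t221 t818 rfl rfl
  have m187 : n151 = g := mb t490 t489 ((m183.symm).trans (m66.symm)) rfl
  have m188 : n302 = n56 := mb t1005 t492 rfl ((m95.symm).trans (m187.symm))
  have m179 : n56 = n277 := mc t177 t918 (m177) rfl
  have m189 : n95 = n276 := mb t1002 t921 rfl (m188.trans (m179))
  have m190 : n97 = n275 := mc t309 t915 rfl (m189)
  have m191 : n96 = n298 := mb t1126 t1269 rfl ((m139.symm).trans ((m72.symm).trans (m190)))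
  have m193 : n340 = n299 := mc t1136 t992 ((m71.symm).trans (m27.trans (m52.trans (m191)))) (m133)
  have m194 : n41 = n339 := mb t641 t1139 ((m48.symm).trans ((m33.symm).trans (m29))) ((m100.symm).trans (m89.trans (m193.symm)))
  have m195 : n14 = n107 := ma t193 t1133 (m133.symm) (m98.trans (m194))
  have m196 : x = n321 := mc t232 t1070 (m195) rfl
  obtain ⟨n319, t1064⟩ : ∃ c, n220 * n73 = c := ⟨_, rfl⟩
  obtain ⟨n320, t1067⟩ : ∃ b, n122 * b = n319 := ⟨_, Lp.mul_ldiv _ _⟩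
  have t1073 : g * n320 = n321 := ufr hU (rt t733 (m101.symm) rfl rfl) (rt t232 (m36) rfl (m94.symm)) t403 (rt t727 rfl rfl (m35.symm)) t9 t343 t1064 t1067 t1070
  obtain ⟨n297, t985⟩ : ∃ c, n113 * G = c := ⟨_, rfl⟩
  obtain ⟨n345, t1153⟩ : ∃ c, n297 * x = c := ⟨_, rfl⟩
  obtain ⟨n346, t1156⟩ : ∃ b, n113 * b = n345 := ⟨_, Lp.mul_ldiv _ _⟩
  have t987 : n297 * (1 : Q) = n297 := Lp.mul_one' _
  have t1159 : g * n346 = n314 := ufr hU (rt t551 (m129.symm) rfl rfl) (rt t836 rfl rfl ((m67.symm).trans ((m48.symm).trans ((m33.symm).trans (m29.trans (m129)))))) t985 t987 t9 (rt t1054 rfl rfl (m136.symm)) t1153 t1156 (rt t1047 (m136) (m133) rfl)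
  have m197 : n346 = n320 := mb t1159 t1073 rfl (m133.trans (m196))
  have m140 : n104 = n346 := mb t733 t1159 (m101.symm) (m94.trans (m133.symm))
  obtain ⟨n65, t205⟩ : ∃ b, n14 * b = n64 := ⟨_, Lp.mul_ldiv _ _⟩
  have m208 : n65 = n104 := mb t205 t343 (m195) (m41.symm)
  have m42 : n16 = n65 := mb t48 t205 rfl (m41)
  have m209 : n321 = n188 := mc t1073 t616 (m29.symm) ((m197.symm).trans ((m140.symm).trans ((m208.symm).trans ((m42.symm).trans (m0.symm)))))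
  have m210 : n155 = n91 := mb t506 t619 rfl (m86.trans (m196.trans (m209)))
  have m216 : n105 = n91 := mc t337 t289 rfl ((m208.symm).trans (m42.symm))
  have m217 : n101 = n347 := ma t503 t1160 rfl (m210.trans (m216.symm))
  have m218 : n225 = n349 := mb t762 t1166 (m120.symm) (m61.trans ((m119.symm).trans (m217)))
  have m102 : n302 = n220 := mb t1005 t730 rfl ((m95.symm).trans (m101))
  have m236 : g = n68 := ma t9 t218 rfl ((m183.symm).trans (m66.symm))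
  have m237 : n56 = n67 := mb t492 t215 rfl (m187.trans (m236))
  have m238 : n259 = G := mb t858 t212 ((m102.symm).trans (m188.trans (m237))) (m10)
  obtain ⟨n377, t1265⟩ : ∃ c, n56 * n101 = c := ⟨_, rfl⟩
  obtain ⟨n260, t861⟩ : ∃ c, n220 * n54 = c := ⟨_, rfl⟩
  obtain ⟨n261, t864⟩ : ∃ a, a * n53 = n260 := ⟨_, Lp.div_mul' _ _⟩
  obtain ⟨n263, t870⟩ : ∃ c, n261 * n259 = c := ⟨_, rfl⟩
  obtain ⟨n264, t873⟩ : ∃ b, n220 * b = n263 := ⟨_, Lp.mul_ldiv _ _⟩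
  obtain ⟨n309, t1027⟩ : ∃ c, n53 * G = c := ⟨_, rfl⟩
  have t1268 : n55 * n186 = n377 := nll hL t174 t177 t1265 (rt t612 (m81.symm) rfl rfl)
  have m165 : n309 = n377 := mc t1027 t1268 (m10.symm) (m80.symm)
  obtain ⟨n376, t1261⟩ : ∃ c, n218 * G = c := ⟨_, rfl⟩
  have m178 : n309 = n376 := mc t1027 t1261 ((m10.symm).trans (m177)) rfl
  obtain ⟨n57, t180⟩ : ∃ c, n56 * n54 = c := ⟨_, rfl⟩
  have t183 : n55 * n53 = n57 := nll hL t174 t177 t180 t171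
  have m234 : n260 = n57 := mc t861 t180 ((m102.symm).trans (m188)) rfl
  have m235 : n55 = n261 := ma t183 t864 rfl (m234.symm)
  have m239 : n376 = n263 := mc t1261 t870 ((m177.symm).trans (m235)) (m238.symm)
  have m240 : n101 = n264 := mb t1265 t873 ((m188.symm).trans (m102)) ((m165.symm).trans (m178.trans (m239)))
  have t877 : (1 : Q) * n265 = n265 := Lp.one_mul' _
  have t172 : (1 : Q) * n54 = n54 := Lp.one_mul' _
  have t879 : (1 : Q) * n264 = n265 := ufr hU t313 t858 t861 t864 t172 t867 t870 t873 t876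
  have m69 : n265 = n264 := mb t877 t879 rfl rfl
  have m241 : G = n262 := ma t1166 t876 ((m218.symm).trans (m115.trans (m238.symm))) ((m217.symm).trans (m240.trans (m69.symm)))
  obtain ⟨n271, t897⟩ : ∃ b, G * b = n48 := ⟨_, Lp.mul_ldiv _ _⟩
  obtain ⟨n355, t1186⟩ : ∃ a, a * n271 = n338 := ⟨_, Lp.div_mul' _ _⟩
  have t153 : n48 * (1 : Q) = n48 := Lp.mul_one' _
  have t1131 : n338 * (1 : Q) = n338 := Lp.mul_one' _
  have t1188 : n355 * (1 : Q) = n355 := Lp.mul_one' _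
  have t1189 : G * x = n355 := ufr hU t897 t153 t153 t897 (rt t1131 ((m138.symm).trans ((m75.symm).trans ((m63.symm).trans (m13)))) rfl rfl) t1186 (rt t1131 ((m138.symm).trans ((m75.symm).trans ((m63.symm).trans (m13)))) rfl rfl) (rt t154 rfl rfl ((m2.symm).trans (m63.trans (m75.trans (m138))))) t1188
  have m142 : n163 = n355 := mc t537 t1189 rfl (m127.symm)
  have t896 : n270 * (1 : Q) = n270 := Lp.mul_one' _
  have t900 : n48 * n271 = n270 := ufr hU t154 (rt t781 ((m63.symm).trans (m13)) rfl ((m63.symm).trans (m2))) (rt t781 ((m63.symm).trans (m13)) rfl rfl) (rt t154 rfl rfl ((m2.symm).trans (m63))) t153 t894 t153 t897 t896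
  have t1288 : G * n35 = n270 := ufr hU (rt t869 (m241.symm) rfl rfl) (rt t1186 rfl rfl ((m138.symm).trans ((m75.symm).trans ((m63.symm).trans (m13.trans (m241)))))) t1186 (rt t869 rfl rfl ((m241.symm).trans ((m13.symm).trans (m63.trans (m75.trans (m138)))))) t897 t153 (rt t897 (m241) rfl rfl) (rt t109 ((m126.symm).trans (m142)) rfl (m14)) t900
  have m272 : n39 = n270 := mc t121 t1288 rfl rfl
  have m273 : n373 = n38 := mc t1250 t124 (m17.trans (m156.symm)) (m272.symm)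
  obtain ⟨n248, t819⟩ : ∃ a, a * x = n51 := ⟨_, Lp.div_mul' _ _⟩
  have m161 : n248 = n373 := ma t819 t1253 rfl ((m4.symm).trans (m68.trans (m74.trans (m160))))
  have t594 : n181 * (1 : Q) = n181 := Lp.mul_one' _
  have t163 : n51 * (1 : Q) = n51 := Lp.mul_one' _
  have t821 : n248 * (1 : Q) = n248 := Lp.mul_one' _
  have t825 : n8 * n249 = n248 := ufr hU t23 (rt t594 (m58.trans ((m48.symm).trans ((m33.symm).trans (m29)))) rfl (m58.trans ((m48.symm).trans ((m33.symm).trans (m29))))) (rt t594 (m58.trans ((m48.symm).trans ((m33.symm).trans (m29)))) rfl rfl) (rt t23 rfl rfl ((m29.symm).trans (m33.trans (m48.trans (m58.symm))))) (rt t163 (m4.symm) rfl rfl) t819 (rt t163 (m4.symm) rfl rfl) t822 t821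
  obtain ⟨n11, t32⟩ : ∃ c, n10 * n9 = c := ⟨_, rfl⟩
  obtain ⟨n12, t35⟩ : ∃ c, n11 * x = c := ⟨_, rfl⟩
  obtain ⟨n110, t353⟩ : ∃ c, n12 * n92 = c := ⟨_, rfl⟩
  have t355 : n110 * (1 : Q) = n110 := Lp.mul_one' _
  have t41 : n10 * n13 = n12 := nll hL t29 t32 t35 t38
  have t359 : n52 * n111 = n110 := nll hL (rt t164 (m4.symm) rfl rfl) (rt t41 (m3.symm) rfl rfl) t353 t356
  have m171 : n110 = n52 := ma t355 t359 (m170.symm) rfl
  obtain ⟨n334, t1115⟩ : ∃ b, n113 * b = n167 := ⟨_, Lp.mul_ldiv _ _⟩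
  obtain ⟨n333, t1112⟩ : ∃ a, a * n126 = n167 := ⟨_, Lp.div_mul' _ _⟩
  obtain ⟨n335, t1118⟩ : ∃ c, n333 * x = c := ⟨_, rfl⟩
  have t1121 : X * n334 = n335 := ufr hU t407 (rt t836 rfl rfl ((m67.symm).trans ((m48.symm).trans ((m33.symm).trans (m29))))) t836 (rt t407 rfl rfl ((m29.symm).trans (m33.trans (m48.trans (m67))))) (rt t546 (m125) (m127.symm) rfl) t1112 (rt t546 (m125) (m127.symm) rfl) t1115 t1118
  obtain ⟨n80, t254⟩ : ∃ c, n34 * n29 = c := ⟨_, rfl⟩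
  obtain ⟨n82, t260⟩ : ∃ c, n80 * x = c := ⟨_, rfl⟩
  obtain ⟨n83, t263⟩ : ∃ b, n34 * b = n82 := ⟨_, Lp.mul_ldiv _ _⟩
  obtain ⟨n197, t648⟩ : ∃ c, G * n126 = c := ⟨_, rfl⟩
  obtain ⟨n81, t257⟩ : ∃ c, G * n29 = c := ⟨_, rfl⟩
  obtain ⟨n84, t266⟩ : ∃ c, n81 * x = c := ⟨_, rfl⟩
  have t256 : n80 * (1 : Q) = n80 := Lp.mul_one' _
  have t259 : n81 * (1 : Q) = n81 := Lp.mul_one' _
  have t269 : G * n83 = n84 := ufr hU t11 t106 t254 t256 t257 t259 t260 t263 t266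
  obtain ⟨n127, t410⟩ : ∃ c, g * n126 = c := ⟨_, rfl⟩
  have t651 : n28 * n197 = n127 := nll hL (rt t384 rfl (m46.symm) rfl) t96 (rt t410 ((m29.symm).trans (m33.trans (m48))) rfl rfl) t648
  obtain ⟨n252, t832⟩ : ∃ c, n232 * n26 = c := ⟨_, rfl⟩
  obtain ⟨n357, t1193⟩ : ∃ c, n252 * x = c := ⟨_, rfl⟩
  obtain ⟨n250, t826⟩ : ∃ c, n28 * n232 = c := ⟨_, rfl⟩
  obtain ⟨n251, t829⟩ : ∃ c, n250 * n26 = c := ⟨_, rfl⟩
  obtain ⟨n356, t1190⟩ : ∃ c, n251 * x = c := ⟨_, rfl⟩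
  have t835 : n28 * n252 = n251 := nll hL (rt t384 rfl (m46.symm) rfl) t826 t829 t832
  have t1196 : n28 * n357 = n356 := nll hL (rt t384 rfl (m46.symm) rfl) t835 t1190 t1193
  obtain ⟨n47, t147⟩ : ∃ c, n44 * g = c := ⟨_, rfl⟩
  obtain ⟨n46, t144⟩ : ∃ c, n45 * g = c := ⟨_, rfl⟩
  have t150 : n18 * n47 = n46 := nll hL t55 t141 t144 t147
  have t857 : n18 * n127 = n197 := nll hL t55 t782 (rt t648 ((m13.symm).trans (m63)) rfl rfl) t410
  obtain ⟨n256, t847⟩ : ∃ c, n232 * g = c := ⟨_, rfl⟩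
  have m76 : n232 = n45 := ma t766 t926 rfl (m63.trans (m75))
  have m77 : n256 = n46 := mc t847 t144 (m76) rfl
  obtain ⟨n257, t850⟩ : ∃ b, G * b = n256 := ⟨_, Lp.mul_ldiv _ _⟩
  have t856 : x * n257 = n258 := ufr hU t3 t12 (rt t781 ((m63.symm).trans (m13)) rfl rfl) (rt t766 rfl rfl (m63)) (rt t105 rfl (m49.symm) rfl) t844 t847 t850 t853
  have m110 : n257 = n126 := mb t856 t413 rfl (m109)
  have m111 : n197 = n256 := mc t648 t850 rfl (m110.symm)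
  have m112 : n47 = n127 := mb t150 t857 rfl ((m77.symm).trans (m111.symm))
  obtain ⟨n117, t378⟩ : ∃ c, n44 * n26 = c := ⟨_, rfl⟩
  obtain ⟨n118, t381⟩ : ∃ a, a * X = n117 := ⟨_, Lp.div_mul' _ _⟩
  have t89 : n28 * (1 : Q) = n28 := Lp.mul_one' _
  have t383 : n118 * (1 : Q) = n118 := Lp.mul_one' _
  have t387 : n44 * n119 = n118 := ufr hU t138 t8 t84 t87 t378 t381 t89 t384 t383
  have m47 : n47 = n118 := mc t147 t387 rfl (m46)
  obtain ⟨n198, t652⟩ : ∃ b, n117 * b = n118 := ⟨_, Lp.mul_ldiv _ _⟩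
  obtain ⟨n303, t1006⟩ : ∃ c, n250 * X = c := ⟨_, rfl⟩
  have t1009 : n28 * n279 = n303 := nll hL (rt t384 rfl (m46.symm) rfl) (rt t826 rfl (m76) rfl) t1006 t926
  have m90 : n187 = n303 := mc t615 t1009 (m84.symm) (m83.trans ((m13.symm).trans (m63.trans (m75))))
  have m91 : n44 = n250 := ma t138 t1006 rfl (m81.trans (m90))
  have m92 : n117 = n251 := mc t378 t829 (m91) rfl
  obtain ⟨n208, t687⟩ : ∃ c, n48 * G = c := ⟨_, rfl⟩
  obtain ⟨n239, t790⟩ : ∃ c, n48 * n104 = c := ⟨_, rfl⟩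
  obtain ⟨n240, t793⟩ : ∃ b, n208 * b = n239 := ⟨_, Lp.mul_ldiv _ _⟩
  obtain ⟨n348, t1163⟩ : ∃ a, a * x = n239 := ⟨_, Lp.div_mul' _ _⟩
  have t1162 : n347 * (1 : Q) = n347 := Lp.mul_one' _
  have t1165 : n348 * (1 : Q) = n348 := Lp.mul_one' _
  have t1169 : n48 * n349 = n348 := ufr hU t154 (rt t1131 ((m138.symm).trans ((m75.symm).trans ((m63.symm).trans (m13)))) rfl ((m138.symm).trans ((m75.symm).trans ((m63.symm).trans (m2))))) (rt t337 rfl (m140) rfl) t1160 (rt t790 rfl (m140) rfl) t1163 t1162 t1166 t1165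
  have m219 : n208 = n348 := mc t687 t1169 rfl ((m115.symm).trans (m218))
  have m220 : n240 = x := mb t793 t1163 (m219) rfl
  obtain ⟨n133, t429⟩ : ∃ a, a * X = n47 := ⟨_, Lp.div_mul' _ _⟩
  have t380 : n117 * (1 : Q) = n117 := Lp.mul_one' _
  have t431 : n133 * (1 : Q) = n133 := Lp.mul_one' _
  have t655 : n118 * n198 = n133 := ufr hU t381 t380 t380 t381 t383 (rt t429 rfl rfl (m47)) t383 t652 t431
  obtain ⟨n243, t802⟩ : ∃ a, a * n239 = n33 := ⟨_, Lp.div_mul' _ _⟩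
  obtain ⟨n246, t811⟩ : ∃ c, n243 * n240 = c := ⟨_, rfl⟩
  obtain ⟨n171, t559⟩ : ∃ c, n47 * n104 = c := ⟨_, rfl⟩
  obtain ⟨n172, t562⟩ : ∃ a, a * n17 = n171 := ⟨_, Lp.div_mul' _ _⟩
  obtain ⟨n21, t64⟩ : ∃ c, g * n17 = c := ⟨_, rfl⟩
  obtain ⟨n170, t556⟩ : ∃ b, n47 * b = n21 := ⟨_, Lp.mul_ldiv _ _⟩
  obtain ⟨n174, t568⟩ : ∃ c, n172 * n170 = c := ⟨_, rfl⟩
  obtain ⟨n175, t571⟩ : ∃ b, n47 * b = n174 := ⟨_, Lp.mul_ldiv _ _⟩
  obtain ⟨n241, t796⟩ : ∃ c, n208 * x = c := ⟨_, rfl⟩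
  obtain ⟨n242, t799⟩ : ∃ a, a * n239 = n241 := ⟨_, Lp.div_mul' _ _⟩
  obtain ⟨n20, t61⟩ : ∃ c, n19 * n17 = c := ⟨_, rfl⟩
  obtain ⟨n292, t969⟩ : ∃ a, a * n20 = n280 := ⟨_, Lp.div_mul' _ _⟩
  obtain ⟨n290, t963⟩ : ∃ c, n30 * n20 = c := ⟨_, rfl⟩
  obtain ⟨n291, t966⟩ : ∃ b, n180 * b = n290 := ⟨_, Lp.mul_ldiv _ _⟩
  obtain ⟨n294, t975⟩ : ∃ c, n292 * n291 = c := ⟨_, rfl⟩
  have t976 : (1 : Q) * n294 = n294 := Lp.one_mul' _
  obtain ⟨n129, t416⟩ : ∃ c, n127 * n104 = c := ⟨_, rfl⟩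
  have m113 : n171 = n129 := mc t559 t416 (m112) rfl
  obtain ⟨n343, t1146⟩ : ∃ b, X * b = n314 := ⟨_, Lp.mul_ldiv _ _⟩
  obtain ⟨n341, t1140⟩ : ∃ c, g * n9 = c := ⟨_, rfl⟩
  obtain ⟨n342, t1143⟩ : ∃ a, a * G = n341 := ⟨_, Lp.div_mul' _ _⟩
  obtain ⟨n344, t1149⟩ : ∃ c, n342 * n164 = c := ⟨_, rfl⟩
  have t1130 : (1 : Q) * n338 = n338 := Lp.one_mul' _
  have t1152 : g * n343 = n344 := ufr hU t9 (rt t546 (m125) rfl ((m128.symm).trans (m41.symm))) t26 (rt t1130 rfl ((m138.symm).trans ((m75.symm).trans ((m63.symm).trans (m13)))) ((m138.symm).trans ((m75.symm).trans ((m63.symm).trans (m13))))) t1140 t1143 (rt t1047 rfl (m133.trans (m127)) rfl) t1146 t1149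
  obtain ⟨n130, t419⟩ : ∃ b, g * b = n129 := ⟨_, Lp.mul_ldiv _ _⟩
  obtain ⟨n131, t422⟩ : ∃ c, n128 * n104 = c := ⟨_, rfl⟩
  have t412 : n127 * (1 : Q) = n127 := Lp.mul_one' _
  have t415 : n128 * (1 : Q) = n128 := Lp.mul_one' _
  have t425 : x * n130 = n131 := ufr hU t2 t334 t410 t412 t413 t415 t416 t419 t422
  have t1041 : (1 : Q) * n312 = n312 := Lp.one_mul' _
  have t1048 : n314 * (1 : Q) = n314 := Lp.mul_one' _
  have t1062 : n17 * n222 = n131 := nll hL t52 t1031 t422 (rt t733 (m101.symm) rfl rfl)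
  have t1197 : x * n343 = n131 := ufr hU (rt t1052 (m133) (m135.symm) rfl) (rt t546 (m125) rfl ((m128.symm).trans ((m41.symm).trans (m136)))) (rt t1042 (m135.symm) rfl rfl) (rt t1041 rfl (m135.symm) rfl) (rt t1048 (m133) rfl rfl) (rt t844 rfl rfl (m50.trans (m133.symm))) (rt t1047 rfl (m133.trans (m127)) rfl) t1146 (rt t1062 (m103.symm) (m94.trans (m127)) rfl)
  have m143 : n130 = n343 := mb t425 t1197 rfl rfl
  have m144 : n344 = n129 := mc t1152 t419 rfl (m143.symm)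
  obtain ⟨n203, t671⟩ : ∃ c, n44 * x = c := ⟨_, rfl⟩
  obtain ⟨n358, t1198⟩ : ∃ c, n250 * G = c := ⟨_, rfl⟩
  obtain ⟨n359, t1201⟩ : ∃ b, g * b = n358 := ⟨_, Lp.mul_ldiv _ _⟩
  have t1204 : x * n359 = n229 := ufr hU (rt t1052 (m133) (m135.symm) rfl) (rt t9 rfl rfl (m136)) (rt t551 (m129.symm) rfl rfl) (rt t1006 rfl rfl ((m90.symm).trans ((m81.symm).trans (m129)))) (rt t1048 (m133) rfl rfl) (rt t844 rfl rfl (m50.trans (m133.symm))) t1198 t1201 (rt t756 (m117.trans (m103.symm)) (m115) rfl)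
  have m145 : n9 = n359 := mb t530 t1204 (m60.trans (m94)) (m87.trans (m108.trans (m118)))
  have m146 : n341 = n358 := mc t1140 t1201 rfl (m145)
  have m147 : n250 = n342 := ma t1198 t1143 rfl (m146.symm)
  have m148 : n203 = n344 := mc t671 t1149 (m91.trans (m147)) (m127)
  have t67 : n18 * n21 = n20 := nll hL t55 t58 t61 t64
  obtain ⟨n76, t241⟩ : ∃ a, a * x = n73 := ⟨_, Lp.div_mul' _ _⟩
  obtain ⟨n79, t250⟩ : ∃ c, n76 * G = c := ⟨_, rfl⟩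
  obtain ⟨n78, t247⟩ : ∃ b, n72 * b = n77 := ⟨_, Lp.mul_ldiv _ _⟩
  have m150 : n78 = n234 := mb t247 t1205 (m51.trans (m105)) (m118.trans (m149))
  have t251 : (1 : Q) * n79 = n79 := Lp.one_mul' _
  have t233 : (1 : Q) * n73 = n73 := Lp.one_mul' _
  have t253 : (1 : Q) * n78 = n79 := ufr hU t1 t229 t235 t238 t233 t241 t244 t247 t250
  have m6 : n79 = n78 := mb t251 t253 rfl rfl
  have m151 : n232 = n76 := ma t772 t250 rfl ((m150.symm).trans (m6.symm))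
  have t1229 : n231 * n203 = n73 := nll hL (rt t762 (m120.symm) (m115) rfl) (rt t141 (m78.trans (m119.trans (m61.symm))) (m91) rfl) (rt t241 ((m151.symm).trans (m76)) rfl rfl) (rt t671 (m91) rfl rfl)
  obtain ⟨n304, t1010⟩ : ∃ b, g * b = X := ⟨_, Lp.mul_ldiv _ _⟩
  obtain ⟨n361, t1210⟩ : ∃ c, n220 * G = c := ⟨_, rfl⟩
  obtain ⟨n362, t1213⟩ : ∃ a, a * n304 = n361 := ⟨_, Lp.div_mul' _ _⟩
  obtain ⟨n364, t1219⟩ : ∃ c, n362 * n104 = c := ⟨_, rfl⟩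
  obtain ⟨n365, t1222⟩ : ∃ b, n220 * b = n364 := ⟨_, Lp.mul_ldiv _ _⟩
  obtain ⟨n363, t1216⟩ : ∃ a, a * n304 = (1 : Q) := ⟨_, Lp.div_mul' _ _⟩
  obtain ⟨n366, t1225⟩ : ∃ c, n363 * n104 = c := ⟨_, rfl⟩
  have t1228 : g * n365 = n366 := ufr hU t1010 t727 t1210 t1213 t9 t1216 t1219 t1222 t1225
  have m121 : n20 = n224 := mc t61 t753 (m13.trans (m120)) rfl
  have m122 : n292 = g := ma t969 t741 (m121) (m114)
  obtain ⟨n281, t933⟩ : ∃ b, n30 * b = n280 := ⟨_, Lp.mul_ldiv _ _⟩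
  obtain ⟨n160, t523⟩ : ∃ b, n72 * b = (1 : Q) := ⟨_, Lp.mul_ldiv _ _⟩
  obtain ⟨n161, t526⟩ : ∃ c, n107 * G = c := ⟨_, rfl⟩
  have t529 : g * n160 = n161 := ufr hU t334 t229 t229 t334 t9 t343 t9 t523 t526
  have m201 : n125 = n161 := mc t403 t526 ((m36.symm).trans (m195)) rfl
  have m202 : n304 = n160 := mb t1010 t529 rfl ((m35.symm).trans (m201))
  have m203 : n363 = n72 := ma t1216 t523 (m202) rfl
  have m199 : n70 = n272 := mc t222 t901 rfl (m195)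
  have m200 : n281 = n104 := mb t933 t904 (m105.trans (m199)) (m114.trans (m73.symm))
  have m204 : n280 = n366 := mc t933 t1225 ((m51.symm).trans (m203.symm)) (m200)
  have m205 : n20 = n365 := mb t969 t1228 (m122) (m204)
  have m198 : (1 : Q) = n319 := mc t343 t1067 ((m195.symm).trans (m36)) (m140.trans (m197))
  obtain ⟨n306, t1016⟩ : ∃ c, n122 * n304 = c := ⟨_, rfl⟩
  obtain ⟨n305, t1013⟩ : ∃ c, n70 * n304 = c := ⟨_, rfl⟩
  have t1019 : n17 * n306 = n305 := nll hL t52 (rt t222 rfl (m36) rfl) t1013 t1016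
  have m206 : n305 = (1 : Q) := mc t1013 t523 ((m105.symm).trans (m51.symm)) (m202)
  have m207 : n53 = n306 := mb t818 t1019 rfl (m183.trans (m206.symm))
  have m246 : n361 = n53 := mc t1210 t212 ((m102.symm).trans (m188.trans (m237))) rfl
  have m247 : n122 = n362 := ma t1016 t1213 rfl ((m207.symm).trans (m246.symm))
  have m248 : n64 = n364 := mc t205 t1219 (m36.trans (m247)) (m208)
  have m249 : n73 = n365 := mb t1064 t1222 rfl ((m198.symm).trans (m41.trans (m248)))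
  have m250 : n21 = n203 := mb t67 t1229 (m78.trans (m119.trans (m61.symm))) (m205.trans (m249.symm))
  have m158 : n21 = n143 := mc t64 t476 (m157) rfl
  have m252 : n172 = n147 := ma t562 t476 rfl (m113.trans ((m144.symm).trans ((m148.symm).trans ((m250.symm).trans (m158)))))
  have m251 : n104 = n170 := mb t559 t556 rfl (m113.trans ((m144.symm).trans ((m148.symm).trans (m250.symm))))
  have m116 : n74 = n131 := mc t238 t1062 (m107.symm) (m94.symm)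
  have m261 : n290 = n74 := mc t963 t235 (m51.symm) (m205.trans (m249.symm))
  have m262 : n104 = n291 := mb t422 t966 ((m109.symm).trans (m104.symm)) ((m116.symm).trans (m261.symm))
  have m263 : n174 = n294 := mc t568 t975 (m252.trans ((m157.symm).trans (m122.symm))) ((m251.symm).trans (m262))
  obtain ⟨n189, t620⟩ : ∃ c, n19 * n53 = c := ⟨_, rfl⟩
  obtain ⟨n284, t942⟩ : ∃ c, n180 * n189 = c := ⟨_, rfl⟩
  obtain ⟨n285, t945⟩ : ∃ a, a * G = n284 := ⟨_, Lp.div_mul' _ _⟩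
  obtain ⟨n288, t954⟩ : ∃ c, n285 * n281 = c := ⟨_, rfl⟩
  have m242 : n189 = n54 := mc t620 t867 (m13.trans (m241)) rfl
  have m243 : n247 = n284 := mc t815 t942 rfl (m242.symm)
  have m244 : n68 = n285 := ma t218 t945 rfl (m66.trans (m243))
  have m253 : n288 = n174 := mc t954 t568 ((m244.symm).trans ((m236.symm).trans (m157.trans (m252.symm)))) (m200.trans (m251))
  have m245 : n188 = n288 := mc t616 t954 (m29.trans (m236.trans (m244))) (m0.trans (m42.trans (m208.trans (m200.symm))))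
  obtain ⟨n199, t656⟩ : ∃ a, a * n29 = n62 := ⟨_, Lp.div_mul' _ _⟩
  obtain ⟨n201, t662⟩ : ∃ c, n199 * X = c := ⟨_, rfl⟩
  obtain ⟨n323, t1078⟩ : ∃ c, n48 * X = c := ⟨_, rfl⟩
  have t663 : (1 : Q) * n201 = n201 := Lp.one_mul' _
  obtain ⟨n200, t659⟩ : ∃ b, n30 * b = n62 := ⟨_, Lp.mul_ldiv _ _⟩
  have t91 : (1 : Q) * n29 = n29 := Lp.one_mul' _
  have t665 : (1 : Q) * n200 = n201 := ufr hU t91 t93 t93 t91 (rt t197 rfl (m40.symm) rfl) t656 (rt t197 rfl (m40.symm) rfl) t659 t662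
  have m53 : n201 = n200 := mb t663 t665 rfl rfl
  obtain ⟨n282, t936⟩ : ∃ c, n30 * n189 = c := ⟨_, rfl⟩
  obtain ⟨n283, t939⟩ : ∃ a, a * G = n282 := ⟨_, Lp.div_mul' _ _⟩
  obtain ⟨n293, t972⟩ : ∃ a, a * n20 = n33 := ⟨_, Lp.div_mul' _ _⟩
  have m267 : n293 = n14 := ma t972 t232 (m205.trans (m249.symm)) (m50)
  obtain ⟨n286, t948⟩ : ∃ c, n283 * n281 = c := ⟨_, rfl⟩
  obtain ⟨n296, t981⟩ : ∃ c, n293 * n291 = c := ⟨_, rfl⟩
  obtain ⟨n295, t978⟩ : ∃ b, n180 * b = n294 := ⟨_, Lp.mul_ldiv _ _⟩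
  have t984 : n30 * n295 = n296 := ufr hU t963 t966 t930 t969 t102 t972 t975 t978 t981
  obtain ⟨n287, t951⟩ : ∃ b, n30 * b = n286 := ⟨_, Lp.mul_ldiv _ _⟩
  have t957 : n180 * n287 = n288 := ufr hU t930 t933 t936 t939 t942 t945 t948 t951 t954
  have m264 : n287 = n295 := mb t957 t978 rfl (m253.trans (m263))
  have m265 : n296 = n286 := mc t984 t951 rfl (m264.symm)
  have m266 : n283 = n293 := ma t948 t981 (m200.trans (m262)) (m265.symm)
  have m268 : n161 = n282 := mc t526 t939 ((m195.symm).trans ((m267.symm).trans (m266.symm))) rfl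
  have m269 : n200 = n189 := mb t659 t936 rfl ((m40.symm).trans ((m35.symm).trans (m201.trans (m268))))
  obtain ⟨n324, t1081⟩ : ∃ c, n113 * X = c := ⟨_, rfl⟩
  have t1084 : n231 * n324 = n323 := nll hL (rt t762 (m120.symm) (m115) rfl) (rt t151 (m78.trans (m119.trans (m61.symm))) (m68) rfl) t1078 t1081
  obtain ⟨n190, t623⟩ : ∃ c, g * n53 = c := ⟨_, rfl⟩
  have t626 : n18 * n190 = n189 := nll hL t55 t58 t620 t623
  have t868 : (1 : Q) * n262 = n262 := Lp.one_mul' _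
  obtain ⟨n375, t1258⟩ : ∃ b, g * b = n297 := ⟨_, Lp.mul_ldiv _ _⟩
  have t1264 : X * n375 = n376 := ufr hU (rt t546 (m125) (m127.symm) rfl) (rt t9 rfl rfl (m41.trans (m128))) (rt t478 (m157.symm) rfl rfl) (rt t836 rfl rfl ((m67.symm).trans ((m48.symm).trans ((m33.symm).trans (m29.trans (m157)))))) (rt t1042 (m135.symm) rfl rfl) (rt t720 rfl rfl ((m40.symm).trans (m135))) t985 t1258 t1261
  obtain ⟨n310, t1033⟩ : ∃ c, X * n40 = c := ⟨_, rfl⟩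
  have t1036 : n17 * n310 = G := nll hL t52 (rt t844 (m103) rfl rfl) (rt t125 (m50.symm) rfl rfl) t1033
  obtain ⟨n308, t1024⟩ : ∃ c, n247 * G = c := ⟨_, rfl⟩
  have t1030 : n17 * n309 = n308 := nll hL t52 t818 t1024 t1027
  have t1025 : (1 : Q) * n308 = n308 := Lp.one_mul' _
  have m184 : n308 = G := mb t1025 t1024 (m183.symm) rfl
  have m185 : n310 = n309 := mb t1036 t1030 rfl (m184.symm)
  have m186 : n375 = n40 := mb t1264 t1033 rfl ((m178.symm).trans (m185.symm))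
  have t937 : (1 : Q) * n282 = n282 := Lp.one_mul' _
  have t1289 : g * n53 = n324 := ufr hU (rt t945 ((m244.symm).trans (m236.symm)) rfl rfl) (rt t1052 (m133) rfl ((m136.symm).trans ((m183.symm).trans (m243)))) t125 (rt t868 rfl (m241.symm) (m241.symm)) (rt t1258 rfl (m186) rfl) t985 (rt t937 rfl ((m268.symm).trans ((m201.symm).trans (m35.trans (m135)))) rfl) (rt t168 rfl rfl ((m35.symm).trans (m201.trans (m268)))) (rt t1081 rfl (m135) rfl)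
  have m274 : n190 = n324 := mc t623 t1289 rfl rfl
  have m275 : n323 = n189 := mc t1084 t626 (m61.trans ((m119.symm).trans (m78.symm))) (m274.symm)
  have m276 : n199 = n48 := ma t662 t1078 rfl (m53.trans (m269.trans (m275.symm)))
  have m277 : n80 = n62 := mc t254 t656 (m14.trans (m276.symm)) rfl
  have m278 : n382 = n82 := mc t1284 t260 ((m176.symm).trans (m125.trans (m40.trans (m277.symm)))) (m127.symm)
  obtain ⟨n173, t565⟩ : ∃ a, a * n17 = x := ⟨_, Lp.div_mul' _ _⟩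
  obtain ⟨n176, t574⟩ : ∃ c, n173 * n170 = c := ⟨_, rfl⟩
  have m254 : n343 = n17 := mb t1152 t476 (m157) ((m148.symm).trans ((m250.symm).trans (m158)))
  have m255 : n173 = X := ma t565 t1146 (m254.symm) (m133.symm)
  have t577 : g * n175 = n176 := ufr hU t64 t556 t559 t562 t334 t565 t568 t571 t574
  have t1290 : (1 : Q) * n175 = n239 := ufr hU (rt t976 rfl ((m263.symm).trans ((m253.symm).trans ((m245.symm).trans ((m209.symm).trans (m196.symm))))) rfl) (rt t975 (m122) rfl rfl) (rt t945 ((m244.symm).trans (m236.symm)) rfl rfl) (rt t260 rfl rfl ((m278.symm).trans (m175.trans ((m183.symm).trans (m243))))) (rt t868 rfl (m241.symm) rfl) (rt t154 rfl rfl ((m2.symm).trans (m13.trans (m241)))) (rt t574 (m255.trans (m40.trans (m277.symm))) ((m251.symm).trans (m262)) rfl) t577 (rt t790 rfl (m262) rfl)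
  have t797 : (1 : Q) * n241 = n241 := Lp.one_mul' _
  have m221 : n241 = n239 := mc t796 t1163 (m219) rfl
  have m222 : (1 : Q) = n242 := ma t797 t799 (m221) rfl
  have m279 : n239 = n175 := mb t799 t1290 (m222.symm) (m221)
  have m280 : n243 = n47 := ma t802 t571 (m279) (m50.trans (m196.trans (m209.trans (m245.trans (m253)))))
  have t430 : (1 : Q) * n133 = n133 := Lp.one_mul' _
  obtain ⟨n204, t674⟩ : ∃ c, G * n203 = c := ⟨_, rfl⟩
  obtain ⟨n205, t677⟩ : ∃ a, a * x = n204 := ⟨_, Lp.div_mul' _ _⟩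
  obtain ⟨n206, t680⟩ : ∃ c, n205 * n58 = c := ⟨_, rfl⟩
  obtain ⟨n207, t683⟩ : ∃ b, G * b = n206 := ⟨_, Lp.mul_ldiv _ _⟩
  have t672 : (1 : Q) * n203 = n203 := Lp.one_mul' _
  obtain ⟨n132, t426⟩ : ∃ a, a * X = n36 := ⟨_, Lp.div_mul' _ _⟩
  obtain ⟨n134, t432⟩ : ∃ b, g * b = n132 := ⟨_, Lp.mul_ldiv _ _⟩
  have t428 : n132 * (1 : Q) = n132 := Lp.mul_one' _
  have t435 : n44 * n134 = n133 := ufr hU t138 t8 t112 t426 t147 t429 t428 t432 t431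
  obtain ⟨n157, t511⟩ : ∃ c, n141 * X = c := ⟨_, rfl⟩
  have t513 : n157 * (1 : Q) = n157 := Lp.mul_one' _
  have t514 : n36 * (1 : Q) = n157 := nll hL t112 t460 t511 t3
  have m19 : n157 = n36 := ma t513 t514 rfl rfl
  have m20 : n132 = n141 := ma t426 t511 rfl (m19.symm)
  have m30 : n134 = n58 := mb t432 t457 (m29.symm) (m20)
  have t686 : (1 : Q) * n207 = n133 := ufr hU (rt t103 rfl (m50) rfl) (rt t184 rfl rfl (m50.symm)) t674 t677 t672 t671 t680 t683 (rt t435 rfl (m30) rfl)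
  have m56 : n133 = n207 := mb t430 t686 rfl rfl
  obtain ⟨n210, t693⟩ : ∃ c, n208 * n58 = c := ⟨_, rfl⟩
  obtain ⟨n209, t690⟩ : ∃ b, n208 * b = n19 := ⟨_, Lp.mul_ldiv _ _⟩
  obtain ⟨n211, t696⟩ : ∃ c, n210 * n209 = c := ⟨_, rfl⟩
  obtain ⟨n212, t699⟩ : ∃ b, n208 * b = n211 := ⟨_, Lp.mul_ldiv _ _⟩
  obtain ⟨n213, t702⟩ : ∃ c, x * n209 = c := ⟨_, rfl⟩
  have t695 : n210 * (1 : Q) = n210 := Lp.mul_one' _
  have t705 : G * n212 = n213 := ufr hU (rt t360 rfl (m12.symm) rfl) t690 t693 t695 t184 (rt t105 rfl (m49.symm) (m50)) t696 t699 t702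
  have m257 : n204 = n17 := mc t674 t464 rfl ((m250.symm).trans (m158))
  have m258 : x = n205 := ma t52 t677 rfl (m257.symm)
  have t988 : n18 * n297 = n208 := nll hL t55 (rt t151 rfl (m68) rfl) t687 t985
  obtain ⟨n178, t582⟩ : ∃ c, n177 * x = c := ⟨_, rfl⟩
  obtain ⟨n63, t199⟩ : ∃ a, a * n58 = (1 : Q) := ⟨_, Lp.div_mul' _ _⟩
  obtain ⟨n179, t585⟩ : ∃ c, n63 * x = c := ⟨_, rfl⟩
  have t583 : (1 : Q) * n178 = n178 := Lp.one_mul' _
  have t588 : G * n178 = n179 := ufr hU t184 t1 t7 t579 t12 t199 t582 t583 t585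
  obtain ⟨n108, t346⟩ : ∃ c, n106 * n105 = c := ⟨_, rfl⟩
  obtain ⟨n109, t349⟩ : ∃ c, n107 * n105 = c := ⟨_, rfl⟩
  have t338 : (1 : Q) * n105 = n105 := Lp.one_mul' _
  have t347 : (1 : Q) * n108 = n108 := Lp.one_mul' _
  have t352 : G * n108 = n109 := ufr hU t337 t338 t7 t340 t12 t343 t346 t347 t349
  obtain ⟨n66, t208⟩ : ∃ c, n63 * n60 = c := ⟨_, rfl⟩
  have m38 : n179 = n66 := mc t585 t208 rfl (m37.symm)
  obtain ⟨n89, t283⟩ : ∃ c, X * n16 = c := ⟨_, rfl⟩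
  have t211 : X * n65 = n66 := ufr hU t187 t190 t193 t196 t6 t199 t202 t205 t208
  have m43 : n89 = n66 := mc t283 t211 rfl (m42)
  obtain ⟨n90, t286⟩ : ∃ b, n14 * b = n89 := ⟨_, Lp.mul_ldiv _ _⟩
  have t290 : (1 : Q) * n91 = n91 := Lp.one_mul' _
  have t292 : (1 : Q) * n90 = n91 := ufr hU t0 t48 t42 t5 t10 t11 t283 t286 t289
  have m8 : n91 = n90 := mb t290 t292 rfl rfl
  have m224 : n89 = n109 := mc t286 t349 (m195) ((m8.symm).trans (m216.symm))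
  have m225 : n178 = n108 := mb t588 t352 rfl (m38.trans ((m43.symm).trans (m224)))
  obtain ⟨n329, t1099⟩ : ∃ c, n298 * n155 = c := ⟨_, rfl⟩
  have m226 : n329 = n108 := mc t1099 t346 ((m191.symm).trans ((m52.symm).trans (m27.symm))) (m210.trans (m216.symm))
  obtain ⟨n330, t1102⟩ : ∃ a, a * n104 = n329 := ⟨_, Lp.div_mul' _ _⟩
  obtain ⟨n327, t1093⟩ : ∃ c, n298 * n104 = c := ⟨_, rfl⟩
  obtain ⟨n332, t1108⟩ : ∃ c, n330 * n327 = c := ⟨_, rfl⟩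
  have m192 : n268 = n327 := mc t886 t1093 ((m71.symm).trans (m27.trans (m52.trans (m191)))) rfl
  have t1110 : n332 * (1 : Q) = n332 := Lp.mul_one' _
  obtain ⟨n328, t1096⟩ : ∃ a, a * n104 = n155 := ⟨_, Lp.div_mul' _ _⟩
  obtain ⟨n331, t1105⟩ : ∃ c, n328 * n327 = c := ⟨_, rfl⟩
  have t1094 : (1 : Q) * n327 = n327 := Lp.one_mul' _
  have t504 : (1 : Q) * n155 = n155 := Lp.one_mul' _
  have t1106 : (1 : Q) * n331 = n331 := Lp.one_mul' _
  have t1111 : n298 * n331 = n332 := ufr hU t1093 t1094 t504 t1096 t1099 t1102 t1105 t1106 t1108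
  have m211 : G = n328 := ma t289 t1096 (m42.trans (m208)) (m210.symm)
  have m212 : n167 = n331 := mc t549 t1105 (m211) ((m129.symm).trans ((m29.symm).trans (m33.trans (m48.trans (m67.trans (m70.trans (m192)))))))
  have m213 : n332 = n298 := ma t1110 t1111 (m41.trans (m128.trans (m212))) rfl
  have m214 : n113 = n330 := ma t989 t1108 ((m29.symm).trans (m33.trans (m48.trans (m67.trans (m70.trans (m192)))))) (m213.symm)
  have m215 : n345 = n329 := mc t1156 t1102 (m214) (m140.symm)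
  have m227 : n177 = n297 := ma t582 t1153 rfl (m225.trans ((m226.symm).trans (m215.symm)))
  have m228 : n208 = n235 := mc t988 t776 rfl (m227.symm)
  have m229 : n209 = n58 := mb t690 t779 (m228) (m63)
  have m259 : n213 = n206 := mc t702 t680 (m258) (m229)
  have m260 : n212 = n207 := mb t705 t683 rfl (m259)
  obtain ⟨n244, t805⟩ : ∃ c, n242 * n240 = c := ⟨_, rfl⟩
  obtain ⟨n245, t808⟩ : ∃ b, n208 * b = n244 := ⟨_, Lp.mul_ldiv _ _⟩
  have t806 : (1 : Q) * n244 = n244 := Lp.one_mul' _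
  have m223 : n244 = n240 := mb t806 t805 (m222) rfl
  have m231 : n210 = n236 := mc t693 t779 (m228) rfl
  have m232 : x = n211 := mc t184 t696 ((m13.symm).trans (m63.trans (m231.symm))) (m229.symm)
  have m233 : n245 = n212 := mb t808 t699 rfl (m223.trans (m220.trans (m232)))
  have t812 : (1 : Q) * n246 = n246 := Lp.one_mul' _
  have t791 : (1 : Q) * n239 = n239 := Lp.one_mul' _
  have t814 : (1 : Q) * n245 = n246 := ufr hU t791 t793 t796 t799 (rt t103 rfl (m50) rfl) t802 t805 t808 t811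
  have m65 : n246 = n245 := mb t812 t814 rfl rfl
  have m281 : n198 = n240 := mb t655 t811 ((m47.symm).trans (m280.symm)) (m56.trans ((m260.symm).trans ((m233.symm).trans (m65.symm))))
  have m282 : n356 = n118 := mc t1190 t652 (m92.symm) ((m220.symm).trans (m281.symm))
  have m283 : n197 = n357 := mb t651 t1196 rfl ((m112.symm).trans (m47.trans (m282.symm)))
  obtain ⟨n380, t1277⟩ : ∃ b, G * b = n252 := ⟨_, Lp.mul_ldiv _ _⟩
  have t1280 : (1 : Q) * n380 = n29 := ufr hU (rt t1041 rfl (m135.symm) rfl) (rt t81 rfl rfl (m135)) (rt t1131 ((m138.symm).trans ((m75.symm).trans ((m63.symm).trans (m13)))) rfl rfl) (rt t926 rfl rfl (m138)) (rt t358 (m170) rfl rfl) (rt t1052 rfl (m135.symm) ((m136.symm).trans (m170.symm))) (rt t832 (m76) rfl rfl) t1277 (rt t90 (m133.symm) rfl rfl)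
  have m172 : n29 = n380 := mb t91 t1280 rfl rfl
  have m173 : n81 = n252 := mc t257 t1277 rfl (m172)
  have m174 : n357 = n84 := mc t1193 t266 (m173.symm) rfl
  have m284 : n126 = n83 := mb t648 t269 rfl (m283.trans (m174))
  have m285 : n333 = n34 := ma t1112 t263 (m284) ((m128.symm).trans ((m41.symm).trans ((m175.symm).trans (m278))))
  have m286 : n49 = n335 := mc t154 t1118 ((m14.symm).trans (m285.symm)) rfl
  have m287 : n9 = n334 := mb t26 t1121 rfl ((m13.symm).trans (m2.trans (m286)))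
  have t159 : (1 : Q) * n50 = n50 := Lp.one_mul' _
  have t923 : (1 : Q) * n278 = n278 := Lp.one_mul' _
  have t924 : n278 * (1 : Q) = n278 := Lp.mul_one' _
  have t160 : n50 * (1 : Q) = n50 := Lp.mul_one' _
  have t1209 : (1 : Q) * n334 = n50 := ufr hU (rt t923 rfl (m74.symm) rfl) (rt t924 (m74.symm) rfl rfl) (rt t924 (m74.symm) rfl rfl) (rt t923 rfl (m74.symm) rfl) (rt t1054 (m136.symm) rfl rfl) (rt t158 rfl (m68) (m136)) (rt t1054 (m136.symm) rfl rfl) (rt t1115 rfl rfl ((m128.symm).trans ((m41.symm).trans (m136)))) t160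
  have m152 : n50 = n334 := mb t159 t1209 rfl rfl
  have m288 : n11 = n51 := mc t32 t161 rfl (m287.trans (m152.symm))
  have m289 : n253 = n12 := mc t836 t35 ((m68.symm).trans (m4.trans (m288.symm))) rfl
  have m290 : n368 = n110 := mc t1234 t353 ((m29.symm).trans (m33.trans (m48.trans (m67.trans (m289))))) rfl
  have m291 : n51 = n369 := ma t164 t1237 (m68) ((m171.symm).trans (m290.symm))
  have m292 : n248 = n370 := mc t825 t1240 (m4.trans (m291)) rfl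
  have m293 : n35 = n371 := mb t118 t1243 (m29) ((m273.symm).trans ((m161.symm).trans (m292)))
  have t1247 : (1 : Q) * n372 = n372 := Lp.one_mul' _
  have t1249 : (1 : Q) * n371 = n372 := ufr hU (rt t923 rfl (m74.symm) rfl) (rt t822 rfl rfl ((m4.symm).trans (m68.trans (m74)))) t1234 t1237 t294 (rt t293 rfl (m68) rfl) t1240 t1243 t1246
  have m159 : n372 = n371 := mb t1247 t1249 rfl rfl
  have m294 : n351 = X := ma t1182 t1246 (m162.symm) (m141.trans ((m164.symm).trans (m293.trans (m159.symm))))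
  have m295 : n378 = n98 := mc t1273 t1173 (m294.symm) ((m166.symm).trans (m157.symm))
  have m296 : n136 = n100 := mc t439 t320 (m167.trans (m295)) rfl
  have m297 : n99 = n137 := mb t323 t442 rfl (m296.symm)
  have t520 : (1 : Q) * n159 = n159 := Lp.one_mul' _
  have t521 : n159 * (1 : Q) = n159 := Lp.mul_one' _
  have t522 : (1 : Q) * n99 = n159 := ufr hU t69 t70 t70 t69 (rt t363 rfl (m12.symm) rfl) t519 (rt t363 rfl (m12.symm) rfl) t317 t521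
  have m21 : n159 = n99 := mb t520 t522 rfl rfl
  have m298 : n86 = n326 := mc t273 t1088 (m15.trans ((m297.symm).trans (m21.symm))) rfl
  have m299 : n325 = n87 := mb t1091 t276 rfl (m298.symm)
  have t280 : (1 : Q) * n88 = n88 := Lp.one_mul' _
  have t272 : n85 * (1 : Q) = n85 := Lp.mul_one' _
  have t282 : (1 : Q) * n87 = n88 := ufr hU t0 t9 t270 t272 t1 t2 t273 t276 t279
  have m7 : n88 = n87 := mb t280 t282 rfl rfl
  have m300 : n318 = n237 := mc t1058 t783 (m131.trans (m299.trans (m7.symm))) (m135.symm)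
  have m301 : n238 = n317 := mb t786 t1061 rfl (m300.symm)
  have t21 : (1 : Q) * n7 = n7 := Lp.one_mul' _
  have t281 : n88 * (1 : Q) = n88 := Lp.mul_one' _
  have t789 : (1 : Q) * n238 = n7 := ufr hU (rt t101 (m49.symm) rfl rfl) (rt t3 rfl rfl (m49)) t279 t281 (rt t780 rfl ((m63.symm).trans (m13)) rfl) t781 t783 t786 (rt t20 ((m13.symm).trans (m63)) rfl rfl)
  have m64 : n7 = n238 := mb t21 t789 rfl rfl
  rw [t13] at tw
  rw [t20]
  exact (mb tw t16 rfl rfl).trans (m137.trans ((m301.symm).trans (m64.symm)))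

/-- a universally flexible loop whose squares lie in the left nucleus has the antiautomorphic and
the semi-automorphic inverse property -/
theorem left_nuclear_squares {Q : Type u} [Lp Q] (hU : UF Q)
    (hL : ∀ s a b : Q, ((s * s) * a) * b = (s * s) * (a * b)) : AAIP Q ∧ SAIP Q := by
  have h1 : ∀ a : Q, a * iv a = 1 := fun a => Lp.mul_ldiv a 1
  have hA : ∀ x y : Q, iv (x * y) = iv y * iv x := fun x y =>
    aaip_lsq hU hL x (iv x) y (iv y) _ (h1 x) (h1 y) (h1 _)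
  refine ⟨hA, fun x y => ?_⟩
  rw [hA x (y * x), hA y x]
  have hf : ∀ a b : Q, (a * b) * a = a * (b * a) := by
    intro a b
    have h := hU 1 1 a b
    unfold circ at h
    have e1 : ∀ t : Q, t / 1 = t := fun t => by
      have := Lp.mul_div' 1 t
      rwa [Lp.mul_one'] at this
    have e2 : ∀ t : Q, ldiv 1 t = t := fun t => by
      have := Lp.ldiv_mul 1 t
      rwa [Lp.one_mul'] at this
    simp only [e1, e2] at h
    exact h.symm
  exact hf (iv x) (iv y)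

/-- the opposite loop -/
structure Opp (Q : Type u) where
  un : Q

instance {Q : Type u} [Lp Q] : Mul (Opp Q) := ⟨fun a b => ⟨b.un * a.un⟩⟩
instance {Q : Type u} [Lp Q] : One (Opp Q) := ⟨⟨1⟩⟩
instance {Q : Type u} [Lp Q] : Div (Opp Q) := ⟨fun b a => ⟨ldiv a.un b.un⟩⟩

instance {Q : Type u} [Lp Q] : Lp (Opp Q) where
  ldiv a b := ⟨b.un / a.un⟩
  one_mul' x := congrArg Opp.mk (Lp.mul_one' x.un)
  mul_one' x := congrArg Opp.mk (Lp.one_mul' x.un)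
  mul_ldiv a b := congrArg Opp.mk (Lp.div_mul' a.un b.un)
  ldiv_mul a b := congrArg Opp.mk (Lp.mul_div' a.un b.un)
  div_mul' a b := congrArg Opp.mk (Lp.mul_ldiv a.un b.un)
  mul_div' a b := congrArg Opp.mk (Lp.ldiv_mul a.un b.un)

theorem circ_opp {Q : Type u} [Lp Q] (a b x y : Opp Q) :
    circ a b x y = ⟨circ b.un a.un y.un x.un⟩ := rfl

theorem uf_opp {Q : Type u} [Lp Q] (hU : UF Q) : UF (Opp Q) := by
  intro a b x y
  rw [circ_opp, circ_opp, circ_opp, circ_opp]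
  exact congrArg Opp.mk (hU b.un a.un x.un y.un).symm

/-- a universally flexible loop whose squares all lie in the left nucleus, or all lie in the right
nucleus, has the antiautomorphic and the semi-automorphic inverse property -/
theorem one_sided_nuclear_squares {Q : Type u} [Lp Q] (hU : UF Q)
    (h : (∀ s a b : Q, ((s * s) * a) * b = (s * s) * (a * b)) ∨
      (∀ s a b : Q, (a * b) * (s * s) = a * (b * (s * s)))) : AAIP Q ∧ SAIP Q := by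
  rcases h with hL | hR
  · exact left_nuclear_squares hU hL
  · have hO := left_nuclear_squares (uf_opp hU) (fun s a b =>
      congrArg Opp.mk (hR s.un b.un a.un).symm)
    have hi : ∀ x : Q, (1 : Q) / x = iv x := by
      intro x
      have h2 : iv x * x = 1 := inv2 hU (Lp.mul_ldiv x 1)
      have h3 : ((1 : Q) / x) * x = 1 := Lp.div_mul' x 1
      exact ma h3 h2 rfl rfl
    have hA : AAIP Q := by
      intro x y
      have h4 := congrArg Opp.un (hO.1 ⟨y⟩ ⟨x⟩)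
      have h5 : (1 : Q) / (x * y) = (1 / y) * (1 / x) := h4
      rw [hi, hi, hi] at h5
      exact h5
    refine ⟨hA, fun x y => ?_⟩
    have h6 := congrArg Opp.un (hO.2 ⟨x⟩ ⟨y⟩)
    have h7 : (1 : Q) / ((x * y) * x) = ((1 / x) * (1 / y)) * (1 / x) := h6
    rw [hi, hi, hi] at h7
    have hf : ∀ a b : Q, (a * b) * a = a * (b * a) := by
      intro a b
      have h := hU 1 1 a b
      unfold circ at h
      have e1 : ∀ t : Q, t / 1 = t := fun t => by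
        have := Lp.mul_div' 1 t
        rwa [Lp.mul_one'] at this
      have e2 : ∀ t : Q, ldiv 1 t = t := fun t => by
        have := Lp.ldiv_mul 1 t
        rwa [Lp.one_mul'] at this
      simp only [e1, e2] at h
      exact h.symm
    rw [hf, hf] at h7
    exact h7

end H1UFC
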