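import Pool.Agent.H16.UFL.Defs

set_option autoImplicit false

/-! # Rules for ground derivations in universally flexible loops -/

namespace H1UFC

open H16UFL

universe u

variable {Q : Type u} [Lp Q]

/-- equal factors have equal products -/
theorem mc {a b c a' b' c' : Q} (h : a * b = c) (h' : a' * b' = c') (ea : a = a') (eb : b = b') :
    c = c' := by
  rw [← h, ← h', ea, eb]

/-- left cancellation -/
theorem mb {a b c a' b' c' : Q} (h : a * b = c) (h' : a' * b' = c') (ea : a = a') (ec : c = c') :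
    b = b' := by
  subst ea
  subst ec
  rw [← Lp.ldiv_mul a b, ← Lp.ldiv_mul a b', h, h']

/-- right cancellation -/
theorem ma {a b c a' b' c' : Q} (h : a * b = c) (h' : a' * b' = c') (eb : b = b') (ec : c = c') :
    a = a' := by
  subst eb
  subst ec
  rw [← Lp.mul_div' b a, ← Lp.mul_div' b a', h, h']

/-- replacing the three elements of a product by equal ones -/
theorem rt {a b c a' b' c' : Q} (h : a * b = c) (ea : a = a') (eb : b = b') (ec : c = c') :
    a' * b' = c' := by
  rw [← ea, ← eb, h, ec]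

/-- universal flexibility as a closure rule: if `u b = a v`, `a y = p b`, `u y = n b` and
`a w = p v`, then `u w = n v` -/
theorem ufr (hU : UF Q) {a b u v y p n w z1 z2 z3 z4 z5 : Q} (h1 : u * b = z1) (h2 : a * v = z1)
    (h3 : a * y = z2) (h4 : p * b = z2) (h5 : u * y = z3) (h6 : n * b = z3) (h7 : p * v = z4)
    (h8 : a * w = z4) (h9 : n * v = z5) : u * w = z5 := by
  have h := hU a b z1 z2
  unfold circ at h
  have e1 : z1 / b = u := by rw [← h1, Lp.mul_div']
  have e2 : ldiv a z1 = v := by rw [← h2, Lp.ldiv_mul]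
  have e3 : ldiv a z2 = y := by rw [← h3, Lp.ldiv_mul]
  have e4 : z2 / b = p := by rw [← h4, Lp.mul_div']
  have e5 : z3 / b = n := by rw [← h6, Lp.mul_div']
  have e6 : ldiv a z4 = w := by rw [← h8, Lp.ldiv_mul]
  rw [e1, e2, e3, e4, h5, e5, h7, e6, h9] at h
  exact h

/-- a right inverse is a left inverse -/
theorem inv2 (hU : UF Q) {a b : Q} (h : a * b = 1) : b * a = 1 := by
  have h0 : (1 : Q) * a = a := Lp.one_mul' a
  have h1 : (1 : Q) * b = b := Lp.one_mul' b
  have h2 : b * 1 = b := Lp.mul_one' b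
  have h3 : a * 1 = a := Lp.mul_one' a
  obtain ⟨c, hc⟩ : ∃ c, b * a = c := ⟨_, rfl⟩
  have h4 : (1 : Q) * c = c := Lp.one_mul' c
  have h6 : (1 : Q) * 1 = 1 := Lp.one_mul' 1
  have h5 : a * c = a := ufr hU h3 h0 h1 h2 h h6 hc h4 h0
  rw [hc]
  exact mb h5 h3 rfl rfl

end H1UFC
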